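import Pool.Agent.Lib.MP_4d044e_co.TW.Defs

/-!
Definitions for the exact value of the coefficient of fragmentability for all large `d`: the potential of
`TW/Defs.lean` with a kink of size `w0` at `w0`, and the structure `NG` with the first order condition
up to an error `w0`.
-/

set_option autoImplicit false

namespace Pool.Agent.Lib.MP_4d044e_co.TX

open Pool.Agent.Lib.MP_4d044e_co.TW
open Finset
open scoped Classical

variable {V : Type} [Fintype V] [DecidableEq V]

/-- the potential with a kink -/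
noncomputable def FK (η w0 : ℝ) (G : SimpleGraph V) (w : V → ℝ) : ℝ :=
  FF η w0 G w - 8 * w0 * ∑ v, |w v - w0|

/-- everything that the local analysis uses about a minimal counterexample. -/
structure NG (G : SimpleGraph V) (w : V → ℝ) (w0 β η : ℝ) (C0 : ℕ) : Prop where
  hη : η = 1 / 10 ^ 39
  w0pos : 0 < w0
  w0β : w0 ≤ β
  βsm : β ≤ 1 / 10 ^ 200
  wlo : ∀ v, w0 * (99 / 100) ≤ w v
  whi : ∀ v, w v ≤ β
  foc : ∀ v, |nu w (nbr G v) + 2 * w v + η * Real.log (w v / w0) - 1| ≤ w0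
  cls : ∀ v, nu w (cn G v) ≤ 1 + 2 * β
  ng1 : ∀ T : Finset V, T.Nonempty → T.card ≤ C0 →
    (1 - η) * T.card ≤ 4 * (ee G w (cN G T) (cN G T) + 3 * η * nu w (cN G T))
  ng2 : ∀ (t : V) (X : Finset V), t ∈ X →
    (1 - η) ≤ 4 * (ee G w X X + 3 * η * nu w X + miss G w (nbr G t \ X))
  ng3a : ∀ (u v : V) (X : Finset V), u ∈ X → v ∈ X → u ≠ v → ¬ G.Adj u v →
    (1 - η) * 2 ≤ 4 * (ee G w X X + 3 * η * nu w X + miss G w (nbr G u \ X)
      + miss G w (nbr G v \ X))
  ng3b : ∀ (u v : V) (X : Finset V), u ∈ X → v ∈ X → G.Adj u v →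
    (1 - η) * 2 ≤ 4 * (ee G w X X + 3 * η * nu w X + miss G w ((nbr G u ∪ nbr G v) \ X))

end Pool.Agent.Lib.MP_4d044e_co.TX
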