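import Pool.Agent.Lib.MP_4d044e_co.TX.Defs
import Pool.Agent.Lib.MP_4d044e_co.TW.OPT

/-!
The optimal weights of the potential with a kink.
-/

set_option autoImplicit false

namespace Pool.Agent.Lib.MP_4d044e_co.TX

open Pool.Agent.Lib.MP_4d044e_co.TW
open Finset
open scoped Classical

variable {V : Type} [Fintype V] [DecidableEq V]

namespace OPTXM

open OPTM

theorem kink_update (w0 : ℝ) (w : V → ℝ) (v : V) (t : ℝ) :
    ∑ x, |Function.update w v t x - w0| =
      ∑ x ∈ univ.erase v, |w x - w0| + |t - w0| := by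
  rw [← sum_erase_add _ _ (mem_univ v)]
  congr 1
  · refine sum_congr rfl fun x hx => ?_
    rw [Function.update_of_ne (ne_of_mem_erase hx)]
  · rw [Function.update_self]

theorem contK (η w0 : ℝ) (hw0 : 0 < w0) (G : SimpleGraph V) : Continuous (FK η w0 G) := by
  unfold FK
  refine (cont η w0 hw0 G).sub (continuous_const.mul (continuous_finsetSum _ fun v _ => ?_))
  exact ((continuous_apply v).sub continuous_const).abs

theorem FK_update (η w0 : ℝ) (G : SimpleGraph V) (w : V → ℝ) (v : V) (s t : ℝ) :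
    FK η w0 G (Function.update w v t) - FK η w0 G (Function.update w v s) =
      (ph η w0 (nu w (nbr G v)) t - 8 * w0 * |t - w0|) -
        (ph η w0 (nu w (nbr G v)) s - 8 * w0 * |s - w0|) := by
  unfold FK
  rw [FF_update η w0 G w v t, FF_update η w0 G w v s, kink_update, kink_update]
  ring

end OPTXM

open OPTXM OPTM in
theorem optx (η w0 : ℝ) (hη : 0 < η) (hw0 : 0 < w0) (hw1 : w0 ≤ 1 / 2) (G : SimpleGraph V) :
    ∃ w : V → ℝ, (∀ v, 0 < w v ∧ w v < 1) ∧
      (∀ u : V → ℝ, (∀ v, 0 ≤ u v ∧ u v ≤ 1) → FK η w0 G u ≤ FK η w0 G w) ∧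
      (∀ v, |nu w (nbr G v) + 2 * w v + η * Real.log (w v / w0) - 1| ≤ w0) := by
  have hK : IsCompact (Set.pi Set.univ fun _ : V => Set.Icc (0 : ℝ) 1) :=
    isCompact_univ_pi fun _ => isCompact_Icc
  have hne : (Set.pi Set.univ fun _ : V => Set.Icc (0 : ℝ) 1).Nonempty :=
    ⟨fun _ => 0, fun _ _ => ⟨le_refl 0, zero_le_one⟩⟩
  obtain ⟨w, hw, hmax⟩ := hK.exists_isMaxOn hne (contK η w0 hw0 G).continuousOn
  have hw' : ∀ v, 0 ≤ w v ∧ w v ≤ 1 := fun v => hw v (Set.mem_univ v)
  have hmax' : ∀ u : V → ℝ, (∀ v, 0 ≤ u v ∧ u v ≤ 1) → FK η w0 G u ≤ FK η w0 G w :=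
    fun u hu => hmax fun v _ => hu v
  have hν : ∀ v, 0 ≤ nu w (nbr G v) := fun v => Finset.sum_nonneg fun x _ => (hw' x).1
  have hph : ∀ (v : V) (t : ℝ), 0 ≤ t → t ≤ 1 →
      ph η w0 (nu w (nbr G v)) t - 8 * w0 * |t - w0| ≤
        ph η w0 (nu w (nbr G v)) (w v) - 8 * w0 * |w v - w0| := by
    intro v t h0 h1
    have h2 := hmax' (Function.update w v t) (by
      intro x
      by_cases hx : x = v
      · subst hx; simp [h0, h1]
      · simp [hx, (hw' x).1, (hw' x).2])
    have h3 := FK_update η w0 G w v (w v) t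
    rw [Function.update_eq_self] at h3
    linarith
  have hpos : ∀ v, 0 < w v := by
    intro v
    rcases lt_or_eq_of_le (hw' v).1 with h | h
    · exact h
    · exfalso
      obtain ⟨t, ht0, ht1, ht⟩ := pos_pt η w0 (nu w (nbr G v)) hη hw0 hw1 (hν v)
      have h1 := hph v t ht0 ht1
      rw [← h, ph_zero] at h1
      have h2 : |t - w0| ≤ t + w0 := by
        rw [abs_le]; constructor <;> linarith
      -- use a point `t ≤ w0`
      by_cases htw : t ≤ w0
      · have h3 : |t - w0| = w0 - t := by rw [abs_of_nonpos (by linarith)]; ring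
        have h4 : |(0 : ℝ) - w0| = w0 := by rw [zero_sub, abs_neg, abs_of_pos hw0]
        rw [h3, h4] at h1
        nlinarith
      · push Not at htw
        -- then test at `w0` itself through concavity is not needed: use the explicit point
        exfalso
        have hn := hν v
        set t' : ℝ := w0 * Real.exp (-((1 + nu w (nbr G v)) / η)) with ht'
        have ht'0 : 0 < t' := by positivity
        have hexp : Real.exp (-((1 + nu w (nbr G v)) / η)) ≤ 1 := by
          rw [Real.exp_le_one_iff]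
          have : 0 ≤ (1 + nu w (nbr G v)) / η := by positivity
          linarith
        have ht'1 : t' ≤ w0 := by nlinarith
        have hlog : Real.log (t' / w0) = -((1 + nu w (nbr G v)) / η) := by
          rw [ht', mul_div_assoc, mul_comm, div_mul_cancel₀ _ hw0.ne', Real.log_exp]
        have h2 : ph η w0 (nu w (nbr G v)) t' = 8 * t' * (2 - t' + η) := by
          unfold ph
          rw [hlog]
          field_simp
          ring
        have h5 := hph v t' ht'0.le (by linarith)
        have h3 : |t' - w0| = w0 - t' := by rw [abs_of_nonpos (by linarith)]; ring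
        have h4 : |(0 : ℝ) - w0| = w0 := by rw [zero_sub, abs_neg, abs_of_pos hw0]
        rw [← h, ph_zero, h3, h4, h2] at h5
        have h6 : 0 < 8 * t' * (2 - t' + η) := by
          have : 0 < 2 - t' + η := by linarith
          positivity
        nlinarith
  have hlt : ∀ v, w v < 1 := by
    intro v
    rcases lt_or_eq_of_le (hw' v).2 with h | h
    · exact h
    · exfalso
      have h1 := hph v (1 / 2) (by norm_num) (by norm_num)
      rw [h] at h1
      have h2 := one_lt η w0 (nu w (nbr G v)) hη hw0 hw1 (hν v)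
      have h3 : |(1 / 2 : ℝ) - w0| = 1 / 2 - w0 := abs_of_nonneg (by linarith)
      have h4 : |(1 : ℝ) - w0| = 1 - w0 := abs_of_nonneg (by linarith)
      rw [h3, h4] at h1
      nlinarith
  refine ⟨w, fun v => ⟨hpos v, hlt v⟩, hmax', fun v => ?_⟩
  have hd := ph_deriv η w0 (nu w (nbr G v)) (w v) hw0 (hpos v)
  set f := ph η w0 (nu w (nbr G v)) with hf
  set f' := (8 - 16 * w v - 8 * η * Real.log (w v / w0) - 8 * nu w (nbr G v)) with hf'
  have hup : f' ≤ 8 * w0 := by
    have h1 := hd.tendsto_slope_zero_right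
    refine le_of_tendsto h1 ?_
    have h2 : Set.Ioo (0 : ℝ) (1 - w v) ∈ nhdsWithin (0 : ℝ) (Set.Ioi 0) :=
      Ioo_mem_nhdsGT (by linarith [hlt v])
    filter_upwards [h2] with t ht
    have ht0 : 0 < t := ht.1
    have h3 := hph v (w v + t) (by linarith [hpos v]) (by linarith [ht.2])
    have h4 : |w v + t - w0| - |w v - w0| ≤ t := by
      have := abs_sub_abs_le_abs_sub (w v + t - w0) (w v - w0)
      have h5 : (w v + t - w0) - (w v - w0) = t := by ring
      rw [h5, abs_of_pos ht0] at this
      exact this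
    rw [smul_eq_mul, inv_mul_le_iff₀ ht0]
    have h6 : 8 * w0 * (|w v + t - w0| - |w v - w0|) ≤ 8 * w0 * t :=
      mul_le_mul_of_nonneg_left h4 (by linarith)
    linarith
  have hlo : -(8 * w0) ≤ f' := by
    have h1 := hd.tendsto_slope_zero_left
    refine ge_of_tendsto h1 ?_
    have h2 : Set.Ioo (-(w v)) (0 : ℝ) ∈ nhdsWithin (0 : ℝ) (Set.Iio 0) :=
      Ioo_mem_nhdsLT (by linarith [hpos v])
    filter_upwards [h2] with t ht
    have ht0 : t < 0 := ht.2
    have h3 := hph v (w v + t) (by linarith [ht.1]) (by linarith [hlt v])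
    have h4 : |w v + t - w0| - |w v - w0| ≤ -t := by
      have := abs_sub_abs_le_abs_sub (w v + t - w0) (w v - w0)
      have h5 : (w v + t - w0) - (w v - w0) = t := by ring
      rw [h5, abs_of_neg ht0] at this
      exact this
    have h6 : 8 * w0 * (|w v + t - w0| - |w v - w0|) ≤ 8 * w0 * (-t) :=
      mul_le_mul_of_nonneg_left h4 (by linarith)
    have h7 : f (w v + t) - f (w v) ≤ (-(8 * w0)) * t := by linarith
    rw [smul_eq_mul]
    have h8 : t⁻¹ < 0 := inv_lt_zero.2 ht0
    have h9 := mul_le_mul_of_nonpos_left h7 h8.le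
    have ht1 : t ≠ 0 := ht0.ne
    have h10 : t⁻¹ * ((-(8 * w0)) * t) = -(8 * w0) := by
      rw [mul_comm, mul_assoc, mul_inv_cancel₀ ht1, mul_one]
    linarith
  rw [abs_le]
  constructor
  · rw [hf'] at hup; linarith
  · rw [hf'] at hlo; linarith

end Pool.Agent.Lib.MP_4d044e_co.TX
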