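import Pool.Agent.Lib.MP_4d044e_co.TX.Defs
import Pool.Agent.Lib.MP_4d044e_co.TW.CS
import Pool.Agent.Lib.MP_4d044e_co.AS.TRV

section
/-!
Core of module ACC (section 7 of the blueprint): the mass of `N[z]` outside the two clusters.
-/
set_option autoImplicit false
set_option linter.unusedSectionVars false

namespace Pool.Agent.Lib.MP_4d044e_co.TX

open Pool.Agent.Lib.MP_4d044e_co.TW

open Finset
open scoped Classical

variable {V : Type} [Fintype V] [DecidableEq V]

theorem acc_nu_mono {w : V → ℝ} (hw : ∀ v, 0 ≤ w v) {X Y : Finset V} (h : X ⊆ Y) :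
    nu w X ≤ nu w Y :=
  Finset.sum_le_sum_of_subset_of_nonneg h (fun v _ _ => hw v)

theorem acc_nu_union {w : V → ℝ} {X Y : Finset V} (h : Disjoint X Y) :
    nu w (X ∪ Y) = nu w X + nu w Y :=
  Finset.sum_union h

theorem acc_nu_nonneg {w : V → ℝ} (hw : ∀ v, 0 ≤ w v) (X : Finset V) : 0 ≤ nu w X :=
  Finset.sum_nonneg (fun v _ => hw v)

theorem acc_ee_union_left {G : SimpleGraph V} {w : V → ℝ} {X X' Y : Finset V}
    (h : Disjoint X X') : ee G w (X ∪ X') Y = ee G w X Y + ee G w X' Y :=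
  Finset.sum_union h

theorem acc_ee_union_right {G : SimpleGraph V} {w : V → ℝ} {X Y Y' : Finset V}
    (h : Disjoint Y Y') : ee G w X (Y ∪ Y') = ee G w X Y + ee G w X Y' := by
  unfold ee
  rw [← Finset.sum_add_distrib]
  exact Finset.sum_congr rfl (fun u _ => Finset.sum_union h)

theorem acc_ee_comm {G : SimpleGraph V} {w : V → ℝ} (X Y : Finset V) :
    ee G w X Y = ee G w Y X := by
  unfold ee
  rw [Finset.sum_comm]
  refine Finset.sum_congr rfl (fun u _ => Finset.sum_congr rfl (fun v _ => ?_))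
  simp only [G.adj_comm v u, mul_comm (w v) (w u)]

theorem acc_ee_row {G : SimpleGraph V} {w : V → ℝ} (X Y : Finset V) :
    ee G w X Y = ∑ u ∈ X, w u * nu w (nbr G u ∩ Y) := by
  unfold ee nu nbr
  refine Finset.sum_congr rfl (fun u _ => ?_)
  rw [Finset.mul_sum, ← Finset.sum_filter]
  refine Finset.sum_congr ?_ (fun v _ => rfl)
  ext v
  simp only [Finset.mem_filter, Finset.mem_inter, Finset.mem_univ, true_and]
  exact and_comm

theorem acc_ee_le {G : SimpleGraph V} {w : V → ℝ} (hw : ∀ v, 0 ≤ w v) (X Y : Finset V)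
    (c : ℝ) (hc : ∀ u ∈ X, nu w (nbr G u ∩ Y) ≤ c) : ee G w X Y ≤ c * nu w X := by
  rw [acc_ee_row, nu, Finset.mul_sum]
  refine Finset.sum_le_sum (fun u hu => ?_)
  rw [mul_comm c]
  exact mul_le_mul_of_nonneg_left (hc u hu) (hw u)

theorem acc_nbr_sub (G : SimpleGraph V) (v : V) : nbr G v ⊆ cn G v := Finset.subset_insert _ _

/-- numeric core -/
theorem acc_num {a b j lam η β e1 e2 : ℝ} (hj0 : 0 ≤ j) (hj : j ≤ 3 / 1000)
    (hlam : lam = 1 / 10 ^ 39) (hη : η = 1 / 10 ^ 39) (hβ : β ≤ 1 / 10 ^ 200)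
    (ha : 49 / 100 ≤ a) (hb : 49 / 100 ≤ b)
    (hsum : a + b + j ≤ 1 + 3 * β)
    (he1 : e1 ≤ 2 / 100 * j + 11 / 10 * lam) (he2 : e2 ≤ 2 / 100 * j + 11 / 10 * lam)
    (h1 : (1 - η) ≤ 4 * (a * a + 2 * e1 + j * j + 3 * η * (11 / 10)))
    (h2 : (1 - η) ≤ 4 * (b * b + 2 * e2 + j * j + 3 * η * (11 / 10))) :
    j ≤ 40 / 10 ^ 39 := by
  have hβ' : β ≤ 1 / 10 ^ 39 := hβ.trans (by norm_num)
  set E : ℝ := 4 / 100 * j + 22 / 10 * lam + j * j + 33 / 10 * η + η / 4 with hE
  have hjj : j * j ≤ 3 / 1000 * j := mul_le_mul_of_nonneg_right hj hj0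
  have hE0 : 0 ≤ E := by
    rw [hE, hlam, hη]; positivity
  have key : ∀ x : ℝ, 49 / 100 ≤ x → 1 / 4 - E ≤ x * x → 1 / 2 - x ≤ E * (100 / 99) := by
    intro x hx hxx
    rcases le_or_gt (1 / 2) x with h | h
    · have : 0 ≤ E * (100 / 99) := by positivity
      linarith
    · have h3 : (1 / 2 - x) * (99 / 100) ≤ (1 / 2 - x) * (1 / 2 + x) :=
        mul_le_mul_of_nonneg_left (by linarith) (by linarith)
      nlinarith
  have hka := key a ha (by rw [hE]; linarith)
  have hkb := key b hb (by rw [hE]; linarith)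
  have h4 : j - 3 * β ≤ 2 * (E * (100 / 99)) := by linarith
  have h5 : E ≤ 43 / 1000 * j + 6 / 10 ^ 39 := by
    rw [hE, hlam, hη]; linarith
  have h6 : j ≤ 2 * ((43 / 1000 * j + 6 / 10 ^ 39) * (100 / 99)) + 3 / 10 ^ 39 := by
    linarith
  linarith

/-- one of the two inequalities: keep `z`, delete `N[z]` except the clique `M' - z` -/
theorem acc_side {G : SimpleGraph V} {w : V → ℝ} {w0 β η : ℝ} {C0 : ℕ} (h : NG G w w0 β η C0)
    {z : V} {M M' J Gd : Finset V} {lam : ℝ} (hw : ∀ v, 0 ≤ w v)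
    (hz : z ∈ M) (hMM : M ∩ M' = {z}) (hM : M ⊆ cn G z)
    (hJ : J = cn G z \ (M ∪ M'))
    (hadj : ∀ u ∈ M', ∀ v ∈ M', u ≠ v → G.Adj u v)
    (hcon : ∀ x ∈ Gd, x ∉ M → nu w (cn G x ∩ M) ≤ 20 / 1000)
    (hT : nu w (cn G z \ Gd) ≤ lam) :
    ∃ e1 : ℝ, e1 ≤ 2 / 100 * nu w J + 11 / 10 * lam ∧
      (1 - η) ≤ 4 * (nu w M * nu w M + 2 * e1 + nu w J * nu w J + 3 * η * (11 / 10)) := by
  refine ⟨ee G w M J, ?_, ?_⟩
  · have hsplit : J = (J ∩ Gd) ∪ (J \ Gd) := by
      ext x; simp only [Finset.mem_union, Finset.mem_inter, Finset.mem_sdiff]; tauto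
    have hdis : Disjoint (J ∩ Gd) (J \ Gd) := by
      rw [Finset.disjoint_left]; intro x hx hx'
      simp only [Finset.mem_inter, Finset.mem_sdiff] at hx hx'; tauto
    have hcomm : ee G w M J = ee G w (J ∩ Gd) M + ee G w (J \ Gd) M := by
      rw [acc_ee_comm, ← acc_ee_union_left hdis, ← hsplit]
    have h1 : ee G w (J ∩ Gd) M ≤ 2 / 100 * nu w (J ∩ Gd) := by
      refine acc_ee_le hw _ _ _ (fun u hu => ?_)
      rw [Finset.mem_inter] at hu
      have huM : u ∉ M := by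
        have := hu.1
        rw [hJ, Finset.mem_sdiff, Finset.mem_union] at this
        tauto
      have h2 := hcon u hu.2 huM
      have h3 : nu w (nbr G u ∩ M) ≤ nu w (cn G u ∩ M) :=
        acc_nu_mono hw (Finset.inter_subset_inter_right (acc_nbr_sub G u))
      linarith
    have hβ' : β ≤ 1 / 100 := h.βsm.trans (by norm_num)
    have h2 : ee G w (J \ Gd) M ≤ 11 / 10 * nu w (J \ Gd) := by
      refine acc_ee_le hw _ _ _ (fun u hu => ?_)
      have h3 : nu w (nbr G u ∩ M) ≤ nu w (cn G u) :=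
        acc_nu_mono hw (Finset.inter_subset_left.trans (acc_nbr_sub G u))
      have := h.cls u
      linarith
    have h3 : nu w (J \ Gd) ≤ lam := by
      refine (acc_nu_mono hw ?_).trans hT
      refine Finset.sdiff_subset_sdiff ?_ (Finset.Subset.refl _)
      rw [hJ]; exact Finset.sdiff_subset
    have h4 : nu w (J ∩ Gd) ≤ nu w J := acc_nu_mono hw Finset.inter_subset_left
    rw [hcomm]
    linarith
  · have hXe : cn G z \ (M' \ {z}) = M ∪ J := by
      ext x
      rw [hJ]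
      simp only [Finset.mem_union, Finset.mem_sdiff, Finset.mem_singleton]
      constructor
      · rintro ⟨hx, hx'⟩
        by_cases hxM : x ∈ M
        · exact Or.inl hxM
        · by_cases hxM' : x ∈ M'
          · exfalso
            apply hx'
            refine ⟨hxM', ?_⟩
            rintro rfl
            exact hxM hz
          · exact Or.inr ⟨hx, by tauto⟩
      · rintro (hx | ⟨hx, hx'⟩)
        · refine ⟨hM hx, ?_⟩
          rintro ⟨h1, h2⟩
          have : x ∈ M ∩ M' := Finset.mem_inter.2 ⟨hx, h1⟩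
          rw [hMM, Finset.mem_singleton] at this
          exact h2 this
        · exact ⟨hx, by tauto⟩
    have hzX : z ∈ cn G z \ (M' \ {z}) := by
      rw [hXe]; exact Finset.mem_union_left _ hz
    have hmain := h.ng2 z _ hzX
    have hmiss : miss G w (nbr G z \ (cn G z \ (M' \ {z}))) = 0 := by
      unfold miss
      refine Finset.sum_eq_zero (fun u hu => Finset.sum_eq_zero (fun v hv => ?_))
      rw [if_neg]
      rintro ⟨huv, hna⟩
      apply hna
      rw [Finset.mem_sdiff, Finset.mem_sdiff] at hu hv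
      have hu' : u ∈ M' := by
        by_contra hcon
        exact hu.2 ⟨acc_nbr_sub G z hu.1, fun hh => hcon (Finset.mem_sdiff.1 hh).1⟩
      have hv' : v ∈ M' := by
        by_contra hcon
        exact hv.2 ⟨acc_nbr_sub G z hv.1, fun hh => hcon (Finset.mem_sdiff.1 hh).1⟩
      exact hadj u hu' v hv' huv
    rw [hmiss, hXe, add_zero] at hmain
    have hdis : Disjoint M J := by
      rw [Finset.disjoint_left, hJ]; intro x hx hx'
      simp only [Finset.mem_sdiff, Finset.mem_union] at hx'; tauto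
    have hee : ee G w (M ∪ J) (M ∪ J)
        = ee G w M M + 2 * ee G w M J + ee G w J J := by
      rw [acc_ee_union_left hdis, acc_ee_union_right hdis, acc_ee_union_right hdis,
        acc_ee_comm J M]
      ring
    have h1 : ee G w M M ≤ nu w M * nu w M :=
      acc_ee_le hw _ _ _ (fun u _ => acc_nu_mono hw Finset.inter_subset_right)
    have h2 : ee G w J J ≤ nu w J * nu w J :=
      acc_ee_le hw _ _ _ (fun u _ => acc_nu_mono hw Finset.inter_subset_right)
    have h3 : nu w (M ∪ J) ≤ 11 / 10 := by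
      have h4 : nu w (M ∪ J) ≤ nu w (cn G z) := by
        apply acc_nu_mono hw
        rw [← hXe]; exact Finset.sdiff_subset
      have hβ' : β ≤ 1 / 100 := h.βsm.trans (by norm_num)
      have := h.cls z
      linarith
    have hη0 : 0 ≤ η := by rw [h.hη]; positivity
    have h5 : 3 * η * nu w (M ∪ J) ≤ 3 * η * (11 / 10) :=
      mul_le_mul_of_nonneg_left h3 (by linarith)
    rw [hee] at hmain
    linarith

theorem acc_core {G : SimpleGraph V} {w : V → ℝ} {w0 β η : ℝ} {C0 : ℕ} (h : NG G w w0 β η C0)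
    {Gd : Finset V} {H : Bool → Finset V} {z : V} (hH : Spl G w (1 / 1000) z H)
    (hT : nu w (cn G z \ Gd) ≤ 1 / 10 ^ 39) {M : Bool → Finset V}
    (hself : ∀ i, z ∈ M i) (hadj : ∀ i, ∀ u ∈ M i, ∀ v ∈ M i, u ≠ v → G.Adj u v)
    (hsub : ∀ i, M i ⊆ cn G z) (hhalf : ∀ i, H i ∩ Gd ⊆ M i)
    (hinter : M true ∩ M false = {z})
    (hcon : ∀ i, ∀ x ∈ Gd, x ∉ M i → nu w (cn G x ∩ M i) ≤ 20 / 1000) :
    nu w (cn G z \ (M true ∪ M false)) ≤ 40 / 10 ^ 39 := by
  have hw : ∀ v, 0 ≤ w v := fun v => le_trans (by have := h.w0pos; positivity) (h.wlo v)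
  have hβ0 : 0 ≤ β := h.w0pos.le.trans h.w0β
  have hβ1 : β ≤ 1 / 10 ^ 39 := h.βsm.trans (by norm_num)
  set J : Finset V := cn G z \ (M true ∪ M false) with hJdef
  obtain ⟨e1, he1, h1⟩ := acc_side h hw (hself true) hinter (hsub true) hJdef (hadj false)
    (hcon true) hT
  have hinter' : M false ∩ M true = {z} := by rw [Finset.inter_comm]; exact hinter
  have hJdef' : J = cn G z \ (M false ∪ M true) := by rw [hJdef, Finset.union_comm]
  obtain ⟨e2, he2, h2⟩ := acc_side h hw (hself false) hinter' (hsub false) hJdef' (hadj true)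
    (hcon false) hT
  have hmass : ∀ i, 49 / 100 + 8 / 1000 ≤ nu w (H i ∩ Gd) := by
    intro i
    have h3 : nu w (H i) = nu w (H i ∩ Gd) + nu w (H i \ Gd) := by
      unfold nu
      exact (Finset.sum_inter_add_sum_sdiff (H i) Gd w).symm
    have h4 : nu w (H i \ Gd) ≤ 1 / 10 ^ 39 :=
      (acc_nu_mono hw (Finset.sdiff_subset_sdiff (hH.sub i) (Finset.Subset.refl _))).trans hT
    have h5 := hH.lo i
    have h6 : (1 : ℝ) / 10 ^ 39 ≤ 1 / 10000 := by norm_num
    linarith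
  have hMlo : ∀ i, 49 / 100 ≤ nu w (M i) := by
    intro i
    have := hmass i
    have := acc_nu_mono hw (hhalf i)
    linarith
  -- the total mass
  have hz2 : M true ∪ (M false \ {z}) ⊆ cn G z := by
    apply Finset.union_subset (hsub true)
    exact Finset.sdiff_subset.trans (hsub false)
  have hd1 : Disjoint (M true) (M false \ {z}) := by
    rw [Finset.disjoint_left]
    intro x hx hx'
    rw [Finset.mem_sdiff, Finset.mem_singleton] at hx'
    have : x ∈ M true ∩ M false := Finset.mem_inter.2 ⟨hx, hx'.1⟩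
    rw [hinter, Finset.mem_singleton] at this
    exact hx'.2 this
  have hU : M true ∪ (M false \ {z}) = M true ∪ M false := by
    ext x
    simp only [Finset.mem_union, Finset.mem_sdiff, Finset.mem_singleton]
    constructor
    · tauto
    · rintro (hx | hx)
      · exact Or.inl hx
      · by_cases hxz : x = z
        · exact Or.inl (hxz ▸ hself true)
        · exact Or.inr ⟨hx, hxz⟩
  have hcn : nu w (cn G z) = nu w (M true) + nu w (M false \ {z}) + nu w J := by
    rw [← acc_nu_union hd1, hU, ← acc_nu_union Finset.disjoint_sdiff]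
    congr 1
    rw [Finset.union_sdiff_of_subset]
    rw [← hU]; exact hz2
  have hMz : nu w (M false) = nu w (M false \ {z}) + w z := by
    unfold nu
    rw [Finset.sdiff_singleton_eq_erase, Finset.sum_erase_add _ _ (hself false)]
  have hsum : nu w (M true) + nu w (M false) + nu w J ≤ 1 + 3 * β := by
    have := h.cls z
    have := h.whi z
    linarith
  have hJ3 : nu w J ≤ 3 / 1000 := by
    have h3 : nu w (H true ∩ Gd) + nu w (H false ∩ Gd) + nu w J ≤ nu w (cn G z) := by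
      rw [← acc_nu_union, ← acc_nu_union]
      · apply acc_nu_mono hw
        apply Finset.union_subset
        · apply Finset.union_subset
          · exact Finset.inter_subset_left.trans (hH.sub true)
          · exact Finset.inter_subset_left.trans (hH.sub false)
        · exact Finset.sdiff_subset
      · rw [Finset.disjoint_left]
        intro x hx hx'
        rw [hJdef, Finset.mem_sdiff, Finset.mem_union] at hx'
        rw [Finset.mem_union] at hx
        rcases hx with hx | hx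
        · exact hx'.2 (Or.inl (hhalf true hx))
        · exact hx'.2 (Or.inr (hhalf false hx))
      · exact Finset.disjoint_of_subset_left Finset.inter_subset_left
          (Finset.disjoint_of_subset_right Finset.inter_subset_left hH.disj)
    have h4 : ∀ i, 1 / 2 - 1 / 1000 - 1 / 10 ^ 39 ≤ nu w (H i ∩ Gd) := by
      intro i
      have h3 : nu w (H i) = nu w (H i ∩ Gd) + nu w (H i \ Gd) := by
        unfold nu
        exact (Finset.sum_inter_add_sum_sdiff (H i) Gd w).symm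
      have h4 : nu w (H i \ Gd) ≤ 1 / 10 ^ 39 :=
        (acc_nu_mono hw (Finset.sdiff_subset_sdiff (hH.sub i) (Finset.Subset.refl _))).trans hT
      have h5 := hH.lo i
      linarith
    have h5 := h.cls z
    have h6 := h4 true
    have h7 := h4 false
    have h8 : (1 : ℝ) / 10 ^ 39 ≤ 1 / 10000 := by norm_num
    linarith
  exact acc_num (acc_nu_nonneg hw J) hJ3 rfl h.hη h.βsm (hMlo true) (hMlo false) hsum
    he1 he2 h1 h2

end Pool.Agent.Lib.MP_4d044e_co.TX
end

section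
/-! Basic lemmas on `nu`, `ee`, `cn`. -/
set_option autoImplicit false
set_option linter.unusedSectionVars false

namespace Pool.Agent.Lib.MP_4d044e_co.TX

open Pool.Agent.Lib.MP_4d044e_co.TW

open Finset
open scoped Classical

variable {V : Type} [Fintype V] [DecidableEq V]

/-! ### neighbourhoods -/

theorem mem_nbr {G : SimpleGraph V} {u v : V} : u ∈ nbr G v ↔ G.Adj v u := by
  simp [nbr]

theorem mem_cn {G : SimpleGraph V} {u v : V} : u ∈ cn G v ↔ u = v ∨ G.Adj v u := by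
  simp [cn, mem_nbr]

theorem self_mem_cn (G : SimpleGraph V) (v : V) : v ∈ cn G v := by
  simp [cn]

theorem mem_cn_comm {G : SimpleGraph V} {u v : V} : u ∈ cn G v ↔ v ∈ cn G u := by
  rw [mem_cn, mem_cn]
  constructor
  · rintro (h | h)
    · exact Or.inl h.symm
    · exact Or.inr h.symm
  · rintro (h | h)
    · exact Or.inl h.symm
    · exact Or.inr h.symm

theorem mem_cN {G : SimpleGraph V} {T : Finset V} {u : V} :
    u ∈ cN G T ↔ ∃ t ∈ T, u ∈ cn G t := by
  simp [cN]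

theorem nbr_subset_cn (G : SimpleGraph V) (v : V) : nbr G v ⊆ cn G v := by
  intro u hu; rw [cn]; exact mem_insert_of_mem hu

theorem not_mem_nbr_self (G : SimpleGraph V) (v : V) : v ∉ nbr G v := by
  simp [mem_nbr]

/-! ### nu -/

section nu
variable {w : V → ℝ} (hw : ∀ v, 0 ≤ w v)

theorem nu_empty : nu w ∅ = 0 := by simp [nu]

theorem nu_singleton (v : V) : nu w {v} = w v := by simp [nu]

include hw in
theorem nu_nonneg (X : Finset V) : 0 ≤ nu w X := sum_nonneg fun v _ => hw v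

include hw in
theorem nu_mono {X Y : Finset V} (h : X ⊆ Y) : nu w X ≤ nu w Y :=
  sum_le_sum_of_subset_of_nonneg h fun v _ _ => hw v

include hw in
theorem nu_union_le (X Y : Finset V) : nu w (X ∪ Y) ≤ nu w X + nu w Y := by
  have := sum_union_inter (s₁ := X) (s₂ := Y) (f := w)
  have h2 := nu_nonneg hw (X ∩ Y)
  unfold nu at *
  linarith

theorem nu_union_of_disjoint {X Y : Finset V} (h : Disjoint X Y) :
    nu w (X ∪ Y) = nu w X + nu w Y := sum_union h

theorem nu_inter_add_sdiff (X Y : Finset V) : nu w (X ∩ Y) + nu w (X \ Y) = nu w X :=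
  sum_inter_add_sum_sdiff X Y w

theorem nu_sdiff_of_subset {X Y : Finset V} (h : Y ⊆ X) : nu w (X \ Y) = nu w X - nu w Y := by
  have := nu_inter_add_sdiff (w := w) X Y
  rw [inter_eq_right.mpr h] at this
  linarith

include hw in
theorem nu_insert_le (v : V) (X : Finset V) : nu w (insert v X) ≤ w v + nu w X := by
  rw [insert_eq]
  calc nu w ({v} ∪ X) ≤ nu w {v} + nu w X := nu_union_le hw _ _
    _ = _ := by rw [nu_singleton]

include hw in
theorem nu_le_of_subset_union {X Y Z : Finset V} (h : X ⊆ Y ∪ Z) :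
    nu w X ≤ nu w Y + nu w Z :=
  (nu_mono hw h).trans (nu_union_le hw Y Z)

include hw in
/-- triangle inequality for differences -/
theorem nu_sdiff_le (X Y Z : Finset V) : nu w (X \ Z) ≤ nu w (X \ Y) + nu w (Y \ Z) := by
  apply nu_le_of_subset_union hw
  intro v hv
  simp only [mem_sdiff, mem_union] at *
  tauto

include hw in
/-- if `nu X > sum of the masses`, then there is an element outside -/
theorem exists_mem_of_nu_pos {X : Finset V} (h : 0 < nu w X) : ∃ v ∈ X, 0 < w v := by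
  by_contra hcon
  push Not at hcon
  have : nu w X ≤ 0 := sum_nonpos fun v hv => hcon v hv
  linarith

end nu

/-! ### ee -/

section ee
variable {G : SimpleGraph V} {w : V → ℝ} (hw : ∀ v, 0 ≤ w v)

theorem ee_eq (X Y : Finset V) : ee G w X Y = ∑ u ∈ X, w u * nu w (nbr G u ∩ Y) := by
  unfold ee nu
  apply sum_congr rfl
  intro u _
  rw [mul_sum, nbr, filter_inter, univ_inter, sum_filter]

theorem ee_comm (X Y : Finset V) : ee G w X Y = ee G w Y X := by
  unfold ee
  rw [sum_comm]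
  apply sum_congr rfl; intro u _
  apply sum_congr rfl; intro v _
  by_cases h : G.Adj u v
  · rw [if_pos h, if_pos h.symm, mul_comm]
  · rw [if_neg h, if_neg (fun h' => h h'.symm)]

include hw in
theorem ee_nonneg (X Y : Finset V) : 0 ≤ ee G w X Y := by
  unfold ee
  refine sum_nonneg fun u _ => sum_nonneg fun v _ => ?_
  split_ifs
  · exact mul_nonneg (hw u) (hw v)
  · exact le_rfl

include hw in
theorem ee_mono {X X' Y Y' : Finset V} (hX : X ⊆ X') (hY : Y ⊆ Y') :
    ee G w X Y ≤ ee G w X' Y' := by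
  rw [ee_eq, ee_eq]
  calc ∑ u ∈ X, w u * nu w (nbr G u ∩ Y) ≤ ∑ u ∈ X, w u * nu w (nbr G u ∩ Y') :=
        sum_le_sum fun u _ => mul_le_mul_of_nonneg_left
          (nu_mono hw (inter_subset_inter_left hY)) (hw u)
    _ ≤ _ := sum_le_sum_of_subset_of_nonneg hX fun u _ _ =>
        mul_nonneg (hw u) (nu_nonneg hw _)

theorem ee_union_left {X X' : Finset V} (Y : Finset V) (h : Disjoint X X') :
    ee G w (X ∪ X') Y = ee G w X Y + ee G w X' Y := by
  unfold ee
  rw [sum_union h]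

include hw in
theorem ee_union_left_le (X X' Y : Finset V) :
    ee G w (X ∪ X') Y ≤ ee G w X Y + ee G w X' Y := by
  rw [ee_eq, ee_eq, ee_eq]
  have := sum_union_inter (s₁ := X) (s₂ := X') (f := fun u => w u * nu w (nbr G u ∩ Y))
  have h2 : 0 ≤ ∑ u ∈ X ∩ X', w u * nu w (nbr G u ∩ Y) :=
    sum_nonneg fun u _ => mul_nonneg (hw u) (nu_nonneg hw _)
  linarith

include hw in
theorem ee_union_right_le (X Y Y' : Finset V) :
    ee G w X (Y ∪ Y') ≤ ee G w X Y + ee G w X Y' := by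
  rw [ee_comm, ee_comm X Y, ee_comm X Y']
  exact ee_union_left_le hw _ _ _

include hw in
/-- `e(X ∪ D) ≤ e(X) + 2 e(D, X ∪ D)` -/
theorem ee_union_self_le (X D : Finset V) :
    ee G w (X ∪ D) (X ∪ D) ≤ ee G w X X + 2 * ee G w D (X ∪ D) := by
  have h1 := ee_union_left_le (G := G) hw X D (X ∪ D)
  have h2 := ee_union_right_le (G := G) hw X X D
  have h3 : ee G w X D ≤ ee G w D (X ∪ D) := by
    rw [ee_comm]
    exact ee_mono hw (Subset.refl _) subset_union_left
  linarith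

include hw in
theorem ee_le_nu_mul_nu (X Y : Finset V) : ee G w X Y ≤ nu w X * nu w Y := by
  rw [ee_eq]
  calc ∑ u ∈ X, w u * nu w (nbr G u ∩ Y) ≤ ∑ u ∈ X, w u * nu w Y :=
        sum_le_sum fun u _ => mul_le_mul_of_nonneg_left (nu_mono hw inter_subset_right) (hw u)
    _ = _ := by rw [← sum_mul]; rfl

include hw in
theorem ee_le_of_contact (X Y : Finset V) (t : ℝ) (h : ∀ u ∈ X, nu w (nbr G u ∩ Y) ≤ t) :
    ee G w X Y ≤ nu w X * t := by
  rw [ee_eq]
  calc ∑ u ∈ X, w u * nu w (nbr G u ∩ Y) ≤ ∑ u ∈ X, w u * t :=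
        sum_le_sum fun u hu => mul_le_mul_of_nonneg_left (h u hu) (hw u)
    _ = _ := by rw [← sum_mul]; rfl

end ee

/-! ### miss -/

section miss
variable {G : SimpleGraph V} {w : V → ℝ} (hw : ∀ v, 0 ≤ w v)

include hw in
theorem miss_nonneg (Q : Finset V) : 0 ≤ miss G w Q := by
  unfold miss
  refine sum_nonneg fun u _ => sum_nonneg fun v _ => ?_
  split_ifs
  · exact mul_nonneg (hw u) (hw v)
  · exact le_rfl

theorem miss_clique {Q : Finset V} (h : ∀ u ∈ Q, ∀ v ∈ Q, u ≠ v → G.Adj u v) :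
    miss G w Q = 0 := by
  unfold miss
  refine sum_eq_zero fun u hu => sum_eq_zero fun v hv => ?_
  rw [if_neg]
  rintro ⟨h1, h2⟩
  exact h2 (h u hu v hv h1)

theorem miss_eq (Q : Finset V) : miss G w Q = ∑ u ∈ Q, w u * nu w (Q \ cn G u) := by
  unfold miss nu
  apply sum_congr rfl
  intro u _
  rw [mul_sum, sdiff_eq_filter, sum_filter]
  apply sum_congr rfl
  intro v _
  have : (u ≠ v ∧ ¬ G.Adj u v) ↔ v ∉ cn G u := by
    rw [mem_cn]; push Not
    constructor
    · rintro ⟨h1, h2⟩; exact ⟨h1.symm, h2⟩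
    · rintro ⟨h1, h2⟩; exact ⟨h1.symm, h2⟩
  by_cases h : v ∉ cn G u
  · rw [if_pos (this.mpr h), if_pos h]
  · rw [if_neg (fun h' => h (this.mp h')), if_neg h]

include hw in
theorem miss_mono {Q Q' : Finset V} (h : Q ⊆ Q') : miss G w Q ≤ miss G w Q' := by
  rw [miss_eq, miss_eq]
  calc ∑ u ∈ Q, w u * nu w (Q \ cn G u) ≤ ∑ u ∈ Q, w u * nu w (Q' \ cn G u) :=
        sum_le_sum fun u _ => mul_le_mul_of_nonneg_left
          (nu_mono hw (sdiff_subset_sdiff h (Subset.refl _))) (hw u)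
    _ ≤ _ := sum_le_sum_of_subset_of_nonneg h fun u _ _ =>
        mul_nonneg (hw u) (nu_nonneg hw _)

include hw in
theorem miss_le_of_inn (Q : Finset V) (t : ℝ) (h : ∀ u ∈ Q, nu w (Q \ cn G u) ≤ t) :
    miss G w Q ≤ nu w Q * t := by
  rw [miss_eq]
  calc ∑ u ∈ Q, w u * nu w (Q \ cn G u) ≤ ∑ u ∈ Q, w u * t :=
        sum_le_sum fun u hu => mul_le_mul_of_nonneg_left (h u hu) (hw u)
    _ = _ := by rw [← sum_mul]; rfl

include hw in
/-- `miss (Q ∪ D) ≤ miss Q + 2 nu D nu (Q ∪ D)` -/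
theorem miss_union_le (Q D : Finset V) :
    miss G w (Q ∪ D) ≤ miss G w Q + 2 * (nu w D * nu w (Q ∪ D)) := by
  have key : ∀ X Y : Finset V, (∑ u ∈ X, ∑ v ∈ Y, if u ≠ v ∧ ¬ G.Adj u v then w u * w v else 0)
      ≤ nu w X * nu w Y := by
    intro X Y
    unfold nu
    rw [sum_mul_sum]
    refine sum_le_sum fun u _ => sum_le_sum fun v _ => ?_
    split_ifs
    · exact le_rfl
    · exact mul_nonneg (hw u) (hw v)
  have hsplit : ∀ f : V → ℝ, (∀ v, 0 ≤ f v) → ∑ v ∈ Q ∪ D, f v ≤ ∑ v ∈ Q, f v + ∑ v ∈ D, f v := by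
    intro f hf
    have h1 := sum_union_inter (s₁ := Q) (s₂ := D) (f := f)
    have h2 : 0 ≤ ∑ v ∈ Q ∩ D, f v := sum_nonneg fun v _ => hf v
    linarith
  have hnn : ∀ u v : V, 0 ≤ (if u ≠ v ∧ ¬ G.Adj u v then w u * w v else 0) := by
    intro u v
    split_ifs
    · exact mul_nonneg (hw u) (hw v)
    · exact le_rfl
  have h1 : miss G w (Q ∪ D) ≤ (∑ u ∈ Q, ∑ v ∈ Q ∪ D, if u ≠ v ∧ ¬ G.Adj u v then w u * w v else 0)
      + (∑ u ∈ D, ∑ v ∈ Q ∪ D, if u ≠ v ∧ ¬ G.Adj u v then w u * w v else 0) := by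
    unfold miss
    exact hsplit _ fun u => sum_nonneg fun v _ => hnn u v
  have h2 : (∑ u ∈ Q, ∑ v ∈ Q ∪ D, if u ≠ v ∧ ¬ G.Adj u v then w u * w v else 0)
      ≤ miss G w Q + ∑ u ∈ Q, ∑ v ∈ D, if u ≠ v ∧ ¬ G.Adj u v then w u * w v else 0 := by
    unfold miss
    rw [← sum_add_distrib]
    exact sum_le_sum fun u _ => hsplit _ fun v => hnn u v
  have h3 := key Q D
  have h4 := key D (Q ∪ D)
  have h5 : nu w Q * nu w D ≤ nu w D * nu w (Q ∪ D) := by
    rw [mul_comm]
    exact mul_le_mul_of_nonneg_left (nu_mono hw subset_union_left) (nu_nonneg hw _)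
  linarith

end miss

/-! ### facts from NG -/

section ng
variable {G : SimpleGraph V} {w : V → ℝ} {w0 β η : ℝ} {C0 : ℕ}

theorem NG.wpos (h : NG G w w0 β η C0) (v : V) : 0 < w v := by
  have h1 := h.wlo v
  have h2 := h.w0pos
  have : 0 < w0 * (99 / 100) := by positivity
  linarith

theorem NG.wnn (h : NG G w w0 β η C0) (v : V) : 0 ≤ w v := (h.wpos v).le

theorem NG.βpos (h : NG G w w0 β η C0) : 0 < β := lt_of_lt_of_le h.w0pos h.w0β

theorem NG.nbr_le (h : NG G w w0 β η C0) (v : V) : nu w (nbr G v) ≤ 1 + 2 * β :=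
  (nu_mono h.wnn (nbr_subset_cn G v)).trans (h.cls v)

/-- `e(X, Y) ≤ nu X (1 + 2 β)` -/
theorem NG.ee_le (h : NG G w w0 β η C0) (X Y : Finset V) :
    ee G w X Y ≤ nu w X * (1 + 2 * β) :=
  ee_le_of_contact h.wnn X Y _ fun u _ =>
    (nu_mono h.wnn inter_subset_left).trans (h.nbr_le u)

/-- `e(X) ≤ e(X') + 2 (1 + 2β) nu(X - X')` for `X' ⊆ X` -/
theorem NG.ee_sub_le (h : NG G w w0 β η C0) {X X' : Finset V} (hX : X' ⊆ X) :
    ee G w X X ≤ ee G w X' X' + 2 * (nu w (X \ X') * (1 + 2 * β)) := by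
  have h1 := ee_union_self_le (G := G) h.wnn X' (X \ X')
  rw [union_sdiff_of_subset hX] at h1
  have h2 := h.ee_le (X \ X') X
  linarith

end ng

end Pool.Agent.Lib.MP_4d044e_co.TX
end

section
/-! Consistency of near-cliques with the halves of a split vertex. -/
set_option autoImplicit false
set_option linter.unusedSectionVars false

namespace Pool.Agent.Lib.MP_4d044e_co.TX

open Pool.Agent.Lib.MP_4d044e_co.TW

open Finset
open scoped Classical

variable {V : Type} [Fintype V] [DecidableEq V]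

theorem NG.β_small {G : SimpleGraph V} {w : V → ℝ} {w0 β η : ℝ} {C0 : ℕ}
    (h : NG G w w0 β η C0) : β ≤ 1 / 10 ^ 6 := by
  refine h.βsm.trans ?_
  norm_num

theorem NG.cls' {G : SimpleGraph V} {w : V → ℝ} {w0 β η : ℝ} {C0 : ℕ}
    (h : NG G w w0 β η C0) (v : V) : nu w (cn G v) ≤ 1 + 2 / 10 ^ 6 := by
  have := h.cls v
  have h2 := h.β_small
  linarith

/-- the rest of the neighbourhood outside both halves -/
theorem spl_rest {G : SimpleGraph V} {w : V → ℝ} {w0 β η : ℝ} {C0 : ℕ}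
    (h : NG G w w0 β η C0) {y : V} {Y : Bool → Finset V} (hY : Spl G w (1 / 1000) y Y) :
    nu w (cn G y \ (Y true ∪ Y false)) ≤ 21 / 10000 := by
  have hsub : Y true ∪ Y false ⊆ cn G y := union_subset (hY.sub true) (hY.sub false)
  rw [nu_sdiff_of_subset hsub, nu_union_of_disjoint hY.disj]
  have h1 := hY.lo true
  have h2 := hY.lo false
  have h3 := h.cls' y
  norm_num at *
  linarith

theorem Spl.nc {G : SimpleGraph V} {w : V → ℝ} {ε : ℝ} {y : V} {Y : Bool → Finset V}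
    (hY : Spl G w ε y Y) (i : Bool) : NC G w ε (Y i) :=
  ⟨hY.lo i, hY.hi i, hY.inn i⟩

theorem cons {G : SimpleGraph V} {w : V → ℝ} {w0 β η : ℝ} {C0 : ℕ} (h : NG G w w0 β η C0)
    {y : V} {Y : Bool → Finset V} {Z : Finset V} (hY : Spl G w (1 / 1000) y Y)
    (hZ : NC G w (1 / 1000) Z) (hZy : nu w (Z \ cn G y) ≤ 1 / 1000) :
    ∃ i, Z ∩ Y (!i) = ∅ ∧ nu w (Z \ Y i) ≤ 4 / 1000 ∧ nu w (Y i \ Z) ≤ 6 / 1000 := by
  have hJ := spl_rest h hY
  have hnn := h.wnn
  have key : ∀ i, (Z ∩ Y i).Nonempty → nu w (Z ∩ Y (!i)) ≤ 2 / 1000 := by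
    rintro i ⟨u, hu⟩
    rw [mem_inter] at hu
    have h1 : Z ∩ Y (!i) ⊆ (cn G u ∩ Y (!i)) ∪ (Z \ cn G u) := by
      intro v hv
      simp only [mem_inter, mem_union, mem_sdiff] at *
      tauto
    have h2 := nu_le_of_subset_union hnn h1
    have h3 := hY.cross i u hu.2
    have h4 := hZ.inn u hu.1
    linarith
  have hcover : nu w Z ≤ nu w (Z ∩ Y true) + nu w (Z ∩ Y false)
      + nu w (cn G y \ (Y true ∪ Y false)) + nu w (Z \ cn G y) := by
    have h1 : Z ⊆ ((Z ∩ Y true) ∪ (Z ∩ Y false)) ∪ ((cn G y \ (Y true ∪ Y false)) ∪ (Z \ cn G y)) := by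
      intro v hv
      simp only [mem_inter, mem_union, mem_sdiff]
      tauto
    have h2 := nu_le_of_subset_union hnn h1
    have h3 := nu_union_le hnn (Z ∩ Y true) (Z ∩ Y false)
    have h4 := nu_union_le hnn (cn G y \ (Y true ∪ Y false)) (Z \ cn G y)
    linarith
  have hlo := hZ.lo
  have hex : ∃ i, Z ∩ Y (!i) = ∅ := by
    by_cases h1 : (Z ∩ Y false) = ∅
    · exact ⟨true, h1⟩
    · refine ⟨false, ?_⟩
      by_contra h2
      have h3 := key false (nonempty_iff_ne_empty.mpr h1)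
      have h4 := key true (nonempty_iff_ne_empty.mpr h2)
      simp only [Bool.not_false, Bool.not_true] at h3 h4
      linarith
  obtain ⟨i, hi⟩ := hex
  have hZi : nu w (Z \ Y i) ≤ 4 / 1000 := by
    have h1 : Z \ Y i ⊆ (cn G y \ (Y true ∪ Y false)) ∪ (Z \ cn G y) := by
      intro v hv
      have h5 : v ∉ Z ∩ Y (!i) := by rw [hi]; simp
      cases i <;> simp only [mem_inter, mem_union, mem_sdiff, Bool.not_true, Bool.not_false] at * <;> tauto
    have h2 := nu_le_of_subset_union hnn h1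
    linarith
  refine ⟨i, hi, hZi, ?_⟩
  have h1 := nu_inter_add_sdiff (w := w) (Y i) Z
  have h2 := nu_inter_add_sdiff (w := w) Z (Y i)
  rw [inter_comm] at h2
  have h3 := hY.hi i
  linarith

end Pool.Agent.Lib.MP_4d044e_co.TX
end

section
/-! Clusters of the type 2 vertices: exact cliques, pairwise at most one common vertex. -/
set_option autoImplicit false
set_option linter.unusedSectionVars false

namespace Pool.Agent.Lib.MP_4d044e_co.TX

open Pool.Agent.Lib.MP_4d044e_co.TW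

open Finset
open scoped Classical

variable {V : Type} [Fintype V] [DecidableEq V]

section clu
variable {G : SimpleGraph V} {w : V → ℝ} {w0 β η : ℝ} {C0 : ℕ} (h : NG G w w0 β η C0)
  {Gd : Finset V} {H : V → Bool → Finset V} (hH : ∀ v ∈ Gd, Spl G w (1 / 1000) v (H v))
  {z z' x : V} (hz : T2 G w Gd (1 / 10 ^ 39) z) (hz' : T2 G w Gd (1 / 10 ^ 39) z')

/-- overlap from small difference -/
theorem overlap_of_sdiff {X Y : Finset V} {a b : ℝ} (hX : a ≤ nu w X) (hXY : nu w (X \ Y) ≤ b) :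
    a - b ≤ nu w (X ∩ Y) := by
  have := nu_inter_add_sdiff (w := w) X Y
  linarith

include h hH

/-- zero-one law -/
theorem clu_zo (hz : T2 G w Gd (1 / 10 ^ 39) z) {a i : Bool} (hx : x ∈ Gd)
    (ho : 5 / 1000 ≤ nu w (H x a ∩ H z i)) :
    nu w (H x a \ H z i) ≤ 10 / 1000 ∧ nu w (H z i \ H x a) ≤ 10 / 1000 := by
  have hnn := h.wnn
  have hsx := hH x hx
  have hsz := hH z hz.1
  -- a good vertex in the intersection
  have h1 : ∃ x' ∈ H x a ∩ H z i, x' ∈ Gd := by
    by_contra hcon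
    push Not at hcon
    have h2 : H x a ∩ H z i ⊆ cn G z \ Gd := by
      intro v hv
      rw [mem_sdiff]
      exact ⟨hsz.sub i (mem_inter.mp hv).2, hcon v hv⟩
    have h3 := nu_mono hnn h2
    have h4 := hz.2
    norm_num at *
    linarith
  obtain ⟨x', hx', hxG⟩ := h1
  rw [mem_inter] at hx'
  have hs' := hH x' hxG
  obtain ⟨b, hb1, hb2, hb3⟩ := cons h hs' (Spl.nc hsx a) (hsx.inn a x' hx'.1)
  obtain ⟨b', hb1', hb2', hb3'⟩ := cons h hs' (Spl.nc hsz i) (hsz.inn i x' hx'.2)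
  have hbb : b = b' := by
    by_contra hne
    have hb' : (!b) = b' := by
      cases b <;> cases b' <;> simp_all
    rw [hb'] at hb1
    have h2 : H x a ∩ H z i ⊆ H z i \ H x' b' := by
      intro v hv
      rw [mem_inter] at hv
      rw [mem_sdiff]
      refine ⟨hv.2, fun hv' => ?_⟩
      have : v ∈ H x a ∩ H x' b' := mem_inter.mpr ⟨hv.1, hv'⟩
      rw [hb1] at this
      simp at this
    have h3 := nu_mono hnn h2
    linarith
  subst hbb
  constructor
  · have := nu_sdiff_le hnn (H x a) (H x' b) (H z i)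
    linarith
  · have := nu_sdiff_le hnn (H z i) (H x' b) (H x a)
    linarith

theorem clu_zo4 (hz : T2 G w Gd (1 / 10 ^ 39) z) {a i : Bool} (hx : x ∈ Gd)
    (ho : 1 / 4 ≤ nu w (H x a ∩ H z i)) :
    nu w (H x a \ H z i) ≤ 10 / 1000 ∧ nu w (H z i \ H x a) ≤ 10 / 1000 :=
  clu_zo h hH hz hx (by linarith)

theorem clu_dbl {x x' : V} {a a' : Bool} (hx : x ∈ Gd) (hx' : x' ∈ Gd) (hadj : G.Adj x x')
    (h1 : nu w (H x' a' \ H x a) ≤ 20 / 1000) (h2 : nu w (H x' (!a') \ H x (!a)) ≤ 20 / 1000) :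
    False := by
  have hnn := h.wnn
  have hs := hH x hx
  have hs' := hH x' hx'
  have hη := h.hη
  have hη0 : η ≤ 1 / 10 ^ 6 := by rw [hη]; norm_num
  have hη1 : 0 ≤ η := by rw [hη]; norm_num
  have hβ := h.β_small
  set J := cn G x \ (H x true ∪ H x false) with hJ
  set J' := cn G x' \ (H x' true ∪ H x' false) with hJ'
  have hJn := spl_rest h hs
  have hJn' := spl_rest h hs'
  set X : Finset V := (H x a ∪ (H x' a' \ H x a)) ∪ ((J ∪ J') ∪ ({x} ∪ {x'})) with hX
  have hXn : nu w X ≤ 528 / 1000 := by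
    have e1 := nu_union_le hnn (H x a ∪ (H x' a' \ H x a)) ((J ∪ J') ∪ ({x} ∪ {x'}))
    have e2 := nu_union_le hnn (H x a) (H x' a' \ H x a)
    have e3 := nu_union_le hnn (J ∪ J') ({x} ∪ {x'})
    have e4 := nu_union_le hnn J J'
    have e5 := nu_union_le hnn ({x} : Finset V) {x'}
    rw [nu_singleton, nu_singleton] at e5
    have e6 := h.whi x
    have e7 := h.whi x'
    have e8 := hs.hi a
    linarith
  have hX0 := nu_nonneg hnn X
  have hcov : (nbr G x ∪ nbr G x') \ X ⊆ H x (!a) ∪ (H x' (!a') \ H x (!a)) := by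
    intro v hv
    rw [mem_sdiff, mem_union] at hv
    obtain ⟨hv1, hv2⟩ := hv
    have hn1 : v ∉ H x a := fun hc => hv2 (by rw [hX]; simp [hc])
    have hn2 : v ∉ H x' a' := fun hc => hv2 (by rw [hX]; simp [hc, hn1])
    have hn3 : v ∉ J := fun hc => hv2 (by rw [hX]; simp only [mem_union]; tauto)
    have hn4 : v ∉ J' := fun hc => hv2 (by rw [hX]; simp only [mem_union]; tauto)
    rw [mem_union, mem_sdiff]
    rcases hv1 with hv1 | hv1
    · left
      have hm := nbr_subset_cn G x hv1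
      rw [hJ, mem_sdiff, mem_union] at hn3
      cases a <;> simp only [Bool.not_true, Bool.not_false] <;> tauto
    · have hm := nbr_subset_cn G x' hv1
      rw [hJ', mem_sdiff, mem_union] at hn4
      by_cases hc : v ∈ H x (!a)
      · exact Or.inl hc
      · right
        refine ⟨?_, hc⟩
        cases a' <;> simp only [Bool.not_true, Bool.not_false] <;> tauto
  have hng := h.ng3b x x' X (by rw [hX]; simp) (by rw [hX]; simp) hadj
  have hm1 := miss_mono (G := G) hnn hcov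
  have hm2 := miss_union_le (G := G) hnn (H x (!a)) (H x' (!a') \ H x (!a))
  have hm3 := miss_le_of_inn (G := G) hnn (H x (!a)) (1 / 1000) (hs.inn (!a))
  have hA := hs.hi (!a)
  have hA0 := nu_nonneg hnn (H x (!a))
  have hD0 := nu_nonneg hnn (H x' (!a') \ H x (!a))
  have hU := nu_union_le hnn (H x (!a)) (H x' (!a') \ H x (!a))
  have hU0 := nu_nonneg hnn (H x (!a) ∪ (H x' (!a') \ H x (!a)))
  have hprod : nu w (H x' (!a') \ H x (!a)) * nu w (H x (!a) ∪ (H x' (!a') \ H x (!a)))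
      ≤ 20 / 1000 * (521 / 1000) := by
    apply mul_le_mul h2 (by linarith) hU0 (by norm_num)
  have he := ee_le_nu_mul_nu (G := G) hnn X X
  have he2 : nu w X * nu w X ≤ 528 / 1000 * (528 / 1000) :=
    mul_le_mul hXn hXn hX0 (by norm_num)
  have hmA : nu w (H x (!a)) * (1 / 1000) ≤ 501 / 1000 * (1 / 1000) := by
    apply mul_le_mul_of_nonneg_right _ (by norm_num)
    linarith
  have hηX : 3 * η * nu w X ≤ 3 * (1 / 10 ^ 6) * 1 := by
    apply mul_le_mul _ (by linarith) hX0 (by norm_num)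
    linarith
  norm_num at *
  linarith

theorem clu_self (hz : T2 G w Gd (1 / 10 ^ 39) z) (i : Bool) : z ∈ Mc w H Gd z i := by
  rw [Mc, mem_filter]
  refine ⟨hz.1, i, ?_⟩
  rw [inter_self]
  have := (hH z hz.1).lo i
  linarith

theorem clu_adj (hz : T2 G w Gd (1 / 10 ^ 39) z) (i : Bool) {u v : V}
    (hu : u ∈ Mc w H Gd z i) (hv : v ∈ Mc w H Gd z i)
    (huv : u ≠ v) : G.Adj u v := by
  by_contra hna
  have hnn := h.wnn
  rw [Mc, mem_filter] at hu hv
  obtain ⟨huG, a, ha⟩ := hu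
  obtain ⟨hvG, b, hb⟩ := hv
  have zu := (clu_zo4 h hH hz huG ha).1
  have zv := (clu_zo4 h hH hz hvG hb).1
  have hsu := hH u huG
  have hsv := hH v hvG
  have hη := h.hη
  have hη0 : η ≤ 1 / 10 ^ 6 := by rw [hη]; norm_num
  have hη1 : 0 ≤ η := by rw [hη]; norm_num
  have hβ := h.β_small
  set J := cn G u \ (H u true ∪ H u false) with hJ
  set J' := cn G v \ (H v true ∪ H v false) with hJ'
  have hJn := spl_rest h hsu
  have hJn' := spl_rest h hsv
  set X : Finset V := (H u a ∪ H v b) ∪ ((J ∪ J') ∪ ({u} ∪ {v})) with hX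
  have hab : nu w (H u a ∪ H v b) ≤ 521 / 1000 := by
    have e0 : H u a ∪ H v b ⊆ H z i ∪ ((H u a \ H z i) ∪ (H v b \ H z i)) := by
      intro t ht
      simp only [mem_union, mem_sdiff] at *
      tauto
    have e1 := nu_le_of_subset_union hnn e0
    have e2 := nu_union_le hnn (H u a \ H z i) (H v b \ H z i)
    have e3 := (hH z hz.1).hi i
    linarith
  have hXn : nu w X ≤ 528 / 1000 := by
    have e1 := nu_union_le hnn (H u a ∪ H v b) ((J ∪ J') ∪ ({u} ∪ {v}))
    have e3 := nu_union_le hnn (J ∪ J') ({u} ∪ {v})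
    have e4 := nu_union_le hnn J J'
    have e5 := nu_union_le hnn ({u} : Finset V) {v}
    rw [nu_singleton, nu_singleton] at e5
    have e6 := h.whi u
    have e7 := h.whi v
    linarith
  have hX0 := nu_nonneg hnn X
  have hcu : nbr G u \ X ⊆ H u (!a) := by
    intro t ht
    rw [mem_sdiff] at ht
    obtain ⟨ht1, ht2⟩ := ht
    have hn1 : t ∉ H u a := fun hc => ht2 (by rw [hX]; simp [hc])
    have hn3 : t ∉ J := fun hc => ht2 (by rw [hX]; simp only [mem_union]; tauto)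
    have hm := nbr_subset_cn G u ht1
    rw [hJ, mem_sdiff, mem_union] at hn3
    cases a <;> simp only [Bool.not_true, Bool.not_false] <;> tauto
  have hcv : nbr G v \ X ⊆ H v (!b) := by
    intro t ht
    rw [mem_sdiff] at ht
    obtain ⟨ht1, ht2⟩ := ht
    have hn1 : t ∉ H v b := fun hc => ht2 (by rw [hX]; simp [hc])
    have hn3 : t ∉ J' := fun hc => ht2 (by rw [hX]; simp only [mem_union]; tauto)
    have hm := nbr_subset_cn G v ht1
    rw [hJ', mem_sdiff, mem_union] at hn3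
    cases b <;> simp only [Bool.not_true, Bool.not_false] <;> tauto
  have hng := h.ng3a u v X (by rw [hX]; simp) (by rw [hX]; simp) huv hna
  have hm1 := miss_mono (G := G) hnn hcu
  have hm2 := miss_mono (G := G) hnn hcv
  have hm3 := miss_le_of_inn (G := G) hnn (H u (!a)) (1 / 1000) (hsu.inn (!a))
  have hm4 := miss_le_of_inn (G := G) hnn (H v (!b)) (1 / 1000) (hsv.inn (!b))
  have hA := hsu.hi (!a)
  have hB := hsv.hi (!b)
  have he := ee_le_nu_mul_nu (G := G) hnn X X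
  have he2 : nu w X * nu w X ≤ 528 / 1000 * (528 / 1000) :=
    mul_le_mul hXn hXn hX0 (by norm_num)
  have hmA : nu w (H u (!a)) * (1 / 1000) ≤ 501 / 1000 * (1 / 1000) := by
    apply mul_le_mul_of_nonneg_right _ (by norm_num)
    linarith
  have hmB : nu w (H v (!b)) * (1 / 1000) ≤ 501 / 1000 * (1 / 1000) := by
    apply mul_le_mul_of_nonneg_right _ (by norm_num)
    linarith
  have hηX : 3 * η * nu w X ≤ 3 * (1 / 10 ^ 6) * 1 := by
    apply mul_le_mul _ (by linarith) hX0 (by norm_num)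
    linarith
  norm_num at *
  linarith

theorem clu_sub (hz : T2 G w Gd (1 / 10 ^ 39) z) (i : Bool) : Mc w H Gd z i ⊆ cn G z := by
  intro x hx
  rw [mem_cn]
  by_cases hxz : x = z
  · exact Or.inl hxz
  · exact Or.inr (clu_adj h hH hz i (clu_self h hH hz i) hx (Ne.symm hxz))

theorem clu_half (hz : T2 G w Gd (1 / 10 ^ 39) z) (i : Bool) :
    H z i ∩ Gd ⊆ Mc w H Gd z i := by
  intro x hx
  rw [mem_inter] at hx
  have hsz := hH z hz.1
  obtain ⟨a, _, ha, _⟩ := cons h (hH x hx.2) (Spl.nc hsz i) (hsz.inn i x hx.1)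
  rw [Mc, mem_filter]
  refine ⟨hx.2, a, ?_⟩
  have h1 := overlap_of_sdiff (hsz.lo i) ha
  rw [inter_comm] at h1
  linarith

theorem clu_inter (hz : T2 G w Gd (1 / 10 ^ 39) z) :
    Mc w H Gd z true ∩ Mc w H Gd z false = {z} := by
  have hnn := h.wnn
  ext x
  rw [mem_inter, mem_singleton]
  constructor
  · rintro ⟨h1, h2⟩
    by_contra hxz
    have hadj := clu_adj h hH hz true h1 (clu_self h hH hz true) hxz
    rw [Mc, mem_filter] at h1 h2
    obtain ⟨hxG, a, ha⟩ := h1
    obtain ⟨_, b, hb⟩ := h2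
    have za := clu_zo4 h hH hz hxG ha
    have zb := clu_zo4 h hH hz hxG hb
    have hsz := hH z hz.1
    have hab : b = (!a) := by
      by_contra hne
      have hba : b = a := by cases a <;> cases b <;> simp_all
      rw [hba] at hb
      have h3 : H x a ∩ H z false ⊆ H x a \ H z true := by
        intro v hv
        rw [mem_inter] at hv
        rw [mem_sdiff]
        exact ⟨hv.1, fun hc => (disjoint_left.mp hsz.disj) hc hv.2⟩
      have h4 := nu_mono hnn h3
      linarith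
    rw [hab] at zb
    refine clu_dbl h hH (x := x) (x' := z) (a := a) (a' := true) hxG hz.1 hadj ?_ ?_
    · linarith [za.2]
    · simp only [Bool.not_true]
      linarith [zb.2]
  · rintro rfl
    exact ⟨clu_self h hH hz true, clu_self h hH hz false⟩

theorem clu_eq_sub (hz : T2 G w Gd (1 / 10 ^ 39) z) (hz' : T2 G w Gd (1 / 10 ^ 39) z')
    {i j a : Bool} (hx : x ∈ Gd) (h1 : 1 / 4 ≤ nu w (H x a ∩ H z i))
    (h2 : 1 / 4 ≤ nu w (H x a ∩ H z' j)) : Mc w H Gd z i ⊆ Mc w H Gd z' j := by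
  have hnn := h.wnn
  intro u hu
  rw [Mc, mem_filter] at hu ⊢
  obtain ⟨huG, c, hc⟩ := hu
  refine ⟨huG, c, ?_⟩
  have e1 := (clu_zo4 h hH hz huG hc).1
  have e2 := (clu_zo4 h hH hz hx h1).2
  have e3 := (clu_zo4 h hH hz' hx h2).1
  have e4 := nu_sdiff_le hnn (H u c) (H z i) (H z' j)
  have e5 := nu_sdiff_le hnn (H z i) (H x a) (H z' j)
  have e6 := overlap_of_sdiff ((hH u huG).lo c) (show nu w (H u c \ H z' j) ≤ 30 / 1000 by linarith)
  linarith

theorem clu_eq (hz : T2 G w Gd (1 / 10 ^ 39) z) (hz' : T2 G w Gd (1 / 10 ^ 39) z')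
    {i j a : Bool} (hx : x ∈ Gd) (h1 : 1 / 4 ≤ nu w (H x a ∩ H z i))
    (h2 : 1 / 4 ≤ nu w (H x a ∩ H z' j)) : Mc w H Gd z i = Mc w H Gd z' j :=
  Subset.antisymm (clu_eq_sub h hH hz hz' hx h1 h2) (clu_eq_sub h hH hz' hz hx h2 h1)

theorem clu_card_inter (hz : T2 G w Gd (1 / 10 ^ 39) z) (hz' : T2 G w Gd (1 / 10 ^ 39) z')
    {i j : Bool} (hne : Mc w H Gd z i ≠ Mc w H Gd z' j) :
    (Mc w H Gd z i ∩ Mc w H Gd z' j).card ≤ 1 := by
  have hnn := h.wnn
  rw [card_le_one]
  intro x hx x' hx'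
  by_contra hxx
  rw [mem_inter] at hx hx'
  have hadj := clu_adj h hH hz i hx.1 hx'.1 hxx
  obtain ⟨hx1, hx2⟩ := hx
  obtain ⟨hx1', hx2'⟩ := hx'
  rw [Mc, mem_filter] at hx1 hx2 hx1' hx2'
  obtain ⟨hxG, a, ha⟩ := hx1
  obtain ⟨_, b, hb⟩ := hx2
  obtain ⟨hxG', a', ha'⟩ := hx1'
  obtain ⟨_, b', hb'⟩ := hx2'
  have hab : b = (!a) := by
    by_contra hc
    have hba : b = a := by cases a <;> cases b <;> simp_all
    rw [hba] at hb
    exact hne (clu_eq h hH hz hz' hxG ha hb)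
  have hab' : b' = (!a') := by
    by_contra hc
    have hba : b' = a' := by cases a' <;> cases b' <;> simp_all
    rw [hba] at hb'
    exact hne (clu_eq h hH hz hz' hxG' ha' hb')
  rw [hab] at hb
  rw [hab'] at hb'
  have e1 := (clu_zo4 h hH hz hxG ha).2
  have e2 := (clu_zo4 h hH hz' hxG hb).2
  have e3 := (clu_zo4 h hH hz hxG' ha').1
  have e4 := (clu_zo4 h hH hz' hxG' hb').1
  refine clu_dbl h hH (x := x) (x' := x') (a := a) (a' := a') hxG hxG' hadj ?_ ?_
  · have := nu_sdiff_le hnn (H x' a') (H z i) (H x a)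
    linarith
  · have := nu_sdiff_le hnn (H x' (!a')) (H z' j) (H x (!a))
    linarith

theorem clu_out (hz : T2 G w Gd (1 / 10 ^ 39) z) (i : Bool) :
    nu w (Mc w H Gd z i \ H z i) ≤ 4 / 1000 := by
  have hnn := h.wnn
  have hr := spl_rest h (hH z hz.1)
  have hβ := h.β_small
  have hsub : Mc w H Gd z i \ H z i ⊆ (cn G z \ (H z true ∪ H z false)) ∪ {z} := by
    intro x hx
    rw [mem_sdiff] at hx
    rw [mem_union, mem_singleton, mem_sdiff, mem_union]
    by_cases hxz : x = z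
    · exact Or.inr hxz
    left
    refine ⟨clu_sub h hH hz i hx.1, ?_⟩
    intro hc
    have hxG : x ∈ Gd := by
      have := hx.1
      rw [Mc, mem_filter] at this
      exact this.1
    have hxi : x ∈ H z (!i) := by
      cases i <;> simp only [Bool.not_true, Bool.not_false] <;> tauto
    have h2 := clu_half h hH hz (!i) (mem_inter.mpr ⟨hxi, hxG⟩)
    have h3 : x ∈ Mc w H Gd z true ∩ Mc w H Gd z false := by
      rw [mem_inter]
      cases i <;> simp only [Bool.not_true, Bool.not_false] at * <;> tauto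
    rw [clu_inter h hH hz, mem_singleton] at h3
    exact hxz h3
  have h1 := nu_le_of_subset_union hnn hsub
  rw [nu_singleton] at h1
  have h2 := h.whi z
  norm_num at *
  linarith

theorem clu_contact (hz : T2 G w Gd (1 / 10 ^ 39) z) (i : Bool) (hx : x ∈ Gd)
    (hxn : x ∉ Mc w H Gd z i) :
    nu w (cn G x ∩ Mc w H Gd z i) ≤ 20 / 1000 := by
  have hnn := h.wnn
  have hsx := hH x hx
  have hsmall : ∀ a, nu w (H x a ∩ H z i) ≤ 5 / 1000 := by
    intro a
    by_contra hcon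
    push Not at hcon
    have h1 := (clu_zo h hH hz hx hcon.le).1
    have h2 := overlap_of_sdiff (hsx.lo a) h1
    apply hxn
    rw [Mc, mem_filter]
    exact ⟨hx, a, by linarith⟩
  have hr := spl_rest h hsx
  have hsub : cn G x ∩ Mc w H Gd z i ⊆
      (((H x true ∩ H z i) ∪ (H x false ∩ H z i)) ∪ (cn G x \ (H x true ∪ H x false)))
        ∪ (Mc w H Gd z i \ H z i) := by
    intro v hv
    simp only [mem_inter, mem_union, mem_sdiff] at *
    tauto
  have e1 := nu_le_of_subset_union hnn hsub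
  have e2 := nu_union_le hnn ((H x true ∩ H z i) ∪ (H x false ∩ H z i))
    (cn G x \ (H x true ∪ H x false))
  have e3 := nu_union_le hnn (H x true ∩ H z i) (H x false ∩ H z i)
  have e4 := clu_out h hH hz i
  have e5 := hsmall true
  have e6 := hsmall false
  norm_num at *
  linarith

end clu

end Pool.Agent.Lib.MP_4d044e_co.TX
end

section
/-!
Module ACC (section 7 of the blueprint): the mass of `N[z]` outside the two clusters of a
type 2 vertex `z`.
-/
set_option autoImplicit false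

namespace Pool.Agent.Lib.MP_4d044e_co.TX

open Pool.Agent.Lib.MP_4d044e_co.TW

open Finset
open scoped Classical

variable {V : Type} [Fintype V] [DecidableEq V]

theorem acc {G : SimpleGraph V} {w : V → ℝ} {w0 β η : ℝ} {C0 : ℕ} (h : NG G w w0 β η C0)
    {Gd : Finset V} {H : V → Bool → Finset V} (hH : ∀ v ∈ Gd, Spl G w (1 / 1000) v (H v))
    {z : V} (hz : T2 G w Gd (1 / 10 ^ 39) z) :
    nu w (cn G z \ (Mc w H Gd z true ∪ Mc w H Gd z false)) ≤ 40 / 10 ^ 39 :=
  acc_core h (hH z hz.1) hz.2 (M := Mc w H Gd z) (clu_self h hH hz)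
    (fun i _ hu _ hv huv => clu_adj h hH hz i hu hv huv) (clu_sub h hH hz)
    (clu_half h hH hz) (clu_inter h hH hz) (fun i _ hx hxn => clu_contact h hH hz i hx hxn)

end Pool.Agent.Lib.MP_4d044e_co.TX
end

section
/-!
Module BAD (section 8 of the blueprint): there are no bad vertices.  `bad_core` has the
splitting lemma as a hypothesis.
-/
set_option autoImplicit false
set_option linter.unusedSectionVars false

namespace Pool.Agent.Lib.MP_4d044e_co.TX

open Pool.Agent.Lib.MP_4d044e_co.TW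

open Finset
open scoped Classical

variable {V : Type} [Fintype V] [DecidableEq V]

/-- double counting of closed neighbourhoods -/
theorem bad_sum_comm {G : SimpleGraph V} (w : V → ℝ) (A B : Finset V) :
    (∑ y ∈ A, w y * nu w (cn G y ∩ B)) = ∑ x ∈ B, w x * nu w (cn G x ∩ A) := by
  have e1 : ∀ (A B : Finset V), (∑ y ∈ A, w y * nu w (cn G y ∩ B))
      = ∑ y ∈ A, ∑ x ∈ B, if x ∈ cn G y then w y * w x else 0 := by
    intro A B
    refine sum_congr rfl (fun y _ => ?_)
    rw [nu, mul_sum, inter_comm, ← sum_filter]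
    refine sum_congr ?_ (fun x _ => rfl)
    ext x
    simp only [mem_inter, mem_filter]
  rw [e1, e1, sum_comm]
  refine sum_congr rfl (fun x _ => sum_congr rfl (fun y _ => ?_))
  by_cases hxy : x ∈ cn G y
  · rw [if_pos hxy, if_pos (mem_cn_comm.1 hxy), mul_comm]
  · rw [if_neg hxy, if_neg (fun hh => hxy (mem_cn_comm.1 hh))]

/-- the mass of type 0 and type 1 vertices against the mass of type 0 vertices -/
theorem bad_mass {G : SimpleGraph V} {w : V → ℝ} {w0 β η : ℝ} {C0 : ℕ} (h : NG G w w0 β η C0)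
    (Gd : Finset V) :
    nu w (univ.filter (fun z => ¬ T2 G w Gd (1 / 10 ^ 39) z)) ≤ 2 * 10 ^ 39 * nu w Gdᶜ := by
  have hw := h.wnn
  have hβ : β ≤ 1 / 100 := h.βsm.trans (by norm_num)
  set B1 : Finset V := Gd.filter (fun z => 1 / 10 ^ 39 < nu w (cn G z \ Gd)) with hB1
  have hsub : univ.filter (fun z => ¬ T2 G w Gd (1 / 10 ^ 39) z) ⊆ Gdᶜ ∪ B1 := by
    intro z hz
    rw [mem_filter] at hz
    rw [mem_union, mem_compl]
    by_cases hzG : z ∈ Gd
    · right
      rw [hB1, mem_filter]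
      refine ⟨hzG, ?_⟩
      by_contra hcon
      exact hz.2 ⟨hzG, not_lt.1 hcon⟩
    · exact Or.inl hzG
  have h1 : (1 / 10 ^ 39 : ℝ) * nu w B1 ≤ ∑ z ∈ B1, w z * nu w (cn G z ∩ Gdᶜ) := by
    rw [nu, mul_sum]
    refine sum_le_sum (fun z hz => ?_)
    rw [hB1, mem_filter] at hz
    rw [mul_comm, ← sdiff_eq_inter_compl]
    exact mul_le_mul_of_nonneg_left hz.2.le (hw z)
  rw [bad_sum_comm] at h1
  have h2 : (∑ x ∈ Gdᶜ, w x * nu w (cn G x ∩ B1)) ≤ (11 / 10) * nu w Gdᶜ := by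
    rw [nu, mul_sum]
    refine sum_le_sum (fun x _ => ?_)
    rw [mul_comm]
    refine mul_le_mul_of_nonneg_right ?_ (hw x)
    have := nu_mono hw (inter_subset_left : cn G x ∩ B1 ⊆ cn G x)
    have := h.cls x
    linarith
  have h3 := nu_le_of_subset_union hw hsub
  have h4 : nu w B1 ≤ 10 ^ 39 * ((11 / 10) * nu w Gdᶜ) := by
    have h5 := h1.trans h2
    have h6 : (10 : ℝ) ^ 39 * ((1 / 10 ^ 39 : ℝ) * nu w B1) ≤ 10 ^ 39 * ((11 / 10) * nu w Gdᶜ) :=
      mul_le_mul_of_nonneg_left h5 (by positivity)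
    have h7 : (10 : ℝ) ^ 39 * ((1 / 10 ^ 39 : ℝ) * nu w B1) = nu w B1 := by
      rw [← mul_assoc, mul_one_div_cancel (by positivity), one_mul]
    linarith
  have h8 := nu_nonneg hw Gdᶜ
  have h9 : nu w Gdᶜ ≤ 10 ^ 39 * ((9 / 10) * nu w Gdᶜ) := by
    have : (1 : ℝ) * nu w Gdᶜ ≤ (10 ^ 39 * (9 / 10)) * nu w Gdᶜ :=
      mul_le_mul_of_nonneg_right (by norm_num) h8
    linarith
  linarith

/-- some bad vertex has few cheap centres which are not of type 2 -/
theorem bad_exists {G : SimpleGraph V} {w : V → ℝ} {w0 β η : ℝ} {C0 : ℕ} (h : NG G w w0 β η C0)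
    (K : ℕ) (hβK : β * K ≤ 1 / 10 ^ 200)
    (hK : ∀ z, (univ.filter (fun y =>
      ee G w (cn G y \ cn G z) (cn G y \ cn G z) < 1 / 4 - 1 / 10 ^ 36)).card < K)
    (Gd : Finset V) (hne : Gdᶜ.Nonempty) :
    ∃ y ∈ Gdᶜ, nu w ((cheap G w (1 / 10 ^ 36) y).filter
      (fun z => ¬ T2 G w Gd (1 / 10 ^ 39) z)) ≤ 1 / 10 ^ 100 := by
  by_contra hcon
  push Not at hcon
  have hw := h.wnn
  set B : Finset V := univ.filter (fun z => ¬ T2 G w Gd (1 / 10 ^ 39) z) with hB
  have h1 : (1 / 10 ^ 100 : ℝ) * nu w Gdᶜ < ∑ y ∈ Gdᶜ, w y * nu w ((cheap G w (1 / 10 ^ 36) y).filter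
      (fun z => ¬ T2 G w Gd (1 / 10 ^ 39) z)) := by
    rw [nu, mul_sum]
    refine sum_lt_sum_of_nonempty hne (fun y hy => ?_)
    rw [mul_comm]
    exact mul_lt_mul_of_pos_left (hcon y hy) (h.wpos y)
  have h2 : (∑ y ∈ Gdᶜ, w y * nu w ((cheap G w (1 / 10 ^ 36) y).filter
      (fun z => ¬ T2 G w Gd (1 / 10 ^ 39) z)))
      = ∑ z ∈ B, w z * nu w (Gdᶜ.filter (fun y => z ∈ cheap G w (1 / 10 ^ 36) y)) := by
    have e1 : ∀ y, w y * nu w ((cheap G w (1 / 10 ^ 36) y).filter
        (fun z => ¬ T2 G w Gd (1 / 10 ^ 39) z))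
        = ∑ z ∈ B, if z ∈ cheap G w (1 / 10 ^ 36) y then w y * w z else 0 := by
      intro y
      rw [nu, mul_sum, ← sum_filter]
      refine sum_congr ?_ (fun _ _ => rfl)
      ext z
      simp only [hB, mem_filter, mem_univ, true_and]
      exact and_comm
    have e2 : ∀ z, w z * nu w (Gdᶜ.filter (fun y => z ∈ cheap G w (1 / 10 ^ 36) y))
        = ∑ y ∈ Gdᶜ, if z ∈ cheap G w (1 / 10 ^ 36) y then w y * w z else 0 := by
      intro z
      rw [nu, mul_sum, ← sum_filter]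
      exact sum_congr rfl (fun _ _ => mul_comm _ _)
    rw [sum_congr rfl (fun y _ => e1 y), sum_congr rfl (fun z _ => e2 z), sum_comm]
  have h3 : (∑ z ∈ B, w z * nu w (Gdᶜ.filter (fun y => z ∈ cheap G w (1 / 10 ^ 36) y)))
      ≤ (1 / 10 ^ 200) * nu w B := by
    rw [nu, mul_sum]
    refine sum_le_sum (fun z _ => ?_)
    rw [mul_comm (1 / 10 ^ 200 : ℝ)]
    refine mul_le_mul_of_nonneg_left ?_ (hw z)
    refine le_trans ?_ hβK
    have h4 : Gdᶜ.filter (fun y => z ∈ cheap G w (1 / 10 ^ 36) y) ⊆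
        univ.filter (fun y => ee G w (cn G y \ cn G z) (cn G y \ cn G z)
          < 1 / 4 - 1 / 10 ^ 36) := by
      intro y hy
      rw [mem_filter] at hy
      rw [mem_filter]
      exact ⟨mem_univ _, (mem_filter.1 hy.2).2⟩
    refine (nu_mono hw h4).trans ?_
    have h5 : nu w (univ.filter (fun y => ee G w (cn G y \ cn G z) (cn G y \ cn G z)
          < 1 / 4 - 1 / 10 ^ 36)) ≤ (univ.filter (fun y =>
            ee G w (cn G y \ cn G z) (cn G y \ cn G z) < 1 / 4 - 1 / 10 ^ 36)).card • β :=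
      sum_le_card_nsmul _ _ _ (fun y _ => h.whi y)
    refine h5.trans ?_
    rw [nsmul_eq_mul, mul_comm]
    refine mul_le_mul_of_nonneg_left ?_ h.βpos.le
    exact_mod_cast (hK z).le
  have h6 := bad_mass h Gd
  rw [← hB] at h6
  have h7 := nu_nonneg hw Gdᶜ
  have h8 : (1 / 10 ^ 200 : ℝ) * nu w B ≤ (1 / 10 ^ 200) * (2 * 10 ^ 39 * nu w Gdᶜ) :=
    mul_le_mul_of_nonneg_left h6 (by positivity)
  have h9 : (1 / 10 ^ 200 : ℝ) * (2 * 10 ^ 39 * nu w Gdᶜ) ≤ (1 / 10 ^ 100) * nu w Gdᶜ := by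
    rw [← mul_assoc]
    exact mul_le_mul_of_nonneg_right (by norm_num) h7
  rw [h2] at h1
  linarith

section
variable {G : SimpleGraph V} {w : V → ℝ} {w0 β η : ℝ} {C0 : ℕ} (h : NG G w w0 β η C0)
  {Gd : Finset V} {H : V → Bool → Finset V} (hH : ∀ v ∈ Gd, Spl G w (1 / 1000) v (H v))

include h hH in
/-- a type 2 cheap centre of a bad vertex meets the bad vertex in both clusters -/
theorem bad_both {y z : V} (hy : y ∉ Gd) (hz : T2 G w Gd (1 / 10 ^ 39) z)
    (hc : z ∈ cheap G w (1 / 10 ^ 36) y) (i : Bool) :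
    1 / 10 ^ 38 ≤ nu w (cn G y ∩ Mc w H Gd z (!i)) := by
  by_contra hcon
  push Not at hcon
  have hw := h.wnn
  set Q := cn G y ∩ Mc w H Gd z i with hQ
  set Q' := cn G y ∩ Mc w H Gd z (!i) with hQ'
  set J := cn G z \ (Mc w H Gd z true ∪ Mc w H Gd z false) with hJ
  have hyM : ∀ i, y ∉ Mc w H Gd z i := by
    intro i hcon
    exact hy (mem_filter.1 hcon).1
  have hyX : y ∈ cn G y \ Q := by
    rw [mem_sdiff]
    refine ⟨self_mem_cn G y, fun hh => hyM i (mem_inter.1 hh).2⟩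
  have hmain := h.ng2 y _ hyX
  have hm : miss G w (nbr G y \ (cn G y \ Q)) = 0 := by
    apply miss_clique
    intro u hu v hv huv
    rw [mem_sdiff, mem_sdiff] at hu hv
    have hu' : u ∈ Q := by
      by_contra hcon
      exact hu.2 ⟨nbr_subset_cn G y hu.1, hcon⟩
    have hv' : v ∈ Q := by
      by_contra hcon
      exact hv.2 ⟨nbr_subset_cn G y hv.1, hcon⟩
    exact clu_adj h hH hz i (mem_inter.1 hu').2 (mem_inter.1 hv').2 huv
  rw [hm, add_zero] at hmain
  have hJm := acc h hH hz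
  rw [← hJ] at hJm
  have hsub : cn G y \ Q ⊆ (cn G y \ cn G z) ∪ (Q' ∪ J) := by
    intro u hu
    rw [mem_sdiff] at hu
    rw [mem_union, mem_union]
    by_cases huz : u ∈ cn G z
    · right
      by_cases huM : u ∈ Mc w H Gd z true ∪ Mc w H Gd z false
      · left
        rw [mem_union] at huM
        have h1 : u ∉ Mc w H Gd z i := fun hh => hu.2 (mem_inter.2 ⟨hu.1, hh⟩)
        have h2 : u ∈ Mc w H Gd z (!i) := by
          cases i <;> simp at h1 ⊢ <;> tauto
        exact mem_inter.2 ⟨hu.1, h2⟩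
      · exact Or.inr (mem_sdiff.2 ⟨huz, huM⟩)
    · exact Or.inl (mem_sdiff.2 ⟨hu.1, huz⟩)
  have h1 : ee G w (cn G y \ Q) (cn G y \ Q)
      ≤ ee G w ((cn G y \ cn G z) ∪ (Q' ∪ J)) ((cn G y \ cn G z) ∪ (Q' ∪ J)) :=
    ee_mono hw hsub hsub
  have h2 := ee_union_self_le (G := G) hw (cn G y \ cn G z) (Q' ∪ J)
  have h3 := h.ee_le (Q' ∪ J) ((cn G y \ cn G z) ∪ (Q' ∪ J))
  have h4 := nu_union_le hw Q' J
  have hβ : β ≤ 1 / 100 := h.βsm.trans (by norm_num)
  have hβ0 := h.βpos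
  have h5 : nu w (Q' ∪ J) * (1 + 2 * β) ≤ (5 / 10 ^ 38) * (11 / 10) := by
    refine mul_le_mul ?_ (by linarith) (by linarith) (by positivity)
    have : (1 : ℝ) / 10 ^ 38 + 40 / 10 ^ 39 = 5 / 10 ^ 38 := by norm_num
    linarith
  have h6 : ee G w (cn G y \ cn G z) (cn G y \ cn G z) < 1 / 4 - 1 / 10 ^ 36 :=
    (mem_filter.1 hc).2
  have h7 : nu w (cn G y \ Q) ≤ 11 / 10 := by
    have := nu_mono hw (sdiff_subset : cn G y \ Q ⊆ cn G y)
    have := h.cls y
    linarith
  have hη := h.hη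
  have h8 : 3 * η * nu w (cn G y \ Q) ≤ 3 * η * (11 / 10) :=
    mul_le_mul_of_nonneg_left h7 (by rw [hη]; positivity)
  have h9 : (1 - η) / 4 ≤ 1 / 4 - 1 / 10 ^ 36 + 2 * ((5 / 10 ^ 38) * (11 / 10))
      + 3 * η * (11 / 10) := by linarith
  rw [hη] at h9
  norm_num at h9

include h hH in
/-- every vertex lies in at most two clusters -/
theorem bad_two (F : Finset (Finset V))
    (hF : ∀ C ∈ F, ∃ z i, T2 G w Gd (1 / 10 ^ 39) z ∧ C = Mc w H Gd z i) (x : V) :
    (F.filter (fun C => x ∈ C)).card ≤ 2 := by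
  have hch : ∀ C ∈ F.filter (fun C => x ∈ C), ∃ a : Bool, ∃ z i, T2 G w Gd (1 / 10 ^ 39) z ∧
      C = Mc w H Gd z i ∧ x ∈ Gd ∧ 1 / 4 ≤ nu w (H x a ∩ H z i) := by
    intro C hC
    rw [mem_filter] at hC
    obtain ⟨z, i, hz, rfl⟩ := hF C hC.1
    obtain ⟨hx, a, ha⟩ := mem_filter.1 hC.2
    exact ⟨a, z, i, hz, rfl, hx, ha⟩
  have hch' : ∀ C : Finset V, ∃ a : Bool, C ∈ F.filter (fun C => x ∈ C) →
      ∃ z i, T2 G w Gd (1 / 10 ^ 39) z ∧
      C = Mc w H Gd z i ∧ x ∈ Gd ∧ 1 / 4 ≤ nu w (H x a ∩ H z i) := by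
    intro C
    by_cases hC : C ∈ F.filter (fun C => x ∈ C)
    · obtain ⟨a, ha⟩ := hch C hC
      exact ⟨a, fun _ => ha⟩
    · exact ⟨true, fun hh => absurd hh hC⟩
  choose a ha using hch'
  have h1 : (F.filter (fun C => x ∈ C)).card ≤ (univ : Finset Bool).card := by
    refine card_le_card_of_injOn a (fun _ _ => mem_coe.2 (mem_univ _)) ?_
    intro C hC C' hC' haa
    obtain ⟨z, i, hz, hCz, hx, h1⟩ := ha C (mem_coe.1 hC)
    obtain ⟨z', i', hz', hCz', _, h1'⟩ := ha C' (mem_coe.1 hC')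
    rw [← haa] at h1'
    rw [hCz, hCz']
    exact clu_eq h hH hz hz' hx h1 h1'
  simpa using h1

include h hH in
/-- the mass of the type 2 cheap centres of a bad vertex is small -/
theorem bad_W {y : V} (hy : y ∉ Gd) :
    nu w ((cheap G w (1 / 10 ^ 36) y).filter (fun z => T2 G w Gd (1 / 10 ^ 39) z))
      ≤ 1 / 10 ^ 100 := by
  have hw := h.wnn
  set W := (cheap G w (1 / 10 ^ 36) y).filter (fun z => T2 G w Gd (1 / 10 ^ 39) z) with hW
  set F : Finset (Finset V) := (univ : Finset (Finset V)).filter (fun C =>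
    (∃ z i, T2 G w Gd (1 / 10 ^ 39) z ∧ C = Mc w H Gd z i) ∧
      1 / 10 ^ 38 ≤ nu w (cn G y ∩ C)) with hF
  have hF1 : ∀ C ∈ F, ∃ z i, T2 G w Gd (1 / 10 ^ 39) z ∧ C = Mc w H Gd z i :=
    fun C hC => (mem_filter.1 hC).2.1
  -- number of clusters
  have hsum : (∑ C ∈ F, nu w (cn G y ∩ C)) ≤ 2 * nu w (cn G y) := by
    have e1 : (∑ C ∈ F, nu w (cn G y ∩ C))
        = ∑ x ∈ cn G y, w x * ((F.filter (fun C => x ∈ C)).card : ℝ) := by
      have e2 : ∀ C : Finset V, nu w (cn G y ∩ C)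
          = ∑ x ∈ cn G y, if x ∈ C then w x else 0 := by
        intro C
        rw [nu, ← sum_filter, filter_mem_eq_inter]
      rw [sum_congr rfl (fun C _ => e2 C), sum_comm]
      refine sum_congr rfl (fun x _ => ?_)
      rw [← sum_filter, sum_const, nsmul_eq_mul, mul_comm]
    rw [e1, nu, mul_sum]
    refine sum_le_sum (fun x _ => ?_)
    rw [mul_comm]
    refine mul_le_mul_of_nonneg_right ?_ (hw x)
    exact_mod_cast bad_two h hH F hF1 x
  have hcard : (F.card : ℝ) ≤ 3 * 10 ^ 38 := by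
    have h1 : (F.card : ℝ) * (1 / 10 ^ 38) ≤ ∑ C ∈ F, nu w (cn G y ∩ C) := by
      rw [← nsmul_eq_mul]
      exact card_nsmul_le_sum _ _ _ (fun C hC => (mem_filter.1 hC).2.2)
    have h2 := h.cls y
    have hβ : β ≤ 1 / 100 := h.βsm.trans (by norm_num)
    have h3 : (F.card : ℝ) * (1 / 10 ^ 38) ≤ 3 := by linarith
    have h4 : (F.card : ℝ) * (1 / 10 ^ 38) * 10 ^ 38 ≤ 3 * 10 ^ 38 :=
      mul_le_mul_of_nonneg_right h3 (by positivity)
    have h5 : (F.card : ℝ) * (1 / 10 ^ 38) * 10 ^ 38 = F.card := by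
      rw [mul_assoc, one_div_mul_cancel (by positivity), mul_one]
    linarith
  -- number of centres
  have hWc : W.card ≤ (F ×ˢ F).card := by
    refine card_le_card_of_injOn (fun z => (Mc w H Gd z true, Mc w H Gd z false)) ?_ ?_
    · intro z hz
      rw [mem_coe, hW, mem_filter] at hz
      rw [mem_coe, mem_product]
      constructor
      · rw [hF, mem_filter]
        exact ⟨mem_univ _, ⟨z, true, hz.2, rfl⟩, bad_both h hH hy hz.2 hz.1 false⟩
      · rw [hF, mem_filter]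
        exact ⟨mem_univ _, ⟨z, false, hz.2, rfl⟩, bad_both h hH hy hz.2 hz.1 true⟩
    · intro z hz z' hz' hzz
      rw [mem_coe, hW, mem_filter] at hz hz'
      simp only [Prod.mk.injEq] at hzz
      have h1 := clu_inter h hH hz.2
      have h2 := clu_inter h hH hz'.2
      rw [hzz.1, hzz.2, h2] at h1
      exact (singleton_injective h1).symm
  have hWc' : (W.card : ℝ) ≤ (3 * 10 ^ 38) * (3 * 10 ^ 38) := by
    have h1 : (W.card : ℝ) ≤ (F.card : ℝ) * F.card := by
      rw [card_product] at hWc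
      exact_mod_cast hWc
    refine h1.trans (mul_le_mul hcard hcard (by positivity) (by positivity))
  have h1 : nu w W ≤ W.card • β := sum_le_card_nsmul _ _ _ (fun y _ => h.whi y)
  rw [nsmul_eq_mul] at h1
  have h2 : (W.card : ℝ) * β ≤ ((3 * 10 ^ 38) * (3 * 10 ^ 38)) * (1 / 10 ^ 200) :=
    mul_le_mul hWc' h.βsm h.βpos.le (by positivity)
  have h3 : (((3 * 10 ^ 38) * (3 * 10 ^ 38)) * (1 / 10 ^ 200) : ℝ) ≤ 1 / 10 ^ 100 := by norm_num
  linarith

end

theorem bad_core {G : SimpleGraph V} {w : V → ℝ} {w0 β η : ℝ} {C0 : ℕ} (h : NG G w w0 β η C0)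
    (K : ℕ) (hβK : β * K ≤ 1 / 10 ^ 200)
    (hK : ∀ z, (univ.filter (fun y =>
      ee G w (cn G y \ cn G z) (cn G y \ cn G z) < 1 / 4 - 1 / 10 ^ 36)).card < K)
    (hsplit : ∀ y, nu w (cheap G w (1 / 10 ^ 36) y) ≤ 1 / 10 ^ 36 →
      ∃ Y : Bool → Finset V, Spl G w (1 / 1000) y Y) :
    ∀ y, nu w (cheap G w (1 / 10 ^ 36) y) ≤ 1 / 10 ^ 36 := by
  set Gd : Finset V := univ.filter (fun y => nu w (cheap G w (1 / 10 ^ 36) y) ≤ 1 / 10 ^ 36)
    with hGd
  have hex : ∀ y, ∃ Y : Bool → Finset V, y ∈ Gd → Spl G w (1 / 1000) y Y := by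
    intro y
    by_cases hy : y ∈ Gd
    · obtain ⟨Y, hY⟩ := hsplit y (mem_filter.1 hy).2
      exact ⟨Y, fun _ => hY⟩
    · exact ⟨fun _ => ∅, fun hh => absurd hh hy⟩
  choose H hH using hex
  by_contra hcon
  push Not at hcon
  obtain ⟨y0, hy0⟩ := hcon
  have hne : Gdᶜ.Nonempty := by
    refine ⟨y0, ?_⟩
    rw [mem_compl]
    intro hh
    exact absurd (mem_filter.1 hh).2 (not_le.2 hy0)
  obtain ⟨y, hy, hy1⟩ := bad_exists h K hβK hK Gd hne
  have hyG : y ∉ Gd := mem_compl.1 hy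
  have h2 := bad_W h hH hyG
  have hw := h.wnn
  apply hyG
  rw [hGd, mem_filter]
  refine ⟨mem_univ _, ?_⟩
  have h3 : cheap G w (1 / 10 ^ 36) y ⊆
      ((cheap G w (1 / 10 ^ 36) y).filter (fun z => T2 G w Gd (1 / 10 ^ 39) z)) ∪
      ((cheap G w (1 / 10 ^ 36) y).filter (fun z => ¬ T2 G w Gd (1 / 10 ^ 39) z)) := by
    intro z hz
    rw [mem_union, mem_filter, mem_filter]
    tauto
  have h4 := nu_le_of_subset_union hw h3
  have h5 : (1 / 10 ^ 100 + 1 / 10 ^ 100 : ℝ) ≤ 1 / 10 ^ 36 := by norm_num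
  linarith

end Pool.Agent.Lib.MP_4d044e_co.TX
end

section
/-!
Splitting a neighbourhood into two near-cliques (blueprint, section 4).
-/
set_option autoImplicit false

namespace Pool.Agent.Lib.MP_4d044e_co.TX

open Pool.Agent.Lib.MP_4d044e_co.TW

open Finset
open scoped Classical

variable {V : Type} [Fintype V] [DecidableEq V]

/-- Markov: few vertices of a near-clique miss much of it. -/
theorem split_markov {G : SimpleGraph V} {w : V → ℝ} (hw : ∀ v, 0 ≤ w v) (X : Finset V)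
    (t m : ℝ) (hm : nu w X * nu w X - ee G w X X ≤ m) :
    nu w (X.filter (fun u => t < nu w (X \ cn G u))) * t ≤ m := by
  have h1 : ∑ u ∈ X, w u * nu w (X \ cn G u) ≤ m := by
    refine le_trans ?_ hm
    have h2 : nu w X * nu w X = ∑ u ∈ X, w u * nu w X := by rw [← sum_mul]; rfl
    rw [h2, ee_eq, ← sum_sub_distrib]
    apply sum_le_sum
    intro u _
    rw [← mul_sub]
    apply mul_le_mul_of_nonneg_left _ (hw u)
    have h3 := nu_inter_add_sdiff (w := w) X (cn G u)
    have h4 : nu w (nbr G u ∩ X) ≤ nu w (X ∩ cn G u) := by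
      apply nu_mono hw
      intro v hv
      obtain ⟨h5, h6⟩ := mem_inter.1 hv
      exact mem_inter.2 ⟨h6, nbr_subset_cn G u h5⟩
    linarith
  refine le_trans ?_ h1
  calc nu w (X.filter (fun u => t < nu w (X \ cn G u))) * t
      = ∑ u ∈ X.filter (fun u => t < nu w (X \ cn G u)), w u * t := by
        unfold nu; rw [sum_mul]
    _ ≤ ∑ u ∈ X.filter (fun u => t < nu w (X \ cn G u)), w u * nu w (X \ cn G u) := by
        apply sum_le_sum
        intro u hu
        exact mul_le_mul_of_nonneg_left (mem_filter.1 hu).2.le (hw u)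
    _ ≤ _ := by
        apply sum_le_sum_of_subset_of_nonneg (filter_subset _ _)
        intro u _ _
        exact mul_nonneg (hw u) (nu_nonneg hw _)

/-- SPLIT. -/
theorem split {G : SimpleGraph V} {w : V → ℝ} {w0 β η : ℝ} {C0 : ℕ} (h : NG G w w0 β η C0)
    (hC : 1 ≤ C0) (y : V) (hy : nu w (cheap G w (1 / 10 ^ 36) y) ≤ 1 / 10 ^ 36) :
    ∃ Y : Bool → Finset V, Spl G w (1 / 1000) y Y := by
  have hw := h.wnn
  have hη := h.hη
  have hβ := h.βsm
  have hβ0 := h.βpos
  have hβ' : β ≤ 1 / 10 ^ 40 := hβ.trans (by norm_num)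
  set N := cn G y with hN
  set Ch := cheap G w (1 / 10 ^ 36) y with hCh
  have hs1 : nu w N ≤ 1 + 2 * β := h.cls y
  have hs0 : 49 / 100 ≤ nu w N := by
    by_contra hlt
    push Not at hlt
    have h1 := h.ng1 {y} (singleton_nonempty y) (by simpa using hC)
    have h2 : cN G {y} = N := by simp [cN, hN]
    rw [h2, card_singleton, Nat.cast_one, hη] at h1
    have h3 := ee_le_nu_mul_nu (G := G) hw N N
    have h4 := nu_nonneg hw N
    have h5 : nu w N * nu w N ≤ 49 / 100 * (49 / 100) := by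
      apply mul_le_mul hlt.le hlt.le h4 (by norm_num)
    have h6 : (1 / 10 ^ 39 : ℝ) ≤ 1 / 1000 := by norm_num
    nlinarith
  set q : V → ℝ := fun u => nu w (N ∩ cn G u) with hq
  have hP : (N \ Ch).Nonempty := by
    rw [nonempty_iff_ne_empty]
    intro h0
    have h1 := nu_sdiff_le hw N Ch ∅
    rw [sdiff_empty, sdiff_empty, h0, nu_empty] at h1
    have : (1 / 10 ^ 36 : ℝ) < 49 / 100 := by norm_num
    linarith
  obtain ⟨z, hzP, hzmax⟩ := exists_max_image (N \ Ch) q hP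
  have hnc : ∀ u ∈ N \ Ch, 1 / 4 - 1 / 10 ^ 36 ≤ ee G w (N \ cn G u) (N \ cn G u) := by
    intro u hu
    obtain ⟨h1, h2⟩ := mem_sdiff.1 hu
    by_contra h3
    exact h2 (mem_filter.2 ⟨h1, not_le.1 h3⟩)
  set X := N \ cn G z with hX
  have hXN : X ⊆ N := sdiff_subset
  have hXm : nu w X = nu w N - q z := by
    have h1 := nu_inter_add_sdiff (w := w) N (cn G z)
    simp only [hq, hX]
    linarith
  have hq0 : 0 ≤ q z := nu_nonneg hw _
  have hee : ee G w X X ≤ (nu w N - q z) * q z + 11 / 10 * (1 / 10 ^ 36) := by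
    have h1 : X = (X ∩ (N \ Ch)) ∪ (X \ (N \ Ch)) := by
      rw [union_comm, sdiff_union_inter]
    have h2 := ee_union_left_le (G := G) hw (X ∩ (N \ Ch)) (X \ (N \ Ch)) X
    rw [← h1] at h2
    have h3 : ee G w (X ∩ (N \ Ch)) X ≤ nu w (X ∩ (N \ Ch)) * q z := by
      apply ee_le_of_contact hw
      intro u hu
      refine le_trans (nu_mono hw ?_) (hzmax u (mem_inter.1 hu).2)
      intro v hv
      obtain ⟨h4, h5⟩ := mem_inter.1 hv
      exact mem_inter.2 ⟨hXN h5, nbr_subset_cn G u h4⟩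
    have h4 : nu w (X ∩ (N \ Ch)) * q z ≤ (nu w N - q z) * q z := by
      rw [← hXm]
      exact mul_le_mul_of_nonneg_right (nu_mono hw inter_subset_left) hq0
    have h5 : nu w (X \ (N \ Ch)) ≤ 1 / 10 ^ 36 := by
      refine le_trans (nu_mono hw ?_) hy
      intro v hv
      obtain ⟨h6, h7⟩ := mem_sdiff.1 hv
      by_contra h8
      exact h7 (mem_sdiff.2 ⟨hXN h6, h8⟩)
    have h6 := h.ee_le (X \ (N \ Ch)) X
    have h7 : nu w (X \ (N \ Ch)) * (1 + 2 * β) ≤ 1 / 10 ^ 36 * (1 + 1 / 10) := by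
      apply mul_le_mul h5 _ (by linarith) (by norm_num)
      have : (1 / 10 ^ 40 : ℝ) ≤ 1 / 100 := by norm_num
      linarith
    linarith
  have hz1 := hnc z hzP
  -- numbers
  generalize hsd : nu w N = s at *
  generalize hqd : q z = r at *
  have hss : s * s ≤ 1 + 5 * (1 / 10 ^ 40) := by
    have h1 : s * s ≤ (1 + 2 * (1 / 10 ^ 40)) * (1 + 2 * (1 / 10 ^ 40)) := by
      apply mul_le_mul _ _ (by linarith) (by norm_num) <;> linarith
    refine h1.trans (by norm_num)
  have hsq : (r - s / 2) ^ 2 ≤ (15 / 10 ^ 19) ^ 2 := by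
    have h1 : (r - s / 2) ^ 2 = s * s / 4 - (s - r) * r := by ring
    rw [h1]
    norm_num at hz1 hee hss ⊢
    linarith
  obtain ⟨hr1, hr2⟩ := abs_le_of_sq_le_sq' hsq (by norm_num)
  have hs2 : 1 - 9 / 10 ^ 36 ≤ s := by
    by_contra hlt
    push Not at hlt
    have h1 : (s - r) * r ≤ s * s / 4 := by nlinarith [sq_nonneg (r - s / 2)]
    have h2 : s * s ≤ (1 - 9 / 10 ^ 36) * (1 - 9 / 10 ^ 36) := by
      apply mul_le_mul hlt.le hlt.le (by linarith) (by norm_num)
    norm_num at hz1 hee h2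
    linarith
  have hX1 : nu w X ≤ 1 / 2 + 2 / 10 ^ 18 := by
    rw [hXm]
    norm_num at hr1 hr2 hs1 hβ' ⊢
    linarith
  have hX2 : 1 / 2 - 2 / 10 ^ 18 ≤ nu w X := by
    rw [hXm]
    norm_num at hr1 hr2 hs2 ⊢
    linarith
  have hr3 : r ≤ 1 / 2 + 2 / 10 ^ 18 := by
    norm_num at hr1 hr2 hs1 hβ' ⊢
    linarith
  -- the first half
  have hmk1 := split_markov (G := G) hw X (3 / 10 ^ 9) (5 / 10 ^ 18) (by
    have h1 : nu w X * nu w X ≤ (1 / 2 + 2 / 10 ^ 18) * (1 / 2 + 2 / 10 ^ 18) :=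
      mul_le_mul hX1 hX1 (nu_nonneg hw _) (by norm_num)
    norm_num at h1 hz1 ⊢
    linarith)
  set X1 := (X \ Ch).filter (fun u => nu w (X \ cn G u) ≤ 3 / 10 ^ 9) with hX1d
  have hX1X : X1 ⊆ X := (filter_subset _ _).trans sdiff_subset
  have hX1P : ∀ u ∈ X1, u ∈ N \ Ch := by
    intro u hu
    obtain ⟨h1, h2⟩ := mem_sdiff.1 (mem_filter.1 hu).1
    exact mem_sdiff.2 ⟨hXN h1, h2⟩
  have hX1m : 1 / 2 - 3 / 10 ^ 9 ≤ nu w X1 := by
    have h1 : X ⊆ X1 ∪ (Ch ∪ X.filter (fun u => 3 / 10 ^ 9 < nu w (X \ cn G u))) := by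
      intro u hu
      by_cases h2 : u ∈ Ch
      · exact mem_union_right _ (mem_union_left _ h2)
      · by_cases h3 : nu w (X \ cn G u) ≤ 3 / 10 ^ 9
        · exact mem_union_left _ (mem_filter.2 ⟨mem_sdiff.2 ⟨hu, h2⟩, h3⟩)
        · exact mem_union_right _ (mem_union_right _ (mem_filter.2 ⟨hu, not_le.1 h3⟩))
    have h2 := nu_le_of_subset_union hw h1
    have h3 := nu_union_le hw Ch (X.filter (fun u => 3 / 10 ^ 9 < nu w (X \ cn G u)))
    norm_num at h2 h3 hmk1 hX2 hy ⊢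
    linarith
  obtain ⟨u0, hu0, -⟩ : ∃ v ∈ X1, 0 < w v := exists_mem_of_nu_pos hw (by
    norm_num at hX1m ⊢
    linarith)
  have hu0P := hX1P u0 hu0
  have hu0X : nu w (X \ cn G u0) ≤ 3 / 10 ^ 9 := (mem_filter.1 hu0).2
  -- the second half
  set Y := N \ cn G u0 with hYd
  have hY0 := hnc u0 hu0P
  have hYN : Y ⊆ N := sdiff_subset
  have hY1 : nu w Y ≤ 1 / 2 + 4 / 10 ^ 9 := by
    have h1 := nu_inter_add_sdiff (w := w) N (cn G u0)
    have h2 := nu_inter_add_sdiff (w := w) X (cn G u0)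
    have h3 : nu w (X ∩ cn G u0) ≤ nu w (N ∩ cn G u0) :=
      nu_mono hw (inter_subset_inter_right hXN)
    rw [hsd] at h1
    norm_num at h1 h2 h3 hu0X hX2 hs1 hβ' ⊢
    linarith
  have hY2 : 1 / 2 - 1 / 10 ^ 9 ≤ nu w Y := by
    by_contra hlt
    push Not at hlt
    have h1 := ee_le_nu_mul_nu (G := G) hw Y Y
    have h2 : nu w Y * nu w Y ≤ (1 / 2 - 1 / 10 ^ 9) * (1 / 2 - 1 / 10 ^ 9) :=
      mul_le_mul hlt.le hlt.le (nu_nonneg hw _) (by norm_num)
    norm_num at h1 h2 hY0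
    linarith
  have hmk2 := split_markov (G := G) hw Y (2 / 10 ^ 4) (5 / 10 ^ 9) (by
    have h1 : nu w Y * nu w Y ≤ (1 / 2 + 4 / 10 ^ 9) * (1 / 2 + 4 / 10 ^ 9) :=
      mul_le_mul hY1 hY1 (nu_nonneg hw _) (by norm_num)
    norm_num at h1 hY0 ⊢
    linarith)
  set X2 := ((Y \ X) \ Ch).filter (fun u => nu w (Y \ cn G u) ≤ 2 / 10 ^ 4) with hX2d
  have hX2Y : X2 ⊆ Y := (filter_subset _ _).trans (sdiff_subset.trans sdiff_subset)
  have hX2P : ∀ u ∈ X2, u ∈ N \ Ch := by
    intro u hu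
    obtain ⟨h1, h2⟩ := mem_sdiff.1 (mem_filter.1 hu).1
    exact mem_sdiff.2 ⟨hYN (mem_sdiff.1 h1).1, h2⟩
  have hX2m : 1 / 2 - 4 / 10 ^ 5 ≤ nu w X2 := by
    have h1 : Y ⊆ X2 ∪ ((X \ cn G u0) ∪
        (Ch ∪ Y.filter (fun u => 2 / 10 ^ 4 < nu w (Y \ cn G u)))) := by
      intro u hu
      by_cases h0 : u ∈ X
      · exact mem_union_right _ (mem_union_left _ (mem_sdiff.2 ⟨h0, (mem_sdiff.1 hu).2⟩))
      by_cases h2 : u ∈ Ch
      · exact mem_union_right _ (mem_union_right _ (mem_union_left _ h2))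
      · by_cases h3 : nu w (Y \ cn G u) ≤ 2 / 10 ^ 4
        · exact mem_union_left _ (mem_filter.2 ⟨mem_sdiff.2 ⟨mem_sdiff.2 ⟨hu, h0⟩, h2⟩, h3⟩)
        · exact mem_union_right _ (mem_union_right _ (mem_union_right _
            (mem_filter.2 ⟨hu, not_le.1 h3⟩)))
    have h2 := nu_le_of_subset_union hw h1
    have h3 := nu_union_le hw (X \ cn G u0)
      (Ch ∪ Y.filter (fun u => 2 / 10 ^ 4 < nu w (Y \ cn G u)))
    have h4 := nu_union_le hw Ch (Y.filter (fun u => 2 / 10 ^ 4 < nu w (Y \ cn G u)))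
    norm_num at h2 h3 h4 hmk2 hY2 hy hu0X ⊢
    linarith
  have hdis : Disjoint X1 X2 := by
    rw [disjoint_left]
    intro u h1 h2
    exact (mem_sdiff.1 (mem_sdiff.1 (mem_filter.1 h2).1).1).2 (hX1X h1)
  have hX1i : ∀ u ∈ X1, nu w (X1 \ cn G u) ≤ 3 / 10 ^ 9 := fun u hu =>
    (nu_mono hw (sdiff_subset_sdiff hX1X (Subset.refl _))).trans (mem_filter.1 hu).2
  have hX2i : ∀ u ∈ X2, nu w (X2 \ cn G u) ≤ 2 / 10 ^ 4 := fun u hu =>
    (nu_mono hw (sdiff_subset_sdiff hX2Y (Subset.refl _))).trans (mem_filter.1 hu).2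
  have hcr : ∀ u ∈ N \ Ch, nu w (cn G u ∩ X1) + nu w (cn G u ∩ X2) ≤ 1 / 2 + 2 / 10 ^ 18 := by
    intro u hu
    rw [← nu_union_of_disjoint (disjoint_of_subset_left inter_subset_right
      (disjoint_of_subset_right inter_subset_right hdis))]
    refine le_trans (nu_mono hw (Y := N ∩ cn G u) ?_) ((hzmax u hu).trans hr3)
    intro v hv
    rcases mem_union.1 hv with h1 | h1
    · obtain ⟨h2, h3⟩ := mem_inter.1 h1
      exact mem_inter.2 ⟨hXN (hX1X h3), h2⟩
    · obtain ⟨h2, h3⟩ := mem_inter.1 h1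
      exact mem_inter.2 ⟨hYN (hX2Y h3), h2⟩
  have hX1hi : nu w X1 ≤ nu w X := nu_mono hw hX1X
  have hX2hi : nu w X2 ≤ nu w Y := nu_mono hw hX2Y
  refine ⟨fun i => if i = true then X1 else X2, ?_, ?_, ?_, ?_, ?_, ?_⟩
  · intro i
    cases i
    · exact hX2Y.trans hYN
    · exact hX1X.trans hXN
  · exact hdis
  · intro i
    cases i
    · show 1 / 2 - 1 / 1000 ≤ nu w X2
      norm_num at hX2m ⊢
      linarith
    · show 1 / 2 - 1 / 1000 ≤ nu w X1
      norm_num at hX1m ⊢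
      linarith
  · intro i
    cases i
    · show nu w X2 ≤ 1 / 2 + 1 / 1000
      norm_num at hX2hi hY1 ⊢
      linarith
    · show nu w X1 ≤ 1 / 2 + 1 / 1000
      norm_num at hX1hi hX1 ⊢
      linarith
  · intro i
    cases i
    · intro u hu
      exact (hX2i u hu).trans (by norm_num)
    · intro u hu
      exact (hX1i u hu).trans (by norm_num)
  · intro i
    cases i
    · intro u hu
      have hu' : u ∈ X2 := hu
      show nu w (cn G u ∩ X1) ≤ 1 / 1000
      have h1 := hcr u (hX2P u hu')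
      have h2 := nu_inter_add_sdiff (w := w) X2 (cn G u)
      rw [inter_comm X2] at h2
      have h3 := hX2i u hu'
      norm_num at h1 h2 h3 hX2m ⊢
      linarith
    · intro u hu
      have hu' : u ∈ X1 := hu
      show nu w (cn G u ∩ X2) ≤ 1 / 1000
      have h1 := hcr u (hX1P u hu')
      have h2 := nu_inter_add_sdiff (w := w) X1 (cn G u)
      rw [inter_comm X1] at h2
      have h3 := hX1i u hu'
      norm_num at h1 h2 h3 hX1m ⊢
      linarith

end Pool.Agent.Lib.MP_4d044e_co.TX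
end

section
/-!
Module BAD (section 8 of the blueprint): there are no bad vertices.
-/
set_option autoImplicit false

namespace Pool.Agent.Lib.MP_4d044e_co.TX

open Pool.Agent.Lib.MP_4d044e_co.TW

open Finset
open scoped Classical

variable {V : Type} [Fintype V] [DecidableEq V]

theorem bad {G : SimpleGraph V} {w : V → ℝ} {w0 β η : ℝ} {C0 : ℕ} (h : NG G w w0 β η C0)
    (hC : 1 ≤ C0) (K : ℕ) (hβK : β * K ≤ 1 / 10 ^ 200)
    (hK : ∀ z, (univ.filter (fun y =>
      ee G w (cn G y \ cn G z) (cn G y \ cn G z) < 1 / 4 - 1 / 10 ^ 36)).card < K) :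
    ∀ y, nu w (cheap G w (1 / 10 ^ 36) y) ≤ 1 / 10 ^ 36 :=
  bad_core h K hβK hK (fun y hy => split h hC y hy)

end Pool.Agent.Lib.MP_4d044e_co.TX
end

section
/-!
The final cluster system (blueprint, section 9).
-/
set_option autoImplicit false

namespace Pool.Agent.Lib.MP_4d044e_co.TX

open Pool.Agent.Lib.MP_4d044e_co.TW

open Finset
open scoped Classical

variable {V : Type} [Fintype V] [DecidableEq V]

/-- STR: the final cluster system. -/
theorem str {G : SimpleGraph V} {w : V → ℝ} {w0 β η : ℝ} {C0 : ℕ} (h : NG G w w0 β η C0)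
    (hC : 1 ≤ C0) (hg : ∀ y, nu w (cheap G w (1 / 10 ^ 36) y) ≤ 1 / 10 ^ 36) :
    ∃ CC : Finset (Finset V), CS G w CC := by
  choose H hH0 using fun y => split h hC y (hg y)
  have hH : ∀ v ∈ (univ : Finset V), Spl G w (1 / 1000) v (H v) := fun v _ => hH0 v
  have hT : ∀ z, T2 G w univ (1 / 10 ^ 39) z := by
    intro z
    refine ⟨Finset.mem_univ _, ?_⟩
    rw [Finset.sdiff_eq_empty_iff_subset.2 (Finset.subset_univ _), nu_empty]
    positivity
  have hhalf : ∀ z i, H z i ⊆ Mc w H univ z i := by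
    intro z i
    have h1 := clu_half h hH (hT z) i
    rwa [Finset.inter_univ] at h1
  have hlo : ∀ z i, 49 / 100 ≤ nu w (Mc w H univ z i) := by
    intro z i
    have h1 := nu_mono h.wnn (hhalf z i)
    have h2 := (hH0 z).lo i
    linarith
  have hβ := h.βsm
  have hne : ∀ z, Mc w H univ z true ≠ Mc w H univ z false := by
    intro z heq
    have h1 := clu_inter h hH (hT z)
    rw [heq, Finset.inter_self] at h1
    have h2 := hlo z false
    rw [h1, nu_singleton] at h2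
    have h3 := h.whi z
    norm_num at hβ h2
    linarith
  have hown : ∀ v z i, v ∈ Mc w H univ z i → ∃ a, Mc w H univ z i = Mc w H univ v a := by
    intro v z i hv
    obtain ⟨-, a, ha⟩ := Finset.mem_filter.1 hv
    refine ⟨a, clu_eq h hH (hT z) (hT v) (Finset.mem_univ v) ha ?_⟩
    rw [Finset.inter_self]
    have h2 := (hH0 v).lo a
    linarith
  refine ⟨(univ : Finset (V × Bool)).image (fun p => Mc w H univ p.1 p.2), ?_, ?_, ?_, ?_, ?_,
    ?_, ?_⟩
  · intro C hC u hu v hv huv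
    obtain ⟨⟨z, i⟩, -, rfl⟩ := Finset.mem_image.1 hC
    exact clu_adj h hH (hT z) i hu hv huv
  · intro v
    have h1 : (((univ : Finset (V × Bool)).image (fun p => Mc w H univ p.1 p.2)).filter
        (fun C => v ∈ C)) = {Mc w H univ v true, Mc w H univ v false} := by
      ext C
      rw [Finset.mem_filter, Finset.mem_insert, Finset.mem_singleton]
      constructor
      · rintro ⟨hC, hv⟩
        obtain ⟨⟨z, i⟩, -, rfl⟩ := Finset.mem_image.1 hC
        obtain ⟨a, ha⟩ := hown v z i hv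
        cases a
        · exact Or.inr ha
        · exact Or.inl ha
      · rintro (rfl | rfl)
        · exact ⟨Finset.mem_image.2 ⟨(v, true), Finset.mem_univ _, rfl⟩,
            clu_self h hH (hT v) true⟩
        · exact ⟨Finset.mem_image.2 ⟨(v, false), Finset.mem_univ _, rfl⟩,
            clu_self h hH (hT v) false⟩
    rw [h1, Finset.card_pair (hne v)]
  · intro C hC C' hC' hCC
    obtain ⟨⟨z, i⟩, -, rfl⟩ := Finset.mem_image.1 hC
    obtain ⟨⟨z', j⟩, -, rfl⟩ := Finset.mem_image.1 hC'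
    exact clu_card_inter h hH (hT z) (hT z') hCC
  · intro C hC
    obtain ⟨⟨z, i⟩, -, rfl⟩ := Finset.mem_image.1 hC
    exact hlo z i
  · intro C hC
    obtain ⟨⟨z, i⟩, -, rfl⟩ := Finset.mem_image.1 hC
    have h1 := clu_out h hH (hT z) i
    have h2 := (hH0 z).hi i
    have h3 := nu_inter_add_sdiff (w := w) (Mc w H univ z i) (H z i)
    have h4 : nu w (Mc w H univ z i ∩ H z i) ≤ nu w (H z i) :=
      nu_mono h.wnn Finset.inter_subset_right
    linarith
  · intro v
    have h1 := acc h hH (hT v)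
    refine le_trans (nu_mono h.wnn (Y := cn G v \ (Mc w H univ v true ∪ Mc w H univ v false)) ?_)
      (h1.trans (by norm_num))
    intro u hu
    obtain ⟨hu1, hu2⟩ := Finset.mem_filter.1 hu
    rw [Finset.mem_sdiff, Finset.mem_union, not_or]
    refine ⟨nbr_subset_cn G v hu1, fun h3 => hu2 ?_, fun h3 => hu2 ?_⟩
    · exact ⟨_, Finset.mem_image.2 ⟨(v, true), Finset.mem_univ _, rfl⟩,
        clu_self h hH (hT v) true, h3⟩
    · exact ⟨_, Finset.mem_image.2 ⟨(v, false), Finset.mem_univ _, rfl⟩,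
        clu_self h hH (hT v) false, h3⟩
  · intro C hC x hx
    obtain ⟨⟨z, i⟩, -, rfl⟩ := Finset.mem_image.1 hC
    exact clu_contact h hH (hT z) i (Finset.mem_univ x) hx

end Pool.Agent.Lib.MP_4d044e_co.TX
end

section
/-! TRA: representatives of the clusters, pairwise not adjacent outside the clusters. -/
set_option autoImplicit false
set_option linter.unusedSectionVars false

namespace Pool.Agent.Lib.MP_4d044e_co.TX

open Pool.Agent.Lib.MP_4d044e_co.TW

open Finset
open scoped Classical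

variable {V : Type} [Fintype V] [DecidableEq V]

theorem tra [Nonempty V] {G : SimpleGraph V} {w : V → ℝ} {w0 β η : ℝ} {C0 : ℕ}
    (h : NG G w w0 β η C0)
    {CC : Finset (Finset V)} (hCS : CS G w CC) (hw : ∀ v, w v ≤ 40 * w0) :
    ∃ f : Finset V → V, (∀ C ∈ CC, f C ∈ C) ∧ (∀ C ∈ CC, ∀ C' ∈ CC, f C = f C' → C = C') ∧
      (∀ C ∈ CC, ∀ C' ∈ CC, G.Adj (f C) (f C') → ∃ D ∈ CC, f C ∈ D ∧ f C' ∈ D) := by
  have hw0 := h.w0pos
  have hw0s : w0 ≤ 1 / 10 ^ 200 := h.w0β.trans h.βsm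
  set X : SimpleGraph V :=
    { Adj := fun u v => G.Adj u v ∧ ¬ ∃ C ∈ CC, u ∈ C ∧ v ∈ C
      symm := ⟨fun u v huv => ⟨huv.1.symm, fun ⟨C, hC, h1, h2⟩ => huv.2 ⟨C, hC, h2, h1⟩⟩⟩
      loopless := ⟨fun u huu => G.loopless.irrefl u huu.1⟩ } with hX
  set D : ℕ := ⌊1 / (10 ^ 37 * (w0 * (99 / 100)))⌋₊ with hD
  have hpos : (0 : ℝ) < w0 * (99 / 100) := by positivity
  have hcard : ∀ (S : Finset V), (S.card : ℝ) * (w0 * (99 / 100)) ≤ nu w S := by
    intro S
    unfold nu
    rw [← nsmul_eq_mul]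
    exact card_nsmul_le_sum _ _ _ fun v _ => h.wlo v
  have hcard2 : ∀ (S : Finset V), nu w S ≤ (S.card : ℝ) * (40 * w0) := by
    intro S
    unfold nu
    rw [← nsmul_eq_mul]
    exact sum_le_card_nsmul _ _ _ fun v _ => hw v
  have hd1 : ∀ v, (univ.filter fun u => X.Adj v u).card ≤ D := by
    intro v
    have h1 : (univ.filter fun u => X.Adj v u) =
        (nbr G v).filter (fun u => ¬ ∃ C ∈ CC, v ∈ C ∧ u ∈ C) := by
      ext u
      simp only [mem_filter, mem_univ, true_and, hX, nbr]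
    rw [h1, hD]
    apply Nat.le_floor
    rw [le_div_iff₀ (by positivity)]
    have h2 := hCS.xdeg v
    have h3 := hcard ((nbr G v).filter (fun u => ¬ ∃ C ∈ CC, v ∈ C ∧ u ∈ C))
    have h4 := h3.trans h2
    rw [le_div_iff₀ (by positivity)] at h4
    linarith
  have hd2 : ∀ v, (univ.filter fun i : {C // C ∈ CC} => v ∈ i.1).card ≤ 2 := by
    intro v
    rw [← hCS.two v]
    apply card_le_card_of_injOn (fun i => i.1)
    · intro i hi
      simp only [coe_filter, mem_univ, true_and, Set.mem_ofPred_eq] at hi ⊢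
      exact ⟨i.2, hi⟩
    · intro i _ j _ hij
      exact Subtype.ext hij
  have hd3 : ∀ i : {C // C ∈ CC}, 4 * D + 2 ≤ (i.1).card := by
    intro i
    have h1 := hCS.lo i.1 i.2
    have h2 := hcard2 i.1
    have h3 : (D : ℝ) ≤ 1 / (10 ^ 37 * (w0 * (99 / 100))) := Nat.floor_le (by positivity)
    rw [le_div_iff₀ (by positivity)] at h3
    have h5 : ((4 * D + 2 : ℕ) : ℝ) ≤ (i.1.card : ℝ) := by
      push_cast
      have h6 : (4 * (D : ℝ) + 2) * (40 * w0) ≤ (i.1.card : ℝ) * (40 * w0) := by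
        have h7 : w0 ≤ 1 / 10000 := hw0s.trans (by norm_num)
        have h8 : (D : ℝ) * w0 ≤ 1 / 10 ^ 36 := by
          rw [le_div_iff₀ (by positivity)]
          have h9 : (0 : ℝ) ≤ (D : ℝ) * w0 := by positivity
          nlinarith
        have h10 : (1 : ℝ) / 10 ^ 36 ≤ 1 / 10000 := by norm_num
        nlinarith
      exact le_of_mul_le_mul_right h6 (by positivity)
    exact_mod_cast h5
  obtain ⟨r, hrinj, hrmem, hrX⟩ := Pool.Agent.Lib.MP4d044e.AS.TRV.transversal X
    (fun C : {C // C ∈ CC} => C.1) D (fun v => by convert hd1 v) (fun v => by convert hd2 v) hd3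
  refine ⟨fun C => if hC : C ∈ CC then r ⟨C, hC⟩ else Classical.arbitrary V, ?_, ?_, ?_⟩
  · intro C hC
    simp only [dif_pos hC]
    exact hrmem ⟨C, hC⟩
  · intro C hC C' hC' he
    simp only [dif_pos hC, dif_pos hC'] at he
    have := hrinj he
    simpa using this
  · intro C hC C' hC' hadj
    simp only [dif_pos hC, dif_pos hC'] at hadj ⊢
    by_contra hcon
    have hne : (⟨C, hC⟩ : {C // C ∈ CC}) ≠ ⟨C', hC'⟩ := by
      intro he
      rw [he] at hadj
      exact G.loopless.irrefl _ hadj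
    exact hrX _ _ hne ⟨hadj, hcon⟩

end Pool.Agent.Lib.MP_4d044e_co.TX
end
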