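import Pool.Agent.Lib.MP_4d044e_co.TX.Defs
import Pool.Agent.Lib.MP_4d044e_co.TW.REM
import Pool.Agent.Lib.MP_4d044e_co.TX.TRA
import Pool.Agent.Lib.MP_4d044e_co.TW.Good
import Pool.Agent.Lib.MP_4d044e_co.TX.OPTX

section
/-!
The removal formula for the potential with a kink.
-/
set_option autoImplicit false

namespace Pool.Agent.Lib.MP_4d044e_co.TX

open Pool.Agent.Lib.MP_4d044e_co.TW
open Finset
open scoped Classical

variable {V : Type} [Fintype V] [DecidableEq V]

open REM in
theorem remx (η w0 : ℝ) (hw0 : 0 < w0) (G H : SimpleGraph V) (hGH : G ≤ H) (w : V → ℝ)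
    (hw : ∀ v, 0 ≤ w v) (X : Finset V)
    (hfoc : ∀ v ∈ X, |nu w (nbr G v) + 2 * w v + η * Real.log (w v / w0) - 1| ≤ w0) :
    FK η w0 G w - 4 * (ee G w X X + ∑ v ∈ X, (2 * w v ^ 2 + 2 * η * (w v - w0) + 2 * w0 ^ 2))
        - 4 * (∑ u ∈ Xᶜ, ∑ v ∈ Xᶜ, if H.Adj u v ∧ ¬ G.Adj u v then w u * w v else 0)
      ≤ FK η w0 (H.comap (Subtype.val : {v // v ∉ X} → V)) (fun x => w x.1) := by
  set φ : V → ℝ := fun v => 8 * w v - 8 * w v ^ 2
    - 8 * η * (w v * Real.log (w v / w0) - w v + w0) with hφ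
  have hsub : ∀ f : V → ℝ, ∑ x : {v // v ∉ X}, f x.1 = ∑ v ∈ Xᶜ, f v := by
    intro f
    exact (Finset.sum_subtype (Xᶜ) (fun x => by simp) f).symm
  have e1 : FF η w0 (H.comap (Subtype.val : {v // v ∉ X} → V)) (fun x => w x.1)
      = ∑ v ∈ Xᶜ, φ v - 4 * ∑ u ∈ Xᶜ, ∑ v ∈ Xᶜ, (if H.Adj u v then w u * w v else 0) := by
    unfold FF ee
    rw [← hsub φ, ← hsub (fun u => ∑ v ∈ Xᶜ, (if H.Adj u v then w u * w v else 0))]
    congr 2
    refine Finset.sum_congr rfl fun x _ => ?_
    rw [← hsub (fun v => if H.Adj x.1 v then w x.1 * w v else 0)]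
    refine Finset.sum_congr rfl fun y _ => ?_
    simp only [SimpleGraph.comap_adj]
  have e2 : ∑ u ∈ Xᶜ, ∑ v ∈ Xᶜ, (if H.Adj u v then w u * w v else 0)
      = ee G w Xᶜ Xᶜ
        + ∑ u ∈ Xᶜ, ∑ v ∈ Xᶜ, if H.Adj u v ∧ ¬ G.Adj u v then w u * w v else 0 := by
    unfold ee
    rw [← Finset.sum_add_distrib]
    refine Finset.sum_congr rfl fun u _ => ?_
    rw [← Finset.sum_add_distrib]
    refine Finset.sum_congr rfl fun v _ => ?_
    by_cases hG : G.Adj u v
    · have hH : H.Adj u v := hGH hG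
      simp [hG, hH]
    · by_cases hH : H.Adj u v
      · simp [hG, hH]
      · simp [hG, hH]
  have e3 : FF η w0 G w = ∑ v ∈ X, φ v + ∑ v ∈ Xᶜ, φ v - 4 * ee G w univ univ := by
    unfold FF
    rw [Finset.sum_add_sum_compl X φ]
  have e4 := ee_split G w X
  have e5 := ee_row G w X
  have e7 : ∑ v, |w v - w0| = ∑ v ∈ X, |w v - w0| + ∑ v ∈ Xᶜ, |w v - w0| :=
    (Finset.sum_add_sum_compl X _).symm
  have e8 : ∑ x : {v // v ∉ X}, |w x.1 - w0| = ∑ v ∈ Xᶜ, |w v - w0| := hsub fun v => |w v - w0|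
  have e6 : ∑ v ∈ X, φ v - 8 * ∑ v ∈ X, w v * nu w (nbr G v) - 8 * w0 * ∑ v ∈ X, |w v - w0|
      ≤ 4 * ∑ v ∈ X, (2 * w v ^ 2 + 2 * η * (w v - w0) + 2 * w0 ^ 2) := by
    rw [Finset.mul_sum, Finset.mul_sum, Finset.mul_sum, ← Finset.sum_sub_distrib,
      ← Finset.sum_sub_distrib]
    refine Finset.sum_le_sum fun v hv => ?_
    have h := hfoc v hv
    set θ := nu w (nbr G v) + 2 * w v + η * Real.log (w v / w0) - 1 with hθ
    have h2 : nu w (nbr G v) = 1 + θ - 2 * w v - η * Real.log (w v / w0) := by linarith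
    obtain ⟨h3, h4⟩ := abs_le.1 h
    have h5 : - (w v * θ) - w0 * |w v - w0| ≤ w0 ^ 2 := by
      have h6 : -(w v * θ) ≤ w v * w0 := by nlinarith [hw v]
      rcases le_total w0 (w v) with h7 | h7
      · rw [abs_of_nonneg (by linarith)]
        nlinarith
      · rw [abs_of_nonpos (by linarith)]
        nlinarith
    rw [hφ]
    simp only
    rw [h2]
    nlinarith
  unfold FK
  rw [e1, e2, e3, e4, e5, e7, e8]
  linarith

end Pool.Agent.Lib.MP_4d044e_co.TX
end

section
/-!
# The minimal counterexample (section 2 of the blueprint of S08642)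
-/
set_option autoImplicit false
set_option linter.unusedSectionVars false

namespace Pool.Agent.Lib.MP_4d044e_co.TX

open Pool.Agent.Lib.MP_4d044e_co.TW

open Finset
open scoped Classical

namespace INDXM

variable {V : Type} [Fintype V] [DecidableEq V]

/-- The general step: delete `X`, pass to `H ≥ G`, glue `t` vertices. -/
theorem gstep (η w0 δ : ℝ) (hw0 : 0 < w0) (hδ : 0 ≤ δ) (k : ℕ) (G : SimpleGraph V)
    (w : V → ℝ) (hw : ∀ v, 0 < w v ∧ w v < 1)
    (hfoc : ∀ v, |nu w (nbr G v) + 2 * w v + η * Real.log (w v / w0) - 1| ≤ w0)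
    (ih : ∀ (V' : Type) [Fintype V'] [DecidableEq V'] (G' : SimpleGraph V'),
      Fintype.card V' < Fintype.card V → ∃ R : Finset V', Good k G' R ∧
        ∀ u : V' → ℝ, (∀ v, 0 ≤ u v ∧ u v ≤ 1) → (1 + δ) * FK η w0 G' u ≤ R.card)
    (hno : ∀ R : Finset V, Good k G R → (R.card : ℝ) < (1 + δ) * FK η w0 G w)
    (X : Finset V) (hX : X.Nonempty) (H : SimpleGraph V) (hGH : G ≤ H) (t : ℕ)
    (glue : ∀ R' : Finset V, Disjoint R' X → Good k H R' →
      ∃ R : Finset V, Good k G R ∧ R.card = R'.card + t) :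
    (t : ℝ) < (1 + δ) * (4 * ((ee G w X X +
      ∑ v ∈ X, (2 * w v ^ 2 + 2 * η * (w v - w0) + 2 * w0 ^ 2)) +
      (∑ u ∈ Xᶜ, ∑ v ∈ Xᶜ, if H.Adj u v ∧ ¬ G.Adj u v then w u * w v else 0))) := by
  obtain ⟨x0, hx0⟩ := hX
  have hcard : Fintype.card {v // v ∉ X} < Fintype.card V :=
    Fintype.card_subtype_lt (x := x0) (by simpa using hx0)
  obtain ⟨R0, hR0, hR0'⟩ := ih {v // v ∉ X} (H.comap (Subtype.val : {v // v ∉ X} → V)) hcard
  have h1 := hR0' (fun x => w x.1) (fun x => ⟨(hw x.1).1.le, (hw x.1).2.le⟩)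
  have hrem := remx η w0 hw0 G H hGH w (fun v => (hw v).1.le) X fun v _ => hfoc v
  have hrem' := mul_le_mul_of_nonneg_left hrem (by linarith : (0 : ℝ) ≤ 1 + δ)
  have h2 : Good k H (R0.image Subtype.val) := hR0.of_subtype (p := fun v => v ∉ X)
    (fun a _ b _ hab => hab)
  obtain ⟨R, hR, hRc⟩ := glue (R0.image Subtype.val) (by
    rw [Finset.disjoint_left]
    intro v hv hvX
    obtain ⟨a, -, rfl⟩ := mem_image.1 hv
    exact a.2 hvX) h2
  have h3 := hno R hR
  rw [card_image_of_injective _ Subtype.val_injective] at hRc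
  have h4 : (R.card : ℝ) = R0.card + t := by exact_mod_cast hRc
  rw [h4] at h3
  nlinarith

theorem card_mul_le {w : V → ℝ} {a : ℝ} (X : Finset V) (h : ∀ v ∈ X, a ≤ w v) :
    (X.card : ℝ) * a ≤ nu w X := by
  unfold nu
  have := Finset.card_nsmul_le_sum X w a h
  rwa [nsmul_eq_mul] at this

theorem glue_one {k : ℕ} (G : SimpleGraph V) (t : V) (X : Finset V) (ht : t ∈ X)
    (hdeg : (nbr G t).card ≤ k) (R' : Finset V) (hd : Disjoint R' X)
    (h : Good k (G ⊔ clq (nbr G t \ X)) R') : ∃ R : Finset V, Good k G R ∧ R.card = R'.card + 1 := by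
  have hRX : ∀ r ∈ R', r ∉ X := fun r hr => Finset.disjoint_left.1 hd hr
  have htR : t ∉ R' := fun h => hRX t h ht
  refine ⟨insert t R', Good.add_one h htR ((card_le_card sdiff_subset).trans hdeg) ?_,
    card_insert_of_notMem htR⟩
  intro r hr hadj
  exact mem_sdiff.2 ⟨mem_nbr.2 hadj, hRX r hr⟩

theorem glue_two {k : ℕ} (G : SimpleGraph V) (u v : V) (X : Finset V) (hu : u ∈ X) (hv : v ∈ X)
    (huv : u ≠ v) (hna : ¬ G.Adj u v) (hdu : (nbr G u).card ≤ k) (hdv : (nbr G v).card ≤ k)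
    (R' : Finset V) (hd : Disjoint R' X)
    (h : Good k (G ⊔ clq (nbr G u \ X) ⊔ clq (nbr G v \ X)) R') :
    ∃ R : Finset V, Good k G R ∧ R.card = R'.card + 2 := by
  have hRX : ∀ r ∈ R', r ∉ X := fun r hr => Finset.disjoint_left.1 hd hr
  have huR : u ∉ R' := fun h => hRX u h hu
  have hvR : v ∉ R' := fun h => hRX v h hv
  refine ⟨insert u (insert v R'), Good.add_two_nonadj h huR hvR huv hna
    ((card_le_card sdiff_subset).trans hdu) ((card_le_card sdiff_subset).trans hdv)
    (fun r hr hadj => mem_sdiff.2 ⟨mem_nbr.2 hadj, hRX r hr⟩)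
    (fun r hr hadj => mem_sdiff.2 ⟨mem_nbr.2 hadj, hRX r hr⟩), ?_⟩
  rw [card_insert_of_notMem, card_insert_of_notMem hvR]
  rw [mem_insert, not_or]
  exact ⟨huv, huR⟩

theorem glue_adj {k : ℕ} (G : SimpleGraph V) (u v : V) (X : Finset V) (hu : u ∈ X) (hv : v ∈ X)
    (huv : u ≠ v) (hdk : (nbr G u).card + (nbr G v).card + 1 ≤ k)
    (R' : Finset V) (hd : Disjoint R' X)
    (h : Good k (G ⊔ clq ((nbr G u ∪ nbr G v) \ X)) R') :
    ∃ R : Finset V, Good k G R ∧ R.card = R'.card + 2 := by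
  have hRX : ∀ r ∈ R', r ∉ X := fun r hr => Finset.disjoint_left.1 hd hr
  have huR : u ∉ R' := fun h => hRX u h hu
  have hvR : v ∉ R' := fun h => hRX v h hv
  refine ⟨insert u (insert v R'), Good.add_two_adj h huR hvR huv ?_ ?_, ?_⟩
  · have h1 := card_le_card (sdiff_subset : (nbr G u ∪ nbr G v) \ X ⊆ nbr G u ∪ nbr G v)
    have h2 := card_union_le (nbr G u) (nbr G v)
    omega
  · intro r hr hadj
    refine mem_sdiff.2 ⟨?_, hRX r hr⟩
    rcases hadj with hadj | hadj
    · exact mem_union_left _ (mem_nbr.2 hadj)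
    · exact mem_union_right _ (mem_nbr.2 hadj)
  · rw [card_insert_of_notMem, card_insert_of_notMem hvR]
    rw [mem_insert, not_or]
    exact ⟨huv, huR⟩

theorem glue_set {k C0 : ℕ} (hk : C0 ≤ k) (G : SimpleGraph V) (T : Finset V) (hT : T.card ≤ C0)
    (R' : Finset V) (hd : Disjoint R' (cN G T)) (h : Good k G R') :
    ∃ R : Finset V, Good k G R ∧ R.card = R'.card + T.card := by
  have hRX : ∀ r ∈ R', r ∉ cN G T := fun r hr => Finset.disjoint_left.1 hd hr
  have hdis : Disjoint T R' := by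
    rw [Finset.disjoint_left]
    intro t ht hr
    exact hRX t hr (mem_cN.2 ⟨t, ht, self_mem_cn G t⟩)
  refine ⟨T ∪ R', Good.add_set h (hT.trans hk) hdis ?_, ?_⟩
  · intro t ht r hr hadj
    exact hRX r hr (mem_cN.2 ⟨t, ht, mem_cn.2 (Or.inr hadj)⟩)
  · rw [card_union_of_disjoint hdis, add_comm]

theorem addH1 (G H : SimpleGraph V) (w : V → ℝ) (hw : ∀ v, 0 ≤ w v) (X Q : Finset V)
    (hH : H = G ⊔ clq Q) :
    (∑ u ∈ Xᶜ, ∑ v ∈ Xᶜ, if H.Adj u v ∧ ¬ G.Adj u v then w u * w v else 0) ≤ miss G w Q := by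
  subst hH
  refine le_trans (le_of_eq ?_) (rem_add1 G w hw X Q)
  refine sum_congr rfl fun u _ => sum_congr rfl fun v _ => ?_
  split_ifs <;> rfl

theorem addH2 (G H : SimpleGraph V) (w : V → ℝ) (hw : ∀ v, 0 ≤ w v) (X Q Q' : Finset V)
    (hH : H = G ⊔ clq Q ⊔ clq Q') :
    (∑ u ∈ Xᶜ, ∑ v ∈ Xᶜ, if H.Adj u v ∧ ¬ G.Adj u v then w u * w v else 0) ≤
      miss G w Q + miss G w Q' := by
  subst hH
  refine le_trans (le_of_eq ?_) (rem_add2 G w hw X Q Q')
  refine sum_congr rfl fun u _ => sum_congr rfl fun v _ => ?_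
  split_ifs <;> rfl

theorem L_le (G : SimpleGraph V) {w : V → ℝ} {η w0 : ℝ} (hη : 0 < η) (hw0 : 0 < w0)
    (hw0η : w0 ≤ η)
    (h0 : ∀ v, 0 ≤ w v) (hhi : ∀ v, 2 * w v ≤ η) (X : Finset V) :
    ee G w X X + ∑ v ∈ X, (2 * w v ^ 2 + 2 * η * (w v - w0) + 2 * w0 ^ 2) ≤
      ee G w X X + 3 * η * nu w X := by
  have h1 : ∑ v ∈ X, (2 * w v ^ 2 + 2 * η * (w v - w0) + 2 * w0 ^ 2) ≤ 3 * η * nu w X := by
    unfold nu
    rw [mul_sum]
    refine sum_le_sum fun v _ => ?_
    have h2 : 2 * w v ^ 2 ≤ η * w v := by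
      have := mul_le_mul_of_nonneg_right (hhi v) (h0 v)
      nlinarith
    have h3 : 0 < η * w0 := mul_pos hη hw0
    nlinarith
  linarith

end INDXM

open INDXM in
theorem indx (η w0 β δ : ℝ) (k C0 : ℕ) (hη : η = 1 / 10 ^ 39) (hw0 : 0 < w0)
    (hβ : β = w0 * Real.exp (2 / η)) (hβ1 : β ≤ 1 / 10 ^ 200) (hδ : 0 ≤ δ) (hδη : δ ≤ η)
    (hk : C0 ≤ k) (hk2 : 4 / w0 ≤ k)
    (final : ∀ (V : Type) [Fintype V] [DecidableEq V] (G : SimpleGraph V) (w : V → ℝ),
      NG G w w0 β η C0 → (∀ v, (nbr G v).card + 1 ≤ k) →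
      ∃ R : Finset V, Good k G R ∧ (1 + δ) * FK η w0 G w ≤ R.card) :
    ∀ (V : Type) [Fintype V] [DecidableEq V] (G : SimpleGraph V),
      ∃ R : Finset V, Good k G R ∧
        ∀ u : V → ℝ, (∀ v, 0 ≤ u v ∧ u v ≤ 1) → (1 + δ) * FK η w0 G u ≤ R.card := by
  have hη0 : 0 < η := by rw [hη]; positivity
  have hexp2 : (2 : ℝ) ≤ Real.exp (2 / η) := by
    have h1 := Real.add_one_le_exp (2 / η)
    have h2 : (1 : ℝ) ≤ 2 / η := by
      rw [le_div_iff₀ hη0, hη]; norm_num
    linarith
  have hexp : (1 : ℝ) ≤ Real.exp (2 / η) := by linarith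
  have hw0β : w0 ≤ β := by
    rw [hβ]
    nlinarith
  have hw0s : w0 ≤ 1 / 10 ^ 200 := hw0β.trans hβ1
  have hw0h : w0 ≤ 1 / 2 := hw0s.trans (by norm_num)
  have hβw : 2 * w0 ≤ β := by
    rw [hβ]
    nlinarith
  have hw0η : w0 ≤ η := by
    refine hw0s.trans ?_
    rw [hη]; norm_num
  have hβη : 2 * β ≤ η := by
    rw [hη]
    have : (2 : ℝ) * (1 / 10 ^ 200) ≤ 1 / 10 ^ 39 := by norm_num
    linarith
  have hinv : (1 : ℝ) ≤ 1 / w0 := by
    rw [le_div_iff₀ hw0]
    linarith
  have main : ∀ n : ℕ, ∀ (V : Type) [Fintype V] [DecidableEq V] (G : SimpleGraph V),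
      Fintype.card V = n → ∃ R : Finset V, Good k G R ∧
        ∀ u : V → ℝ, (∀ v, 0 ≤ u v ∧ u v ≤ 1) → (1 + δ) * FK η w0 G u ≤ R.card := by
    intro n
    induction n using Nat.strong_induction_on with
    | _ n ih =>
      intro V _ _ G hn
      obtain ⟨w, hw, hmax, hfoc⟩ := optx η w0 hη0 hw0 hw0h G
      by_contra hcon
      have hno : ∀ R : Finset V, Good k G R → (R.card : ℝ) < (1 + δ) * FK η w0 G w := by
        intro R hR
        by_contra h
        refine hcon ⟨R, hR, fun u hu => ?_⟩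
        exact (mul_le_mul_of_nonneg_left (hmax u hu) (by linarith)).trans (not_lt.1 h)
      have ih' : ∀ (V' : Type) [Fintype V'] [DecidableEq V'] (G' : SimpleGraph V'),
          Fintype.card V' < Fintype.card V → ∃ R : Finset V', Good k G' R ∧
          ∀ u : V' → ℝ, (∀ v, 0 ≤ u v ∧ u v ≤ 1) → (1 + δ) * FK η w0 G' u ≤ R.card :=
        fun V' _ _ G' h => ih (Fintype.card V') (hn ▸ h) V' G' rfl
      have w0' : ∀ v, 0 ≤ w v := fun v => (hw v).1.le
      have step := gstep η w0 δ hw0 hδ k G w hw hfoc ih' hno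
      have addG : ∀ X : Finset V,
          (∑ u ∈ Xᶜ, ∑ v ∈ Xᶜ, if G.Adj u v ∧ ¬ G.Adj u v then w u * w v else 0) = 0 := by
        intro X
        refine sum_eq_zero fun u _ => sum_eq_zero fun v _ => ?_
        rw [if_neg]
        exact fun h => h.2 h.1
      -- the deletion of one vertex
      have hquad : ∀ v, 0 < w v ^ 2 + w0 ^ 2 + η * (w v - w0) := by
        intro v
        have h1 := step {v} (singleton_nonempty v) G le_rfl 0 (fun R' _ h => ⟨R', h, rfl⟩)
        rw [addG {v}, sum_singleton] at h1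
        have h2 : ee G w {v} {v} = 0 := by simp [ee]
        rw [h2] at h1
        push_cast at h1
        have h3 : 0 < 1 + δ := by linarith
        by_contra hc
        have h4 : 4 * (0 + (2 * w v ^ 2 + 2 * η * (w v - w0) + 2 * w0 ^ 2) + 0) ≤ 0 := by linarith
        have h5 := mul_nonpos_of_nonneg_of_nonpos h3.le h4
        linarith
      have wlo : ∀ v, w0 * (99 / 100) ≤ w v := by
        intro v
        by_contra hc
        have hc' := not_le.1 hc
        have h1 := hquad v
        have h2 : w v ^ 2 ≤ w0 * (1 / 10 ^ 200) := by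
          have h3 : w v ≤ w0 := by linarith
          calc w v ^ 2 = w v * w v := by ring
            _ ≤ w0 * w0 := mul_le_mul h3 h3 (w0' v) hw0.le
            _ ≤ _ := mul_le_mul_of_nonneg_left hw0s hw0.le
        have h3 : η * (w v - w0) ≤ η * (-(w0 / 100)) :=
          mul_le_mul_of_nonneg_left (by linarith) hη0.le
        have h2' : w0 ^ 2 ≤ w0 * (1 / 10 ^ 200) := by
          rw [sq]; exact mul_le_mul_of_nonneg_left hw0s hw0.le
        have h4 : 2 * (w0 * (1 / 10 ^ 200)) + η * (-(w0 / 100)) ≤ 0 := by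
          rw [hη]
          have : 2 * (w0 * (1 / 10 ^ 200)) + 1 / 10 ^ 39 * (-(w0 / 100)) =
              w0 * (2 / 10 ^ 200 - 1 / 10 ^ 41) := by ring
          rw [this]
          exact mul_nonpos_of_nonneg_of_nonpos hw0.le (by norm_num)
        linarith
      have hν : ∀ v, 0 ≤ nu w (nbr G v) := fun v => nu_nonneg w0' _
      have whi : ∀ v, w v ≤ β := by
        intro v
        have h1 := (abs_le.1 (hfoc v)).2
        have h2 : Real.log (w v / w0) ≤ 2 / η := by
          rw [le_div_iff₀ hη0]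
          have := (hw v).1
          linarith [hν v]
        have h3 : w v / w0 ≤ Real.exp (2 / η) := by
          rwa [← Real.log_le_iff_le_exp (div_pos (hw v).1 hw0)]
        rw [div_le_iff₀ hw0] at h3
        rw [hβ]
        linarith
      have hcn : ∀ v, nu w (cn G v) ≤ 1 + 3 * w0 := by
        intro v
        have h1 := (abs_le.1 (hfoc v)).2
        have hwl := wlo v
        have h2 : nu w (cn G v) = w v + nu w (nbr G v) := by
          unfold nu cn
          rw [sum_insert (not_mem_nbr_self G v)]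
        have hwv := (hw v).1
        have h3 : - Real.log (w v / w0) ≤ w0 / w v - 1 := by
          rw [← Real.log_inv, inv_div]
          exact Real.log_le_sub_one_of_pos (div_pos hw0 hwv)
        have h4 : η * (w0 / w v - 1) ≤ w v + 2 * w0 := by
          have h5 : w0 / w v - 1 = (w0 - w v) / w v := by field_simp
          rw [h5, ← mul_div_assoc, div_le_iff₀ hwv]
          have h6 : w0 ^ 2 ≤ 2 * w0 * w v := by nlinarith
          nlinarith [hquad v]
        have h5 := mul_le_mul_of_nonneg_left h3 hη0.le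
        rw [h2]
        linarith
      have hnb1 : ∀ v, nu w (nbr G v) ≤ 1 + 3 * w0 := fun v =>
        (nu_mono w0' (nbr_subset_cn G v)).trans (hcn v)
      have hdeg : ∀ v, ((nbr G v).card : ℝ) ≤ 3 / 2 * (1 / w0) := by
        intro v
        have h1 := card_mul_le (w := w) (nbr G v) (fun u _ => wlo u)
        have h2 := hnb1 v
        rw [← mul_div_assoc, le_div_iff₀ hw0]
        nlinarith
      have h4w : 4 * (1 / w0) ≤ (k : ℝ) := by
        have : 4 * (1 / w0) = 4 / w0 := by ring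
        rw [this]; exact hk2
      have hdk2 : ∀ u v, (nbr G u).card + (nbr G v).card + 1 ≤ k := by
        intro u v
        have h1 := hdeg u
        have h2 := hdeg v
        have : (((nbr G u).card + (nbr G v).card + 1 : ℕ) : ℝ) ≤ (k : ℝ) := by
          push_cast
          linarith
        exact_mod_cast this
      have hdk : ∀ v, (nbr G v).card + 1 ≤ k := fun v => by
        have := hdk2 v v
        omega
      -- the main step
      have hfac : (1 - η) * (1 + δ) ≤ 1 := by nlinarith [sq_nonneg η]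
      have h1η : 0 ≤ 1 - η := by
        rw [hη]; norm_num
      have mstep : ∀ (X : Finset V), X.Nonempty → ∀ H : SimpleGraph V, G ≤ H → ∀ (t : ℕ) (M : ℝ),
          0 ≤ M → (∑ u ∈ Xᶜ, ∑ v ∈ Xᶜ, if H.Adj u v ∧ ¬ G.Adj u v then w u * w v else 0) ≤ M →
          (∀ R' : Finset V, Disjoint R' X → Good k H R' →
            ∃ R : Finset V, Good k G R ∧ R.card = R'.card + t) →
          (1 - η) * t ≤ 4 * (ee G w X X + 3 * η * nu w X + M) := by
        intro X hX H hGH t M hM hadd glue
        have h1 := step X hX H hGH t glue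
        have h2 := L_le G hη0 hw0 hw0η w0' (fun v => by linarith [whi v]) X
        have h3 : 0 ≤ ee G w X X + 3 * η * nu w X + M := by
          have := ee_nonneg (G := G) w0' X X
          have := nu_nonneg w0' X
          positivity
        have h4 : (t : ℝ) ≤ (1 + δ) * (4 * (ee G w X X + 3 * η * nu w X + M)) := by
          refine h1.le.trans (mul_le_mul_of_nonneg_left ?_ (by linarith))
          linarith
        calc (1 - η) * (t : ℝ) ≤ (1 - η) * ((1 + δ) * (4 * (ee G w X X + 3 * η * nu w X + M))) :=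
              mul_le_mul_of_nonneg_left h4 h1η
          _ = ((1 - η) * (1 + δ)) * (4 * (ee G w X X + 3 * η * nu w X + M)) := by ring
          _ ≤ 1 * (4 * (ee G w X X + 3 * η * nu w X + M)) :=
              mul_le_mul_of_nonneg_right hfac (by linarith)
          _ = _ := by ring
      have hNG : NG G w w0 β η C0 :=
        { hη := hη
          w0pos := hw0
          w0β := hw0β
          βsm := hβ1
          wlo := wlo
          whi := whi
          foc := hfoc
          cls := fun v => by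
            have := hcn v
            linarith
          ng1 := by
            intro T hT hTc
            obtain ⟨t, ht⟩ := hT
            have h1 := mstep (cN G T) ⟨t, mem_cN.2 ⟨t, ht, self_mem_cn G t⟩⟩ G le_rfl T.card 0 le_rfl
              (addG _).le (fun R' hd h => glue_set hk G T hTc R' hd h)
            rwa [add_zero] at h1
          ng2 := by
            intro t X ht
            have h1 := mstep X ⟨t, ht⟩ (G ⊔ clq (nbr G t \ X)) le_sup_left 1
              (miss G w (nbr G t \ X)) (miss_nonneg w0' _) (addH1 G _ w w0' X _ rfl)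
              (fun R' hd h => glue_one G t X ht (by have := hdk t; omega) R' hd h)
            rwa [Nat.cast_one, mul_one] at h1
          ng3a := by
            intro u v X hu hv huv hna
            have h1 := mstep X ⟨u, hu⟩ (G ⊔ clq (nbr G u \ X) ⊔ clq (nbr G v \ X))
              (le_sup_left.trans le_sup_left) 2
              (miss G w (nbr G u \ X) + miss G w (nbr G v \ X))
              (add_nonneg (miss_nonneg w0' _) (miss_nonneg w0' _)) (addH2 G _ w w0' X _ _ rfl)
              (fun R' hd h => glue_two G u v X hu hv huv hna (by have := hdk u; omega)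
                (by have := hdk v; omega) R' hd h)
            rw [Nat.cast_ofNat] at h1
            linarith
          ng3b := by
            intro u v X hu hv huv
            have h1 := mstep X ⟨u, hu⟩ (G ⊔ clq ((nbr G u ∪ nbr G v) \ X)) le_sup_left 2
              (miss G w ((nbr G u ∪ nbr G v) \ X)) (miss_nonneg w0' _) (addH1 G _ w w0' X _ rfl)
              (fun R' hd h => glue_adj G u v X hu hv (G.ne_of_adj huv) (hdk2 u v) R' hd h)
            rwa [Nat.cast_ofNat] at h1 }
      obtain ⟨R, hR, hR'⟩ := final V G w hNG hdk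
      exact absurd (hno R hR) (not_lt.2 hR')
  intro V _ _ G
  exact main (Fintype.card V) V G rfl

end Pool.Agent.Lib.MP_4d044e_co.TX
end
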