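import Pool.Agent.Lib.MP_4d044e_co.TX.Defs
import Pool.Agent.Lib.MP_4d044e_co.TW.AVG

/-!
Section 3 of the blueprint: for every centre `z` fewer than `K` vertices `y` are cheap.
-/

set_option autoImplicit false

namespace Pool.Agent.Lib.MP_4d044e_co.TX

open Pool.Agent.Lib.MP_4d044e_co.TW

open Finset
open scoped Classical

namespace STAR

variable {V : Type} [Fintype V] [DecidableEq V]

/-! ### elementary facts on `ee` -/

theorem ee_nonneg (G : SimpleGraph V) (w : V → ℝ) (hw : ∀ v, 0 ≤ w v) (X Y : Finset V) :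
    0 ≤ ee G w X Y := by
  unfold ee
  refine Finset.sum_nonneg fun u _ => Finset.sum_nonneg fun v _ => ?_
  split_ifs
  · exact mul_nonneg (hw u) (hw v)
  · exact le_refl 0

theorem ee_comm (G : SimpleGraph V) (w : V → ℝ) (X Y : Finset V) : ee G w X Y = ee G w Y X := by
  unfold ee
  rw [Finset.sum_comm]
  refine Finset.sum_congr rfl fun u _ => Finset.sum_congr rfl fun v _ => ?_
  by_cases h : G.Adj u v
  · rw [if_pos h, if_pos h.symm, mul_comm]
  · rw [if_neg h, if_neg (fun h' => h h'.symm)]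

theorem ee_mono (G : SimpleGraph V) (w : V → ℝ) (hw : ∀ v, 0 ≤ w v) {X X' Y Y' : Finset V}
    (hX : X ⊆ X') (hY : Y ⊆ Y') : ee G w X Y ≤ ee G w X' Y' := by
  have hn : ∀ u v, 0 ≤ (if G.Adj u v then w u * w v else 0) := by
    intro u v
    split_ifs
    · exact mul_nonneg (hw u) (hw v)
    · exact le_refl 0
  unfold ee
  refine (Finset.sum_le_sum fun u _ => Finset.sum_le_sum_of_subset_of_nonneg hY
    (fun v _ _ => hn u v)).trans ?_
  exact Finset.sum_le_sum_of_subset_of_nonneg hX
    (fun u _ _ => Finset.sum_nonneg fun v _ => hn u v)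

theorem ee_union_left (G : SimpleGraph V) (w : V → ℝ) (hw : ∀ v, 0 ≤ w v) (X X' Y : Finset V) :
    ee G w (X ∪ X') Y ≤ ee G w X Y + ee G w X' Y := by
  unfold ee
  have h := Finset.sum_union_inter (s₁ := X) (s₂ := X')
    (f := fun u => ∑ v ∈ Y, if G.Adj u v then w u * w v else 0)
  have h0 : 0 ≤ ∑ u ∈ X ∩ X', ∑ v ∈ Y, (if G.Adj u v then w u * w v else 0) := by
    refine Finset.sum_nonneg fun u _ => Finset.sum_nonneg fun v _ => ?_
    split_ifs
    · exact mul_nonneg (hw u) (hw v)
    · exact le_refl 0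
  linarith

theorem ee_union_right (G : SimpleGraph V) (w : V → ℝ) (hw : ∀ v, 0 ≤ w v) (X Y Y' : Finset V) :
    ee G w X (Y ∪ Y') ≤ ee G w X Y + ee G w X Y' := by
  rw [ee_comm G w X (Y ∪ Y'), ee_comm G w X Y, ee_comm G w X Y']
  exact ee_union_left G w hw Y Y' X

theorem ee_biUnion_left (G : SimpleGraph V) (w : V → ℝ) (hw : ∀ v, 0 ≤ w v) (Y : Finset V)
    (S : Finset V) (A : V → Finset V) :
    ee G w (S.biUnion A) Y ≤ ∑ s ∈ S, ee G w (A s) Y := by
  induction S using Finset.induction_on with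
  | empty => simp [ee]
  | insert a S ha ih =>
    rw [Finset.biUnion_insert, Finset.sum_insert ha]
    refine (ee_union_left G w hw _ _ _).trans ?_
    linarith

theorem ee_biUnion_right (G : SimpleGraph V) (w : V → ℝ) (hw : ∀ v, 0 ≤ w v) (X : Finset V)
    (S : Finset V) (A : V → Finset V) :
    ee G w X (S.biUnion A) ≤ ∑ s ∈ S, ee G w X (A s) := by
  rw [ee_comm]
  refine (ee_biUnion_left G w hw X S A).trans (le_of_eq ?_)
  exact Finset.sum_congr rfl fun s _ => ee_comm _ _ _ _

theorem nu_union_le (w : V → ℝ) (hw : ∀ v, 0 ≤ w v) (X Y : Finset V) :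
    nu w (X ∪ Y) ≤ nu w X + nu w Y := by
  unfold nu
  have h := Finset.sum_union_inter (s₁ := X) (s₂ := Y) (f := w)
  have h0 : 0 ≤ ∑ u ∈ X ∩ Y, w u := Finset.sum_nonneg fun u _ => hw u
  linarith

theorem nu_biUnion_le (w : V → ℝ) (hw : ∀ v, 0 ≤ w v) (S : Finset V) (A : V → Finset V) :
    nu w (S.biUnion A) ≤ ∑ s ∈ S, nu w (A s) := by
  induction S using Finset.induction_on with
  | empty => simp [nu]
  | insert a S ha ih =>
    rw [Finset.biUnion_insert, Finset.sum_insert ha]
    refine (nu_union_le w hw _ _).trans ?_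
    linarith

theorem nu_cN_le (G : SimpleGraph V) (w : V → ℝ) (hw : ∀ v, 0 ≤ w v)
    (hc : ∀ v, nu w (cn G v) ≤ 11 / 10) (T : Finset V) :
    nu w (cN G T) ≤ 11 / 10 * T.card := by
  refine (nu_biUnion_le w hw T (cn G)).trans ?_
  refine (Finset.sum_le_sum fun s _ => hc s).trans ?_
  rw [Finset.sum_const, nsmul_eq_mul, mul_comm]

/-- `ee X univ ≤ (11/10) nu X` -/
theorem ee_le_nu (G : SimpleGraph V) (w : V → ℝ) (hw : ∀ v, 0 ≤ w v)
    (hc : ∀ v, nu w (cn G v) ≤ 11 / 10) (X Y : Finset V) :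
    ee G w X Y ≤ 11 / 10 * nu w X := by
  unfold ee nu
  rw [Finset.mul_sum]
  refine Finset.sum_le_sum fun u _ => ?_
  have h1 : ∑ v ∈ Y, (if G.Adj u v then w u * w v else 0) ≤ w u * nu w (cn G u) := by
    have h2 : ∑ v ∈ Y, (if G.Adj u v then w u * w v else 0)
        = w u * ∑ v ∈ Y.filter (fun v => G.Adj u v), w v := by
      rw [Finset.sum_filter, Finset.mul_sum]
      refine Finset.sum_congr rfl fun v _ => ?_
      split_ifs <;> simp
    rw [h2]
    refine mul_le_mul_of_nonneg_left ?_ (hw u)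
    unfold nu
    refine Finset.sum_le_sum_of_subset_of_nonneg ?_ (fun v _ _ => hw v)
    intro v hv
    rw [Finset.mem_filter] at hv
    unfold cn nbr
    rw [Finset.mem_insert, Finset.mem_filter]
    exact Or.inr ⟨Finset.mem_univ v, hv.2⟩
  refine h1.trans ?_
  have := mul_le_mul_of_nonneg_left (hc u) (hw u)
  linarith

/-! ### the energy argument -/

/-- number of `y ∈ L` with `v ∈ N[y]` -/
noncomputable def cnt (G : SimpleGraph V) (L : Finset V) (v : V) : ℝ :=
  ((L.filter (fun y => v ∈ cn G y)).card : ℝ)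

theorem cnt_nonneg (G : SimpleGraph V) (L : Finset V) (v : V) : 0 ≤ cnt G L v :=
  Nat.cast_nonneg _

/-- double counting -/
theorem sum_cnt (G : SimpleGraph V) (L D : Finset V) (F : V → ℝ) :
    ∑ y ∈ L, ∑ v ∈ cn G y \ D, F v = ∑ v ∈ univ \ D, cnt G L v * F v := by
  have h1 : ∀ y ∈ L, ∑ v ∈ cn G y \ D, F v
      = ∑ v ∈ univ \ D, if v ∈ cn G y then F v else 0 := by
    intro y _
    rw [← Finset.sum_filter]
    refine Finset.sum_congr ?_ fun _ _ => rfl
    ext v
    simp only [Finset.mem_sdiff, Finset.mem_filter, Finset.mem_univ, true_and]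
    tauto
  rw [Finset.sum_congr rfl h1, Finset.sum_comm]
  refine Finset.sum_congr rfl fun v _ => ?_
  rw [← Finset.sum_filter, Finset.sum_const, nsmul_eq_mul]
  rfl

theorem sum_cnt_nu (G : SimpleGraph V) (w : V → ℝ) (L : Finset V) :
    ∑ v, w v * cnt G L v = ∑ y ∈ L, nu w (cn G y) := by
  have h := sum_cnt G L ∅ w
  simp only [Finset.sdiff_empty] at h
  unfold nu
  rw [h]
  exact Finset.sum_congr rfl fun v _ => mul_comm _ _

/-- weight of the new neighbours of `u` -/
noncomputable def gain (G : SimpleGraph V) (w : V → ℝ) (L D : Finset V) (u : V) : ℝ :=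
  ∑ v ∈ univ \ D, if G.Adj u v then w v * cnt G L v else 0

theorem sum_al (G : SimpleGraph V) (w : V → ℝ) (L D : Finset V) :
    ∑ y ∈ L, ee G w (cn G y \ D) D = ∑ u ∈ D, w u * gain G w L D u := by
  unfold ee
  rw [sum_cnt G L D (fun v => ∑ u ∈ D, if G.Adj v u then w v * w u else 0)]
  simp_rw [Finset.mul_sum]
  rw [Finset.sum_comm]
  refine Finset.sum_congr rfl fun u _ => ?_
  unfold gain
  rw [Finset.mul_sum]
  refine Finset.sum_congr rfl fun v _ => ?_
  by_cases h : G.Adj u v
  · rw [if_pos h, if_pos h.symm]; ring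
  · rw [if_neg h, if_neg (fun h' => h h'.symm)]; ring

theorem sum_be (G : SimpleGraph V) (w : V → ℝ) (L D : Finset V) :
    ∑ y ∈ L, ∑ y' ∈ L, ee G w (cn G y \ D) (cn G y' \ D)
      = ∑ u ∈ univ \ D, (w u * cnt G L u) * gain G w L D u := by
  have h1 : ∀ y ∈ L, ∑ y' ∈ L, ee G w (cn G y \ D) (cn G y' \ D)
      = ∑ u ∈ cn G y \ D, w u * gain G w L D u := by
    intro y _
    unfold ee
    rw [Finset.sum_comm]
    refine Finset.sum_congr rfl fun u _ => ?_
    rw [sum_cnt G L D (fun v => if G.Adj u v then w u * w v else 0)]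
    unfold gain
    rw [Finset.mul_sum]
    refine Finset.sum_congr rfl fun v _ => ?_
    by_cases h : G.Adj u v
    · rw [if_pos h, if_pos h]; ring
    · rw [if_neg h, if_neg h]; ring
  rw [Finset.sum_congr rfl h1, sum_cnt G L D (fun u => w u * gain G w L D u)]
  refine Finset.sum_congr rfl fun u _ => ?_
  ring

/-- covered weight -/
noncomputable def cov (G : SimpleGraph V) (w : V → ℝ) (L W : Finset V) : ℝ :=
  ∑ v ∈ cN G W, w v * cnt G L v

theorem cov_insert (G : SimpleGraph V) (w : V → ℝ) (hw : ∀ v, 0 ≤ w v) (L W : Finset V) (u : V) :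
    cov G w L W + gain G w L (cN G W) u ≤ cov G w L (insert u W) := by
  unfold cov gain
  have h1 : (∑ v ∈ univ \ cN G W, if G.Adj u v then w v * cnt G L v else 0)
      = ∑ v ∈ (univ \ cN G W).filter (fun v => G.Adj u v), w v * cnt G L v := by
    rw [Finset.sum_filter]
  rw [h1, ← Finset.sum_union]
  · refine Finset.sum_le_sum_of_subset_of_nonneg ?_
      (fun v _ _ => mul_nonneg (hw v) (cnt_nonneg G L v))
    intro v hv
    unfold cN at *
    rw [Finset.biUnion_insert, Finset.mem_union]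
    rw [Finset.mem_union] at hv
    rcases hv with hv | hv
    · exact Or.inr hv
    · left
      rw [Finset.mem_filter] at hv
      unfold cn nbr
      rw [Finset.mem_insert, Finset.mem_filter]
      exact Or.inr ⟨Finset.mem_univ v, hv.2⟩
  · rw [Finset.disjoint_left]
    intro v hv hv'
    rw [Finset.mem_filter, Finset.mem_sdiff] at hv'
    exact hv'.1.2 hv

/-- one step of the energy increment -/
theorem step (G : SimpleGraph V) (w : V → ℝ) (hw : ∀ v, 0 ≤ w v)
    (hc : ∀ v, nu w (cn G v) ≤ 11 / 10) (c : ℝ) (hc0 : 0 < c) (L W : Finset V)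
    (hL : L.Nonempty) (hWn : W.Nonempty) (k : ℝ) (hk : 0 < k)
    (h : ¬ (∑ y ∈ L, ee G w (cn G y \ cN G W) (cN G W) ≤ c / 32 * L.card ∧
      ∑ y ∈ L, ∑ y' ∈ L, ee G w (cn G y \ cN G W) (cn G y' \ cN G W)
        ≤ c / (64 * k) * (L.card : ℝ) ^ 2)) :
    ∃ u, min (c / (64 * W.card)) (c / (128 * k)) * L.card < gain G w L (cN G W) u := by
  by_contra hcon
  push Not at hcon
  have hLc : (0 : ℝ) < L.card := by exact_mod_cast hL.card_pos
  have hWc : (0 : ℝ) < W.card := by exact_mod_cast hWn.card_pos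
  apply h
  constructor
  · rw [sum_al]
    have h1 : ∀ u ∈ cN G W, w u * gain G w L (cN G W) u
        ≤ w u * (c / (64 * W.card) * L.card) := by
      intro u _
      refine mul_le_mul_of_nonneg_left ((hcon u).trans ?_) (hw u)
      exact mul_le_mul_of_nonneg_right (min_le_left _ _) hLc.le
    refine (Finset.sum_le_sum h1).trans ?_
    rw [← Finset.sum_mul]
    have h2 := nu_cN_le G w hw hc W
    have h3 : (∑ u ∈ cN G W, w u) * (c / (64 * W.card) * L.card)
        ≤ (11 / 10 * W.card) * (c / (64 * W.card) * L.card) := by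
      refine mul_le_mul_of_nonneg_right h2 ?_
      positivity
    refine h3.trans ?_
    have h4 : (11 / 10 * (W.card : ℝ)) * (c / (64 * W.card) * L.card)
        = 11 / 640 * c * L.card := by
      field_simp
      ring
    rw [h4]
    have : 0 < c * L.card := mul_pos hc0 hLc
    nlinarith
  · rw [sum_be]
    have h1 : ∀ u ∈ univ \ cN G W, (w u * cnt G L u) * gain G w L (cN G W) u
        ≤ (w u * cnt G L u) * (c / (128 * k) * L.card) := by
      intro u _
      refine mul_le_mul_of_nonneg_left ((hcon u).trans ?_)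
        (mul_nonneg (hw u) (cnt_nonneg G L u))
      exact mul_le_mul_of_nonneg_right (min_le_right _ _) hLc.le
    refine (Finset.sum_le_sum h1).trans ?_
    rw [← Finset.sum_mul]
    have h2 : ∑ u ∈ univ \ cN G W, w u * cnt G L u ≤ 11 / 10 * L.card := by
      have h3 : ∑ u ∈ univ \ cN G W, w u * cnt G L u ≤ ∑ u, w u * cnt G L u :=
        Finset.sum_le_sum_of_subset_of_nonneg (Finset.subset_univ _)
          (fun v _ _ => mul_nonneg (hw v) (cnt_nonneg G L v))
      refine h3.trans ?_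
      rw [sum_cnt_nu]
      refine (Finset.sum_le_sum fun y _ => hc y).trans ?_
      rw [Finset.sum_const, nsmul_eq_mul, mul_comm]
    have h3 : (∑ u ∈ univ \ cN G W, w u * cnt G L u) * (c / (128 * k) * L.card)
        ≤ (11 / 10 * L.card) * (c / (128 * k) * L.card) := by
      refine mul_le_mul_of_nonneg_right h2 ?_
      positivity
    refine h3.trans ?_
    have h4 : (11 / 10 * (L.card : ℝ)) * (c / (128 * k) * L.card)
        = 11 / 20 * (c / (64 * k) * (L.card : ℝ) ^ 2) := by
      field_simp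
      ring
    rw [h4]
    have : 0 < c / (64 * k) * (L.card : ℝ) ^ 2 := by positivity
    linarith

/-- `k_n = ⌈8 n / c⌉` -/
noncomputable def kk (c : ℝ) (n : ℕ) : ℕ := ⌈8 * (n : ℝ) / c⌉₊

theorem kk_mono (c : ℝ) (hc0 : 0 < c) {n m : ℕ} (h : n ≤ m) : kk c n ≤ kk c m := by
  unfold kk
  apply Nat.ceil_le_ceil
  have : (n : ℝ) ≤ m := by exact_mod_cast h
  gcongr

theorem kk_lb (c : ℝ) (hc0 : 0 < c) (n : ℕ) : 8 * (n : ℝ) ≤ c * kk c n := by
  have h := Nat.le_ceil (8 * (n : ℝ) / c)
  have h2 := mul_le_mul_of_nonneg_left h hc0.le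
  unfold kk
  have h3 : c * (8 * (n : ℝ) / c) = 8 * n := by field_simp
  linarith

theorem kk_ub (c : ℝ) (hc0 : 0 < c) (hc1 : c ≤ 1) (n : ℕ) (hn : 1 ≤ n) :
    c * kk c n ≤ 9 * (n : ℝ) := by
  have h := (Nat.ceil_lt_add_one (a := 8 * (n : ℝ) / c) (by positivity)).le
  have h2 := mul_le_mul_of_nonneg_left h hc0.le
  unfold kk
  have h3 : c * (8 * (n : ℝ) / c + 1) = 8 * n + c := by field_simp
  have hn' : (1 : ℝ) ≤ n := by exact_mod_cast hn
  linarith

/-- the two stopping conditions -/
def stop (G : SimpleGraph V) (w : V → ℝ) (c : ℝ) (L W : Finset V) : Prop :=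
  ∑ y ∈ L, ee G w (cn G y \ cN G W) (cN G W) ≤ c / 32 * L.card ∧
      ∑ y ∈ L, ∑ y' ∈ L, ee G w (cn G y \ cN G W) (cn G y' \ cN G W)
        ≤ c / (64 * kk c W.card) * (L.card : ℝ) ^ 2

theorem iter (G : SimpleGraph V) (w : V → ℝ) (hw : ∀ v, 0 ≤ w v)
    (hc : ∀ v, nu w (cn G v) ≤ 11 / 10) (c : ℝ) (hc0 : 0 < c) (hc1 : c ≤ 1) (L : Finset V)
    (hL : L.Nonempty) (z : V) (m : ℕ) :
    (∃ W : Finset V, z ∈ W ∧ W.card ≤ m ∧ stop G w c L W) ∨
    (∃ W : Finset V, z ∈ W ∧ W.card = m + 1 ∧
      (c ^ 2 / 2000) * (∑ i ∈ Finset.range m, (1 : ℝ) / ((i : ℝ) + 1)) * L.card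
        ≤ cov G w L W) := by
  induction m with
  | zero =>
    right
    refine ⟨{z}, Finset.mem_singleton_self z, by simp, ?_⟩
    simp only [Finset.range_zero, Finset.sum_empty, mul_zero, zero_mul]
    unfold cov
    exact Finset.sum_nonneg fun v _ => mul_nonneg (hw v) (cnt_nonneg G L v)
  | succ m ih =>
    rcases ih with ⟨W, hz, hcard, hs⟩ | ⟨W, hz, hcard, hcov⟩
    · exact Or.inl ⟨W, hz, by omega, hs⟩
    · by_cases hs : stop G w c L W
      · exact Or.inl ⟨W, hz, by omega, hs⟩
      · right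
        have hn1 : 1 ≤ W.card := by omega
        have hkpos : (0 : ℝ) < kk c W.card := by
          have h1 := kk_lb c hc0 W.card
          have h2 : (1 : ℝ) ≤ W.card := by exact_mod_cast hn1
          have h3 : 0 < c * (kk c W.card : ℝ) := by linarith
          exact (pos_iff_pos_of_mul_pos h3).mp hc0
        obtain ⟨u, hu⟩ := step G w hw hc c hc0 L W hL ⟨z, hz⟩ (kk c W.card) hkpos hs
        have huW : u ∉ W := by
          intro huW
          have h0 : gain G w L (cN G W) u = 0 := by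
            unfold gain
            refine Finset.sum_eq_zero fun v hv => ?_
            rw [if_neg]
            intro hadj
            rw [Finset.mem_sdiff] at hv
            apply hv.2
            unfold cN
            rw [Finset.mem_biUnion]
            refine ⟨u, huW, ?_⟩
            unfold cn nbr
            rw [Finset.mem_insert, Finset.mem_filter]
            exact Or.inr ⟨Finset.mem_univ v, hadj⟩
          rw [h0] at hu
          have hpos : 0 ≤ min (c / (64 * (W.card : ℝ))) (c / (128 * (kk c W.card : ℝ))) * L.card := by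
            refine mul_nonneg (le_min ?_ ?_) (Nat.cast_nonneg _) <;> positivity
          linarith
        refine ⟨insert u W, Finset.mem_insert_of_mem hz, ?_, ?_⟩
        · rw [Finset.card_insert_of_notMem huW]; omega
        · have h1 := cov_insert G w hw L W u
          have hLc : (0 : ℝ) ≤ L.card := Nat.cast_nonneg _
          have hn' : (1 : ℝ) ≤ W.card := by exact_mod_cast hn1
          have hWm : (W.card : ℝ) = (m : ℝ) + 1 := by rw [hcard]; push_cast; ring
          have h2 : c ^ 2 / 2000 * (1 / ((m : ℝ) + 1))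
              ≤ min (c / (64 * W.card)) (c / (128 * kk c W.card)) := by
            rw [← hWm]
            apply le_min
            · rw [mul_one_div, div_div, div_le_div_iff₀ (by positivity) (by positivity)]
              have : c ^ 2 ≤ c := by nlinarith
              have h5 : 0 ≤ (W.card : ℝ) * c := by positivity
              nlinarith
            · rw [mul_one_div, div_div, div_le_div_iff₀ (by positivity) (by positivity)]
              have h6 := kk_ub c hc0 hc1 W.card hn1
              have h7 := mul_le_mul_of_nonneg_left h6 hc0.le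
              have h8 : 0 ≤ c * (W.card : ℝ) := by positivity
              nlinarith
          have h3 := mul_le_mul_of_nonneg_right h2 hLc
          rw [Finset.sum_range_succ]
          have h4 : c ^ 2 / 2000 * (∑ i ∈ Finset.range m, (1 : ℝ) / ((i : ℝ) + 1)
              + 1 / ((m : ℝ) + 1)) * L.card
              = c ^ 2 / 2000 * (∑ i ∈ Finset.range m, (1 : ℝ) / ((i : ℝ) + 1)) * L.card
                + c ^ 2 / 2000 * (1 / ((m : ℝ) + 1)) * L.card := by ring
          rw [h4]
          linarith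

theorem cov_le (G : SimpleGraph V) (w : V → ℝ) (hw : ∀ v, 0 ≤ w v)
    (hc : ∀ v, nu w (cn G v) ≤ 11 / 10) (L W : Finset V) : cov G w L W ≤ 11 / 10 * L.card := by
  have h3 : cov G w L W ≤ ∑ u, w u * cnt G L u :=
    Finset.sum_le_sum_of_subset_of_nonneg (Finset.subset_univ _)
      (fun v _ _ => mul_nonneg (hw v) (cnt_nonneg G L v))
  refine h3.trans ?_
  rw [sum_cnt_nu]
  refine (Finset.sum_le_sum fun y _ => hc y).trans ?_
  rw [Finset.sum_const, nsmul_eq_mul, mul_comm]

/-- the number of steps -/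
theorem exists_n0 (c : ℝ) (hc0 : 0 < c) :
    ∃ n0 : ℕ, 2 < (c ^ 2 / 2000) * (∑ i ∈ Finset.range n0, (1 : ℝ) / ((i : ℝ) + 1)) := by
  have h := Real.tendsto_sum_range_one_div_nat_succ_atTop
  have hpos : 0 < c ^ 2 / 2000 := by positivity
  obtain ⟨n0, hn0⟩ := (h.eventually_gt_atTop (2 / (c ^ 2 / 2000))).exists
  refine ⟨n0, ?_⟩
  have := mul_lt_mul_of_pos_left hn0 hpos
  rwa [mul_div_cancel₀ _ hpos.ne'] at this

theorem exists_W (c : ℝ) (hc0 : 0 < c) (hc1 : c ≤ 1) :
    ∃ n0 : ℕ, ∀ (V : Type) [Fintype V] [DecidableEq V] (G : SimpleGraph V) (w : V → ℝ)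
      (_ : ∀ v, 0 ≤ w v) (_ : ∀ v, nu w (cn G v) ≤ 11 / 10) (L : Finset V) (_ : L.Nonempty)
      (z : V), ∃ W : Finset V, z ∈ W ∧ W.card ≤ n0 ∧ stop G w c L W := by
  obtain ⟨n0, hn0⟩ := exists_n0 c hc0
  refine ⟨n0, ?_⟩
  intro V _ _ G w hw hc L hL z
  rcases iter G w hw hc c hc0 hc1 L hL z n0 with h | ⟨W, _, _, hcov⟩
  · exact h
  · exfalso
    have hLc : (0 : ℝ) < L.card := by exact_mod_cast hL.card_pos
    have h1 := cov_le G w hw hc L W
    have h2 := mul_lt_mul_of_pos_right hn0 hLc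
    nlinarith

end STAR

open STAR

/-- Section 3 of the blueprint. -/
theorem star_gen (c : ℝ) (hc : 1 / 10 ^ 37 ≤ c) (hc1 : c ≤ 1) :
    ∃ K C0 : ℕ, ∀ C0' : ℕ, C0 ≤ C0' →
      ∀ (V : Type) [Fintype V] [DecidableEq V] (G : SimpleGraph V) (w : V → ℝ) (w0 β η : ℝ),
        NG G w w0 β η C0' → ∀ z : V,
          (univ.filter (fun y => ee G w (cn G y \ cn G z) (cn G y \ cn G z) < 1 / 4 - c)).card
            < K := by
  have hc0 : 0 < c := lt_of_lt_of_le (by positivity) hc
  obtain ⟨n0, hW⟩ := exists_W c hc0 hc1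
  refine ⟨kk c n0 + 2, n0 + kk c n0, ?_⟩
  intro C0' hC0' V _ _ G w w0 β η hNG z
  by_contra hcon
  push Not at hcon
  set L : Finset V :=
    univ.filter (fun y => ee G w (cn G y \ cn G z) (cn G y \ cn G z) < 1 / 4 - c) with hLdef
  have hwpos : ∀ v, 0 ≤ w v := by
    intro v
    have h1 := hNG.wlo v
    have h2 := hNG.w0pos
    nlinarith
  have hβ : β ≤ 1 / 10 ^ 200 := hNG.βsm
  have hcl : ∀ v, nu w (cn G v) ≤ 11 / 10 := by
    intro v
    have h1 := hNG.cls v
    have h2 : (1 : ℝ) / 10 ^ 200 ≤ 1 / 10 ^ 2 := by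
      apply one_div_le_one_div_of_le (by positivity)
      exact pow_le_pow_right₀ (by norm_num) (by norm_num)
    have h3 : (1 : ℝ) / 10 ^ 2 = 1 / 100 := by norm_num
    linarith
  have hLne : L.Nonempty := by
    rw [← Finset.card_pos]; omega
  obtain ⟨W, hzW, hWc, hal, hbe⟩ := hW V G w hwpos hcl L hLne z
  set D : Finset V := cN G W with hD
  set k : ℕ := kk c W.card with hkdef
  have hn1 : 1 ≤ W.card := Finset.card_pos.mpr ⟨z, hzW⟩
  have hn1' : (1 : ℝ) ≤ W.card := by exact_mod_cast hn1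
  have hklb := kk_lb c hc0 W.card
  rw [← hkdef] at hklb
  have hk8 : (8 : ℝ) ≤ k := by
    have hk0 : (0 : ℝ) ≤ k := Nat.cast_nonneg _
    have : c * (k : ℝ) ≤ 1 * k := mul_le_mul_of_nonneg_right hc1 hk0
    linarith
  have hk8' : 8 ≤ k := by exact_mod_cast hk8
  have hkn0 : k ≤ kk c n0 := kk_mono c hc0 hWc
  have hLk : k + 2 ≤ L.card := by omega
  -- choose the leaves
  obtain ⟨Y, hYL, hYk, hY⟩ := avg_aux (fun y => 2 * ee G w (cn G y \ D) D)
    (fun y y' => ee G w (cn G y \ D) (cn G y' \ D)) k (by omega) (L.card - k) L (by omega)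
  have hLc : (0 : ℝ) < L.card := by exact_mod_cast hLne.card_pos
  have hL10 : (10 : ℝ) ≤ L.card := by
    have : 10 ≤ L.card := by omega
    exact_mod_cast this
  -- first part
  have hA : ((k : ℝ) / (L.card : ℝ)) * ∑ y ∈ L, 2 * ee G w (cn G y \ D) D ≤ k * c / 16 := by
    rw [← Finset.mul_sum]
    have h1 : 2 * ∑ y ∈ L, ee G w (cn G y \ D) D ≤ 2 * (c / 32 * L.card) := by linarith
    have h2 := mul_le_mul_of_nonneg_left h1
      (show (0 : ℝ) ≤ (k : ℝ) / (L.card : ℝ) by positivity)
    refine h2.trans (le_of_eq ?_)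
    field_simp
    ring
  have hoff : offd (fun y y' => ee G w (cn G y \ D) (cn G y' \ D)) L
      ≤ c / (64 * k) * (L.card : ℝ) ^ 2 := by
    refine le_trans ?_ hbe
    unfold offd
    refine Finset.sum_le_sum fun y _ => Finset.sum_le_sum fun y' _ => ?_
    split_ifs
    · exact le_refl _
    · exact ee_nonneg G w hwpos _ _
  have hB : ((k : ℝ) * ((k : ℝ) - 1) / ((L.card : ℝ) * ((L.card : ℝ) - 1)))
      * offd (fun y y' => ee G w (cn G y \ D) (cn G y' \ D)) L ≤ k * c / 32 := by
    have hq : (0 : ℝ) ≤ (k : ℝ) * ((k : ℝ) - 1) / ((L.card : ℝ) * ((L.card : ℝ) - 1)) := by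
      apply div_nonneg
      · exact mul_nonneg (by linarith) (by linarith)
      · exact mul_nonneg (by linarith) (by linarith)
    refine (mul_le_mul_of_nonneg_left hoff hq).trans ?_
    have hL1 : (0 : ℝ) < (L.card : ℝ) - 1 := by linarith
    have hk0 : (0 : ℝ) < k := by linarith
    have e : (k : ℝ) * ((k : ℝ) - 1) / ((L.card : ℝ) * ((L.card : ℝ) - 1))
        * (c / (64 * k) * (L.card : ℝ) ^ 2)
        = ((k : ℝ) - 1) * c / 64 * ((L.card : ℝ) / ((L.card : ℝ) - 1)) := by
      field_simp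
    rw [e]
    have h2 : (L.card : ℝ) / ((L.card : ℝ) - 1) ≤ 2 := by
      rw [div_le_iff₀ hL1]; linarith
    have h3 : (0 : ℝ) ≤ ((k : ℝ) - 1) * c / 64 := by
      apply div_nonneg
      · exact mul_nonneg (by linarith) hc0.le
      · norm_num
    refine (mul_le_mul_of_nonneg_left h2 h3).trans ?_
    nlinarith
  have hYsum : ∑ y ∈ Y, 2 * ee G w (cn G y \ D) D
      + offd (fun y y' => ee G w (cn G y \ D) (cn G y' \ D)) Y ≤ k * c / 8 := by
    refine hY.trans ?_
    have hkc : 0 ≤ (k : ℝ) * c := by positivity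
    linarith
  -- the set T
  set T : Finset V := W ∪ Y with hT
  have hTne : T.Nonempty := ⟨z, by rw [hT, Finset.mem_union]; exact Or.inl hzW⟩
  have hTcard : T.card ≤ W.card + k := by
    rw [hT, ← hYk]; exact Finset.card_union_le W Y
  have hTC : T.card ≤ C0' := by omega
  have hTk : (k : ℝ) ≤ T.card := by
    have : Y.card ≤ T.card := Finset.card_le_card Finset.subset_union_right
    rw [hYk] at this
    exact_mod_cast this
  have hTub : (T.card : ℝ) ≤ W.card + k := by exact_mod_cast hTcard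
  have hng := hNG.ng1 T hTne hTC
  -- cN T
  have hcN : cN G T ⊆ D ∪ Y.biUnion (fun y => cn G y \ D) := by
    intro v hv
    unfold cN at hv
    rw [Finset.mem_biUnion] at hv
    obtain ⟨t, ht, hvt⟩ := hv
    rw [hT, Finset.mem_union] at ht
    rw [Finset.mem_union, Finset.mem_biUnion]
    by_cases hvD : v ∈ D
    · exact Or.inl hvD
    · right
      rcases ht with ht | ht
      · exfalso
        apply hvD
        rw [hD]
        unfold cN
        rw [Finset.mem_biUnion]
        exact ⟨t, ht, hvt⟩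
      · exact ⟨t, ht, by rw [Finset.mem_sdiff]; exact ⟨hvt, hvD⟩⟩
  have hzD : cn G z ⊆ D := by
    rw [hD]
    exact Finset.subset_biUnion_of_mem (cn G) hzW
  have hee : ee G w (cN G T) (cN G T) ≤ 11 / 10 * (11 / 10 * W.card) + k * (1 / 4 - c)
      + k * c / 8 := by
    refine (ee_mono G w hwpos hcN hcN).trans ?_
    refine (ee_union_left G w hwpos _ _ _).trans ?_
    have h1 : ee G w D (D ∪ Y.biUnion (fun y => cn G y \ D))
        ≤ ee G w D D + ∑ y ∈ Y, ee G w (cn G y \ D) D := by
      refine (ee_union_right G w hwpos _ _ _).trans ?_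
      have := ee_biUnion_right G w hwpos D Y (fun y => cn G y \ D)
      have h2 : ∑ y ∈ Y, ee G w D (cn G y \ D) = ∑ y ∈ Y, ee G w (cn G y \ D) D :=
        Finset.sum_congr rfl fun y _ => ee_comm _ _ _ _
      linarith
    have h2 : ee G w (Y.biUnion (fun y => cn G y \ D)) (D ∪ Y.biUnion (fun y => cn G y \ D))
        ≤ ∑ y ∈ Y, ee G w (cn G y \ D) D
          + ∑ y ∈ Y, ∑ y' ∈ Y, ee G w (cn G y \ D) (cn G y' \ D) := by
      refine (ee_union_right G w hwpos _ _ _).trans ?_
      have a1 := ee_biUnion_left G w hwpos D Y (fun y => cn G y \ D)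
      have a2 := ee_biUnion_left G w hwpos (Y.biUnion (fun y => cn G y \ D)) Y
        (fun y => cn G y \ D)
      have a3 : ∑ y ∈ Y, ee G w (cn G y \ D) (Y.biUnion (fun y => cn G y \ D))
          ≤ ∑ y ∈ Y, ∑ y' ∈ Y, ee G w (cn G y \ D) (cn G y' \ D) :=
        Finset.sum_le_sum fun y _ => ee_biUnion_right G w hwpos _ Y (fun y => cn G y \ D)
      linarith
    have h3 : ee G w D D ≤ 11 / 10 * (11 / 10 * W.card) := by
      refine (ee_le_nu G w hwpos hcl D D).trans ?_
      have := nu_cN_le G w hwpos hcl W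
      rw [← hD] at this
      linarith
    have h4 : ∑ y ∈ Y, ∑ y' ∈ Y, ee G w (cn G y \ D) (cn G y' \ D)
        = ∑ y ∈ Y, ee G w (cn G y \ D) (cn G y \ D)
          + offd (fun y y' => ee G w (cn G y \ D) (cn G y' \ D)) Y := by
      unfold offd
      rw [← Finset.sum_add_distrib]
      refine Finset.sum_congr rfl fun y hy => ?_
      have : ee G w (cn G y \ D) (cn G y \ D)
          = ∑ y' ∈ Y, if y = y' then ee G w (cn G y \ D) (cn G y' \ D) else 0 := by
        rw [Finset.sum_ite_eq, if_pos hy]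
      rw [this, ← Finset.sum_add_distrib]
      refine Finset.sum_congr rfl fun y' _ => ?_
      by_cases h : y = y'
      · simp [h]
      · simp [h]
    have h5 : ∑ y ∈ Y, ee G w (cn G y \ D) (cn G y \ D) ≤ k * (1 / 4 - c) := by
      have h6 : ∀ y ∈ Y, ee G w (cn G y \ D) (cn G y \ D) ≤ 1 / 4 - c := by
        intro y hy
        have hyL := hYL hy
        rw [hLdef, Finset.mem_filter] at hyL
        have hsub : cn G y \ D ⊆ cn G y \ cn G z :=
          Finset.sdiff_subset_sdiff (Finset.Subset.refl _) hzD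
        exact (ee_mono G w hwpos hsub hsub).trans hyL.2.le
      refine (Finset.sum_le_sum h6).trans ?_
      rw [Finset.sum_const, nsmul_eq_mul, hYk]
    rw [← Finset.mul_sum] at hYsum
    linarith
  have hnu : nu w (cN G T) ≤ 11 / 10 * (W.card + k) := by
    refine (nu_cN_le G w hwpos hcl T).trans ?_
    linarith
  have hη : η = 1 / 10 ^ 39 := hNG.hη
  have hηc : η ≤ c / 100 := by
    rw [hη]
    have : (1 : ℝ) / 10 ^ 39 = (1 / 10 ^ 37) / 100 := by norm_num
    rw [this]
    linarith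
  have hη0 : 0 < η := by rw [hη]; positivity
  have hkc : 0 < (k : ℝ) * c := by
    have : (0 : ℝ) < k := by linarith
    positivity
  have hnk : (W.card : ℝ) ≤ k * c / 8 := by nlinarith
  have hnk2 : (W.card : ℝ) ≤ k := by
    have : (k : ℝ) * c ≤ k * 1 := mul_le_mul_of_nonneg_left hc1 (by linarith)
    linarith
  -- final contradiction
  have e1 : (1 - η) * k ≤ (1 - η) * T.card := by
    apply mul_le_mul_of_nonneg_left hTk
    linarith
  have e2 : η * nu w (cN G T) ≤ η * (11 / 10 * (W.card + k)) :=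
    mul_le_mul_of_nonneg_left hnu hη0.le
  have e3 : η * (11 / 10 * (W.card + k)) ≤ η * (22 / 10 * k) := by
    apply mul_le_mul_of_nonneg_left _ hη0.le
    linarith
  have e4 : η * (k : ℝ) ≤ c / 100 * k := mul_le_mul_of_nonneg_right hηc (by linarith)
  nlinarith

/-- Section 3 of the blueprint, the form of the Spec. -/
theorem star : ∃ K C0 : ℕ, 1 ≤ C0 ∧ ∀ (V : Type) [Fintype V] [DecidableEq V]
    (G : SimpleGraph V) (w : V → ℝ) (w0 β η : ℝ), NG G w w0 β η C0 →
    ∀ z, (univ.filter (fun y =>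
      ee G w (cn G y \ cn G z) (cn G y \ cn G z) < 1 / 4 - 1 / 10 ^ 36)).card < K := by
  obtain ⟨K, C0, h⟩ := star_gen (1 / 10 ^ 36)
    (one_div_le_one_div_of_le (by positivity) (pow_le_pow_right₀ (by norm_num) (by norm_num)))
    (by
      rw [div_le_one (by positivity)]
      exact one_le_pow₀ (by norm_num))
  exact ⟨K, C0 + 1, by omega, fun V _ _ G w w0 β η hNG => h (C0 + 1) (by omega) V G w w0 β η hNG⟩

end Pool.Agent.Lib.MP_4d044e_co.TX
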