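import Pool.Agent.Lib.MP_4d044e_co.TW.IDN
import Pool.Agent.Lib.MP_4d044e_co.TX.Defs
import Pool.Agent.Lib.MP_4d044e_co.TX.TRA
import Pool.Agent.Lib.MP_4d044e_co.TX.STAR
import Pool.Agent.Lib.MP_4d044e_co.TX.WTS
import Pool.Agent.Lib.MP_4d044e_co.TW.PFG
import Pool.Agent.Lib.MP_4d044e_co.TX.INDX
import Pool.Agent.Lib.MP_4d044e_co.TW.WRAP
import Pool.Agent.Lib.MP_4d044e_co.UB.Stmt
import Pool.Agent.Lib.MP_4d044e_co.CF.All

section
/-!
The margin of the clusters for the potential with a kink.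
-/
set_option autoImplicit false

namespace Pool.Agent.Lib.MP_4d044e_co.TX

open Pool.Agent.Lib.MP_4d044e_co.TW
open Finset
open scoped Classical

theorem marginx {V : Type} (d : ℕ) (hd : Odd d) (w0 : ℝ) (hw0 : w0 = 1 / ((d : ℝ) + 2))
    (C : Finset V) (w : V → ℝ) :
    w0 ^ 2 ≤ (1 - 2 * nu w C) ^ 2 + ∑ v ∈ C, 4 * w0 * |w v - w0| := by
  have hdp : (0 : ℝ) < (d : ℝ) + 2 := by positivity
  have hw0p : 0 < w0 := by rw [hw0]; positivity
  set D : ℝ := ∑ v ∈ C, |w v - w0| with hD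
  have hD0 : 0 ≤ D := sum_nonneg fun v _ => abs_nonneg _
  have h1 : ∑ v ∈ C, 4 * w0 * |w v - w0| = 4 * w0 * D := by rw [hD, mul_sum]
  have h2 : |nu w C - C.card * w0| ≤ D := by
    have h3 : nu w C - C.card * w0 = ∑ v ∈ C, (w v - w0) := by
      unfold nu
      rw [sum_sub_distrib, sum_const, nsmul_eq_mul]
    rw [h3]
    exact abs_sum_le_sum_abs _ _
  have h4 : w0 ≤ |1 - 2 * (C.card * w0)| := by
    have h5 : 1 - 2 * (C.card * w0) = (((d : ℤ) + 2 - 2 * C.card : ℤ) : ℝ) * w0 := by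
      have : w0 * ((d : ℝ) + 2) = 1 := by rw [hw0]; field_simp
      push_cast
      linarith
    rw [h5, abs_mul, abs_of_pos hw0p]
    have h6 : (1 : ℝ) ≤ |(((d : ℤ) + 2 - 2 * C.card : ℤ) : ℝ)| := by
      have h7 : ((d : ℤ) + 2 - 2 * C.card : ℤ) ≠ 0 := by
        obtain ⟨m, hm⟩ := hd
        omega
      have h8 : (1 : ℤ) ≤ |((d : ℤ) + 2 - 2 * C.card : ℤ)| := Int.one_le_abs h7
      have h9 : ((1 : ℤ) : ℝ) ≤ ((|((d : ℤ) + 2 - 2 * C.card : ℤ)| : ℤ) : ℝ) := by exact_mod_cast h8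
      rw [Int.cast_abs, Int.cast_one] at h9
      exact h9
    nlinarith
  have h10 : w0 - 2 * D ≤ |1 - 2 * nu w C| := by
    have h11 : |1 - 2 * (C.card * w0)| ≤ |1 - 2 * nu w C| + |2 * (nu w C - C.card * w0)| := by
      have := abs_add_le (1 - 2 * nu w C) (2 * (nu w C - C.card * w0))
      have h12 : (1 - 2 * nu w C) + 2 * (nu w C - C.card * w0) = 1 - 2 * (C.card * w0) := by ring
      rwa [h12] at this
    rw [abs_mul, abs_of_pos (by norm_num : (0 : ℝ) < 2)] at h11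
    linarith
  rw [h1]
  rcases le_total w0 (2 * D) with h | h
  · nlinarith [sq_nonneg (1 - 2 * nu w C)]
  · have h13 : (w0 - 2 * D) ^ 2 ≤ (1 - 2 * nu w C) ^ 2 := by
      rw [← sq_abs (1 - 2 * nu w C)]
      exact pow_le_pow_left₀ (by linarith) h10 2
    nlinarith

theorem idnx {V : Type} [Fintype V] [DecidableEq V] {G : SimpleGraph V} {w : V → ℝ} (η w0 : ℝ)
    (hη : 0 ≤ η) (hw0 : 0 < w0) (hw : ∀ v, 0 < w v)
    {CC : Finset (Finset V)} (hCS : CS G w CC) :
    FK η w0 G w ≤ CC.card - ∑ C ∈ CC, ((1 - 2 * nu w C) ^ 2 + ∑ v ∈ C, 4 * w0 * |w v - w0|) := by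
  have h1 := idn (G := G) η w0 (fun v => (hw v).le) hCS
  have h2 := idn_two hCS (fun v => 4 * w0 * |w v - w0|)
  rw [← mul_sum] at h2
  have h3 : ∀ C ∈ CC, (1 - 2 * nu w C) ^ 2 ≤ (1 - 2 * nu w C) ^ 2
      + ∑ v ∈ C, 4 * η * (w v * Real.log (w v / w0) - w v + w0) := by
    intro C _
    have : 0 ≤ ∑ v ∈ C, 4 * η * (w v * Real.log (w v / w0) - w v + w0) := by
      refine sum_nonneg fun v _ => mul_nonneg (by linarith) ?_
      have hwv := hw v
      have h3 := Real.log_le_sub_one_of_pos (div_pos hw0 hwv)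
      have h4 : Real.log (w v / w0) = - Real.log (w0 / w v) := by
        rw [← Real.log_inv, inv_div]
      rw [h4]
      have h5 : w v * Real.log (w0 / w v) ≤ w v * (w0 / w v - 1) :=
        mul_le_mul_of_nonneg_left h3 hwv.le
      have h6 : w v * (w0 / w v - 1) = w0 - w v := by field_simp
      rw [h6] at h5
      linarith
    linarith
  have h4 := sum_le_sum h3
  rw [sum_add_distrib, h2]
  unfold FK
  linarith

end Pool.Agent.Lib.MP_4d044e_co.TX
end

section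
/-! Assembly: the main inequality for all large `d`, with the exact constant. -/
set_option autoImplicit false
set_option linter.unusedSectionVars false

namespace Pool.Agent.Lib.MP_4d044e_co.TX

open Pool.Agent.Lib.MP_4d044e_co.TW

open Finset
open scoped Classical

/-- the transversal of the clusters is a good set of size `CC.card` -/
theorem fin_trans (k K C0 : ℕ) (η w0 β : ℝ) (hC0 : 1 ≤ C0) (hk2 : 2 ≤ k)
    (hβK : β * K ≤ 1 / 10 ^ 200)
    (hstar : ∀ (V : Type) [Fintype V] [DecidableEq V]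
      (G : SimpleGraph V) (w : V → ℝ) (w0 β η : ℝ), NG G w w0 β η C0 →
      ∀ z, (univ.filter (fun y =>
        ee G w (cn G y \ cn G z) (cn G y \ cn G z) < 1 / 4 - 1 / 10 ^ 36)).card < K)
    (V : Type) [Fintype V] [DecidableEq V] [Nonempty V] (G : SimpleGraph V) (w : V → ℝ)
    (h : NG G w w0 β η C0) (hdeg : ∀ v, (nbr G v).card + 1 ≤ k) :
    ∃ (CC : Finset (Finset V)) (R : Finset V), CS G w CC ∧ (∀ v, w v ≤ 40 * w0) ∧
      Good k G R ∧ R.card = CC.card := by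
  have hbad := bad h hC0 K hβK (hstar V G w w0 β η h)
  obtain ⟨CC, hCS⟩ := str h hC0 hbad
  have hw := wts h hCS
  obtain ⟨f, hf1, hf2, hf3⟩ := tra h hCS hw
  refine ⟨CC, CC.image f, hCS, hw, ?_, ?_⟩
  · apply pfg CC f hf1 hf2 (fun v => (hCS.two v).le) hk2
    · intro C hC
      have hne : C.Nonempty := by
        rw [nonempty_iff_ne_empty]
        rintro rfl
        have := hCS.lo ∅ hC
        rw [nu_empty] at this
        norm_num at this
      obtain ⟨v, hv⟩ := hne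
      have hsub : C ∩ CC.image f ⊆ cn G v := by
        intro u hu
        rw [mem_cn]
        by_cases huv : u = v
        · exact Or.inl huv
        · exact Or.inr (hCS.clique C hC v hv u (mem_inter.mp hu).1 (Ne.symm huv))
      calc (C ∩ CC.image f).card ≤ (cn G v).card := card_le_card hsub
        _ ≤ (nbr G v).card + 1 := card_insert_le _ _
        _ ≤ k := hdeg v
    · intro u hu v hv huv
      rw [mem_image] at hu hv
      obtain ⟨C, hC, rfl⟩ := hu
      obtain ⟨C', hC', rfl⟩ := hv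
      exact hf3 C hC C' hC' huv
  · exact card_image_of_injOn fun C hC C' hC' he => hf2 C hC C' hC' he

theorem FK_empty {V : Type} [Fintype V] [DecidableEq V] [IsEmpty V] (η w0 : ℝ)
    (G : SimpleGraph V) (w : V → ℝ) : FK η w0 G w = 0 := by
  unfold FK FF ee
  simp

/-- the final step of the minimal counterexample, with the margin `σ` -/
theorem finx_final (k K C0 : ℕ) (δ σ η w0 β : ℝ) (hη : η = 1 / 10 ^ 39)
    (hδ : (1 + δ) * (1 - σ) = 1) (hδ0 : 0 ≤ δ)
    (hσ : ∀ (V : Type) (C : Finset V) (w : V → ℝ),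
      σ ≤ (1 - 2 * nu w C) ^ 2 + ∑ v ∈ C, 4 * w0 * |w v - w0|)
    (hC0 : 1 ≤ C0) (hk2 : 2 ≤ k)
    (hβK : β * K ≤ 1 / 10 ^ 200)
    (hstar : ∀ (V : Type) [Fintype V] [DecidableEq V]
      (G : SimpleGraph V) (w : V → ℝ) (w0 β η : ℝ), NG G w w0 β η C0 →
      ∀ z, (univ.filter (fun y =>
        ee G w (cn G y \ cn G z) (cn G y \ cn G z) < 1 / 4 - 1 / 10 ^ 36)).card < K)
    (V : Type) [Fintype V] [DecidableEq V] (G : SimpleGraph V) (w : V → ℝ)
    (h : NG G w w0 β η C0) (hdeg : ∀ v, (nbr G v).card + 1 ≤ k) :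
    ∃ R : Finset V, Good k G R ∧ (1 + δ) * FK η w0 G w ≤ R.card := by
  rcases isEmpty_or_nonempty V with hV | hV
  · refine ⟨∅, Good.empty G, ?_⟩
    rw [FK_empty]
    simp
  obtain ⟨CC, R, hCS, hw, hR, hcard⟩ := fin_trans k K C0 η w0 β hC0 hk2 hβK hstar V G w h hdeg
  have hη0 : 0 < η := by rw [hη]; norm_num
  refine ⟨R, hR, ?_⟩
  rw [hcard]
  have h1 := idnx (G := G) η w0 hη0.le h.w0pos h.wpos hCS
  have h2 : ∑ C ∈ CC, σ ≤ ∑ C ∈ CC, ((1 - 2 * nu w C) ^ 2 + ∑ v ∈ C, 4 * w0 * |w v - w0|) :=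
    sum_le_sum fun C _ => hσ V C w
  rw [sum_const, nsmul_eq_mul] at h2
  have h3 : FK η w0 G w ≤ CC.card * (1 - σ) := by linarith
  calc (1 + δ) * FK η w0 G w ≤ (1 + δ) * (CC.card * (1 - σ)) :=
        mul_le_mul_of_nonneg_left h3 (by linarith)
    _ = CC.card * ((1 + δ) * (1 - σ)) := by ring
    _ = CC.card := by rw [hδ, mul_one]

/-- choice of the parameters -/
theorem finx_par (K : ℕ) : ∃ d0 : ℕ, ∀ d : ℕ, d0 ≤ d →
    1 / ((d : ℝ) + 2) * Real.exp (2 / (1 / 10 ^ 39)) ≤ 1 / 10 ^ 200 ∧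
    1 / ((d : ℝ) + 2) * Real.exp (2 / (1 / 10 ^ 39)) * K ≤ 1 / 10 ^ 200 := by
  set η : ℝ := 1 / 10 ^ 39 with hη
  obtain ⟨d0, hd0⟩ := exists_nat_ge (Real.exp (2 / η) * 10 ^ 200 * (K + 1))
  refine ⟨d0, fun d hd => ?_⟩
  set w0 : ℝ := 1 / ((d : ℝ) + 2) with hw0
  have hdp : (0 : ℝ) < (d : ℝ) + 2 := by positivity
  have hw0p : 0 < w0 := by positivity
  have hexp : 0 < Real.exp (2 / η) := Real.exp_pos _
  have hK0 : (0 : ℝ) ≤ K := by positivity
  have hdd : Real.exp (2 / η) * 10 ^ 200 * (K + 1) ≤ (d : ℝ) + 2 := by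
    have : (d0 : ℝ) ≤ d := by exact_mod_cast hd
    linarith
  have hβ' : w0 * Real.exp (2 / η) * (K + 1) ≤ 1 / 10 ^ 200 := by
    rw [hw0, le_div_iff₀ (by positivity)]
    have : 1 / ((d : ℝ) + 2) * Real.exp (2 / η) * (K + 1) * 10 ^ 200
        = (Real.exp (2 / η) * 10 ^ 200 * (K + 1)) / ((d : ℝ) + 2) := by ring
    rw [this, div_le_one hdp]
    exact hdd
  have h1 : 0 ≤ w0 * Real.exp (2 / η) := by positivity
  constructor <;> nlinarith [mul_nonneg h1 hK0]

/-- the margin: `w0 ^ 2` for odd `d`, `0` for even `d` -/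
noncomputable def sg (d : ℕ) : ℝ := if Odd d then (1 / ((d : ℝ) + 2)) ^ 2 else 0

/-- all large `d`, exact constant -/
theorem finx : ∃ d0 : ℕ, ∀ d : ℕ, d0 ≤ d → ∃ k : ℕ,
    ∀ (V : Type) [Fintype V] [DecidableEq V] (G : SimpleGraph V),
      ∃ R : Finset V, Good k G R ∧
        ∀ u : V → ℝ, (∀ v, 0 ≤ u v ∧ u v ≤ 1) →
          FK (1 / 10 ^ 39) (1 / ((d : ℝ) + 2)) G u ≤ (1 - sg d) * R.card := by
  obtain ⟨K, C0, hC0, hstar⟩ := star
  obtain ⟨d0, hd0⟩ := finx_par K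
  refine ⟨d0, fun d hd => ?_⟩
  obtain ⟨hβ1, hβK⟩ := hd0 d hd
  set η : ℝ := 1 / 10 ^ 39 with hη
  have hη0 : 0 < η := by rw [hη]; norm_num
  set w0 : ℝ := 1 / ((d : ℝ) + 2) with hw0
  have hdp : (0 : ℝ) < (d : ℝ) + 2 := by positivity
  have hw0p : 0 < w0 := by positivity
  have hexp1 : (1 : ℝ) ≤ Real.exp (2 / η) := Real.one_le_exp (by positivity)
  have hw0s : w0 ≤ 1 / 10 ^ 200 := by
    refine le_trans ?_ hβ1
    nlinarith
  have hw0η : w0 ≤ η := hw0s.trans (by rw [hη]; norm_num)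
  have hη1 : η ≤ 1 / 2 := by rw [hη]; norm_num
  have hsg0 : 0 ≤ sg d := by
    unfold sg
    split_ifs
    · positivity
    · exact le_rfl
  have hsg1 : sg d ≤ w0 ^ 2 := by
    unfold sg
    split_ifs
    · exact le_rfl
    · positivity
  have hw2 : w0 ^ 2 ≤ η / 2 := by nlinarith
  have h1s : 0 < 1 - sg d := by linarith
  set δ : ℝ := sg d / (1 - sg d) with hδ
  have hδ0 : 0 ≤ δ := div_nonneg hsg0 h1s.le
  have hδm : (1 + δ) * (1 - sg d) = 1 := by
    rw [hδ]
    field_simp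
    ring
  have hδη : δ ≤ η := by
    rw [hδ, div_le_iff₀ h1s]
    nlinarith
  have hmar : ∀ (V : Type) (C : Finset V) (w : V → ℝ),
      sg d ≤ (1 - 2 * nu w C) ^ 2 + ∑ v ∈ C, 4 * w0 * |w v - w0| := by
    intro V C w
    by_cases hodd : Odd d
    · refine hsg1.trans ?_
      exact marginx d hodd w0 hw0 C w
    · have h0 : sg d = 0 := by unfold sg; rw [if_neg hodd]
      rw [h0]
      have : 0 ≤ ∑ v ∈ C, 4 * w0 * |w v - w0| :=
        sum_nonneg fun v _ => mul_nonneg (by linarith) (abs_nonneg _)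
      nlinarith [sq_nonneg (1 - 2 * nu w C)]
  obtain ⟨k1, hk1⟩ := exists_nat_ge (4 / w0)
  refine ⟨max (max C0 k1) 2, ?_⟩
  have hk1' : 4 / w0 ≤ ((max (max C0 k1) 2 : ℕ) : ℝ) := by
    refine hk1.trans ?_
    exact_mod_cast (le_max_right C0 k1).trans (le_max_left _ _)
  have H := indx η w0 (w0 * Real.exp (2 / η)) δ _ C0 hη hw0p rfl hβ1
    hδ0 hδη ((le_max_left C0 k1).trans (le_max_left _ _)) hk1'
    (fun V _ _ G w h hdeg => finx_final _ K C0 δ (sg d) η w0 _ hη hδm hδ0 hmar hC0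
      (le_max_right _ _) hβK hstar V G w h hdeg)
  intro V _ _ G
  obtain ⟨R, hR, hR2⟩ := H V G
  refine ⟨R, hR, fun u hu => ?_⟩
  have h3 := mul_le_mul_of_nonneg_left (hR2 u hu) h1s.le
  calc FK η w0 G u = (1 + δ) * (1 - sg d) * FK η w0 G u := by rw [hδm, one_mul]
    _ = (1 - sg d) * ((1 + δ) * FK η w0 G u) := by ring
    _ ≤ (1 - sg d) * R.card := h3

end Pool.Agent.Lib.MP_4d044e_co.TX
end

section
/-!
The exact value of the coefficient of fragmentability of the graphs of maximum degree at most `d`,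
for all large `d`.
-/
set_option autoImplicit false

namespace Pool.Agent.Lib.MP_4d044e_co.TX

open Pool.Agent.Lib.MP_4d044e_co.TW
open Pool.Agent.Lib.MP4d044e
open Finset
open scoped Classical

/-- From large sets of bounded tree-width to fragmentability. -/
theorem fragx (d k : ℕ) (hd : 4 ≤ d) (η σ : ℝ) (hσ : 4 / ((d : ℝ) + 2) = (1 - σ) * phi (d + 2))
    (hσ1 : 0 < 1 - σ)
    (H : ∀ (V : Type) [Fintype V] [DecidableEq V] (G : SimpleGraph V),
      ∃ R : Finset V, Good k G R ∧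
        ∀ u : V → ℝ, (∀ v, 0 ≤ u v ∧ u v ≤ 1) →
          FK η (1 / ((d : ℝ) + 2)) G u ≤ (1 - σ) * R.card)
    (ε : ℝ) (hε : 1 - phi (d + 2) < ε) : Fragmentable (ClassMD d) ε := by
  have hd4 : (4 : ℝ) ≤ d := by exact_mod_cast hd
  have hdp : (0 : ℝ) < (d : ℝ) + 2 := by linarith
  set w0 : ℝ := 1 / ((d : ℝ) + 2) with hw0
  have hw0p : 0 < w0 := by positivity
  have hdw : w0 * (d + 2) = 1 := by
    rw [hw0]
    field_simp
  have hw01 : w0 ≤ 1 := by
    rw [hw0, div_le_one hdp]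
    linarith
  set τ : ℝ := ε - (1 - phi (d + 2)) with hτ
  have hτ0 : 0 < τ := by linarith
  obtain ⟨S, hS⟩ := exists_nat_gt (((k : ℝ) + 1) / τ)
  have hSp : (0 : ℝ) < S := lt_of_le_of_lt (by positivity) hS
  have hS1 : 1 ≤ S := by
    have : 0 < S := by exact_mod_cast hSp
    omega
  rw [div_lt_iff₀ hτ0] at hS
  refine ⟨S, fun n G hG => ?_⟩
  obtain ⟨R, hR, hRc⟩ := H (Fin n) G
  have hnb : ∀ v, (nbr G v).card ≤ d := by
    intro v
    rw [← Set.ncard_coe_finset]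
    convert hG v using 2
    ext u
    simp [nbr]
  have h1 := hRc (fun _ => w0) (fun _ => ⟨hw0p.le, hw01⟩)
  have h2 := FF_const η w0 hw0p G d hdw hnb
  rw [Fintype.card_fin] at h2
  have h2' : FK η w0 G (fun _ => w0) = FF η w0 G (fun _ => w0) := by
    unfold FK
    simp
  rw [h2'] at h1
  have h3 : phi (d + 2) * n ≤ R.card := by
    have h4 : (1 - σ) * (phi (d + 2) * n) ≤ (1 - σ) * R.card := by
      calc (1 - σ) * (phi (d + 2) * n) = ((1 - σ) * phi (d + 2)) * n := by ring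
        _ = 4 / ((d : ℝ) + 2) * n := by rw [← hσ]
        _ = 4 * w0 * n := by rw [hw0]; ring
        _ ≤ _ := h2.trans h1
    exact le_of_mul_le_mul_left h4 hσ1
  obtain ⟨D, hD, hDc, lab, hlab, hcls⟩ := cut hR S hS1
  refine ⟨(R \ D)ᶜ, ?_, fun c => ?_⟩
  · have h4 : (((R \ D)ᶜ).card : ℝ) = n - (R.card - D.card) := by
      rw [Finset.card_compl, Fintype.card_fin, Nat.cast_sub, Finset.card_sdiff_of_subset hD,
        Nat.cast_sub (Finset.card_le_card hD)]
      refine (Finset.card_le_univ _).trans (by simp)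
    have h5 : (S : ℝ) * D.card ≤ (k + 1) * R.card := by exact_mod_cast hDc
    have hRn : (R.card : ℝ) ≤ n := by
      have := Finset.card_le_univ R
      rw [Fintype.card_fin] at this
      exact_mod_cast this
    have h6 : (D.card : ℝ) ≤ τ * n := by
      have h7 : (S : ℝ) * D.card ≤ S * (τ * n) := by
        calc (S : ℝ) * D.card ≤ (k + 1) * R.card := h5
          _ ≤ (k + 1) * n := by gcongr
          _ ≤ (S * τ) * n := by gcongr
          _ = S * (τ * n) := by ring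
      exact le_of_mul_le_mul_left h7 hSp
    rw [h4]
    have h8 : ε = 1 - phi (d + 2) + τ := by rw [hτ]; ring
    rw [h8]
    linarith
  · have hset : ∀ x : Fin n, x ∈ ((↑((R \ D)ᶜ) : Set (Fin n))ᶜ) ↔ x ∈ R \ D := by
      intro x
      simp
    obtain ⟨v0, rfl⟩ := c.exists_rep
    have key : ∀ u w : ↥((↑((R \ D)ᶜ) : Set (Fin n))ᶜ),
        (G.induce ((↑((R \ D)ᶜ) : Set (Fin n))ᶜ)).Walk u w → lab u.1 = lab w.1 := by
      intro u w p
      induction p with
      | nil => rfl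
      | cons hadj p ih =>
        rename_i a b c'
        rw [← ih]
        exact hlab a.1 ((hset _).1 a.2) b.1 ((hset _).1 b.2) hadj
    have h1 : (Subtype.val '' (SimpleGraph.ConnectedComponent.supp
        ((G.induce ((↑((R \ D)ᶜ) : Set (Fin n))ᶜ)).connectedComponentMk v0))) ⊆
        (↑((R \ D).filter (fun u => lab u = lab v0.1)) : Set (Fin n)) := by
      rintro _ ⟨w, hw, rfl⟩
      have h2 := SimpleGraph.ConnectedComponent.exact ((SimpleGraph.ConnectedComponent.mem_supp_iff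
        _ _).1 hw)
      obtain ⟨p⟩ := h2
      rw [Finset.mem_coe, Finset.mem_filter]
      exact ⟨(hset _).1 w.2, key _ _ p⟩
    have h2 := Set.ncard_le_ncard h1 (Finset.finite_toSet _)
    rw [Set.ncard_image_of_injective _ Subtype.val_injective, Set.ncard_coe_finset] at h2
    exact h2.trans (hcls _)

/-- **The exact value for all large `d`.** -/
theorem exact_value : ∃ d0 : ℕ, ∀ d : ℕ, d0 ≤ d →
    (Even d → coef (ClassMD d) = ((d : ℝ) - 2) / ((d : ℝ) + 2)) ∧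
    (Odd d → coef (ClassMD d) = 1 - 4 * ((d : ℝ) + 2) / (((d : ℝ) + 1) * ((d : ℝ) + 3)) ∧
      coef (ClassMD d) < ((d : ℝ) - 2) / ((d : ℝ) + 2)) ∧
    (∀ ε : ℝ, coef (ClassMD d) < ε → Fragmentable (ClassMD d) ε) := by
  obtain ⟨d0, h⟩ := finx
  refine ⟨max d0 4, fun d hd => ?_⟩
  have hd4 : 4 ≤ d := (le_max_right _ _).trans hd
  obtain ⟨k, H⟩ := h d ((le_max_left _ _).trans hd)
  have hPHI := specPHI
  have hRED := specRED
  have hCOV := specCOV hRED
  have hGIR := specGIR hCOV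
  have hCOR := specCOR hRED
  have hLOW := specLOW hGIR hCOR
  obtain ⟨-, -, -, h4, h5, h6⟩ := hPHI
  have hd0 : (0 : ℝ) < (d : ℝ) + 2 := by positivity
  have hσ : 4 / ((d : ℝ) + 2) = (1 - sg d) * phi (d + 2) := by
    unfold sg
    by_cases ho : Odd d
    · rw [if_pos ho, (h6 d ho).1]
      field_simp
      ring
    · rw [if_neg ho, h5 d (Nat.not_odd_iff_even.1 ho)]
      ring
  have hσ1 : 0 < 1 - sg d := by
    unfold sg
    split_ifs
    · have h1 : 1 / ((d : ℝ) + 2) < 1 := by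
        rw [div_lt_one hd0]
        have : (4 : ℝ) ≤ d := by exact_mod_cast hd4
        linarith
      have h2 : 0 < 1 / ((d : ℝ) + 2) := by positivity
      nlinarith
    · norm_num
  have hFR := fragx d k hd4 _ (sg d) hσ hσ1 H
  have hle : phi (d + 2) ≤ 1 := (h4 d hd4).2.2.2.1
  have hlb : ∀ ε ∈ {ε : ℝ | 0 ≤ ε ∧ Fragmentable (ClassMD d) ε}, 1 - phi (d + 2) ≤ ε := by
    rintro ε ⟨-, C, hC⟩
    exact hLOW d hd4 ε ⟨C, fun n G hG => hC n G hG.2⟩
  have hbdd : BddBelow {ε : ℝ | 0 ≤ ε ∧ Fragmentable (ClassMD d) ε} := ⟨0, fun ε hε => hε.1⟩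
  have hcoef : coef (ClassMD d) = 1 - phi (d + 2) := by
    unfold coef
    refine le_antisymm ?_ ?_
    · refine le_of_forall_gt_imp_ge_of_dense fun ε hε => ?_
      exact csInf_le hbdd ⟨by linarith, hFR ε hε⟩
    · exact le_csInf ⟨1 - phi (d + 2) + 1, by linarith, hFR _ (by linarith)⟩ hlb
  refine ⟨fun he => ?_, fun ho => ⟨?_, ?_⟩, fun ε hε => hFR ε (by rw [← hcoef]; exact hε)⟩
  · rw [hcoef, h5 d he]
    field_simp
    ring
  · rw [hcoef, (h6 d ho).1]
  · have h := (h6 d ho).2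
    have e : ((d : ℝ) - 2) / ((d : ℝ) + 2) = 1 - 4 / ((d : ℝ) + 2) := by
      field_simp
      ring
    rw [hcoef, e]
    linarith

end Pool.Agent.Lib.MP_4d044e_co.TX
end
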